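import Pool.Agent.AGM.Defs

/-!
# AGM-BIG: towers of full dimension (definition)
-/

set_option autoImplicit false

noncomputable section

namespace AGM

open AGE Set Topology

/-- some level of the tower contains `8` times an `m`-dimensional cube -/
def Big (m : ℕ) (J : ℕ → Type) [∀ k, LinearOrder (J k)] (T : ∀ k, Set (Cube (J k))) : Prop :=
  ∃ (k : ℕ) (P : Cube (J (k + 1))), P.dim = m ∧
    ∀ Q : Cube (J (k + 1)), Q.InM 8 P → Q ∈ T (k + 1)

end AGM
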