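import Pool.Agent.AGM.FIN

/-!
# AGM-BST: the Menger compacta, conditionally on the characterization theorem

`Bestvina k`: the direction of the characterization theorem for the Menger compactum of dimension `k`
which is used here. `main4`: with `Bestvina n` and `Bestvina (n + 1)` the two spaces of `main3` are
the Menger compacta of dimensions `n + 1` and `n`.
-/

set_option autoImplicit false

noncomputable section

namespace AGM

open AGE Set Topology

/-- the `k`-dimensional Menger compactum, standard model -/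
def MC (k : ℕ) : Set (Fin (2 * k + 1) → ℝ) :=
  {x | (∀ i, x i ∈ Set.Icc (0:ℝ) 1) ∧
    ∀ j : ℕ, {i | 1/3 < Int.fract ((3:ℝ) ^ j * x i) ∧
      Int.fract ((3:ℝ) ^ j * x i) < 2/3}.ncard ≤ k}

/-- the characterization theorem for the Menger compactum of dimension `k` -/
def Bestvina (k : ℕ) : Prop :=
  ∀ (Y : Type) [TopologicalSpace Y] [CompactSpace Y] [TopologicalSpace.MetrizableSpace Y],
    CovDimLE Y k → ¬ CovDimLE Y (k - 1) → Cn k Y → LCn k Y → DDP k Y → Nonempty (Y ≃ₜ MC k)

/-- transport of an action along a homeomorphism -/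
theorem act_homeo (G : Type) [Group G] [TopologicalSpace G] {X Y : Type} [TopologicalSpace X]
    [TopologicalSpace Y] [MulAction G X] [ContinuousSMul G X] (h : X ≃ₜ Y) :
    ∃ (_ : MulAction G Y), ContinuousSMul G Y ∧ ∀ (g : G) (y : Y), g • y = h (g • h.symm y) := by
  let A : MulAction G Y :=
    { smul := fun g y => h (g • h.symm y)
      one_smul := fun y => by
        show h ((1 : G) • h.symm y) = y
        rw [one_smul, h.apply_symm_apply]
      mul_smul := fun g g' y => by
        show h ((g * g') • h.symm y) = h (g • h.symm (h (g' • h.symm y)))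
        rw [h.symm_apply_apply, mul_smul] }
  refine ⟨A, ⟨?_⟩, fun g y => rfl⟩
  show Continuous fun z : G × Y => h (z.1 • h.symm z.2)
  exact h.continuous.comp (continuous_fst.smul (h.symm.continuous.comp continuous_snd))

theorem main4 (p : ℕ) [Fact p.Prime] (n : ℕ) (hn : 2 ≤ n) (hB : Bestvina n)
    (hB' : Bestvina (n + 1)) :
    ∃ (_ : MulAction (Multiplicative ℤ_[p]) (MC (n + 1)))
      (_ : MulAction (Multiplicative ℤ_[p]) (MC n)),
      ContinuousSMul (Multiplicative ℤ_[p]) (MC (n + 1)) ∧
      ContinuousSMul (Multiplicative ℤ_[p]) (MC n) ∧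
      (∀ (g : Multiplicative ℤ_[p]) (x : MC (n + 1)), g • x = x → g = 1) ∧
      (∀ (g : Multiplicative ℤ_[p]) (y : MC n), g • y = y → g = 1) ∧
      ∃ f : MC (n + 1) → MC n, Continuous f ∧
        ∀ (g : Multiplicative ℤ_[p]) (x : MC (n + 1)), f (g • x) = g • f x := by
  obtain ⟨X, a1, a2, a3, a4, a5, Y, b1, b2, b3, b4, b5, hfX, hdX, hdX', -, c1, c2, c3, hfY, hdY,
    hdY', d1, d2, d3, f, hf, hfe⟩ := main3 p n hn
  obtain ⟨h⟩ := hB' X hdX hdX' c1 c2 c3
  obtain ⟨k⟩ := hB Y hdY hdY' d1 d2 d3
  obtain ⟨A, hA, hA'⟩ := act_homeo (Multiplicative ℤ_[p]) h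
  obtain ⟨B, hB, hB'⟩ := act_homeo (Multiplicative ℤ_[p]) k
  refine ⟨A, B, hA, hB, fun g x hx => ?_, fun g y hy => ?_, fun x => k (f (h.symm x)),
    k.continuous.comp (hf.comp h.symm.continuous), fun g x => ?_⟩
  · rw [hA'] at hx
    exact hfX g (h.symm x) (h.injective (by rw [hx, h.apply_symm_apply]))
  · rw [hB'] at hy
    exact hfY g (k.symm y) (k.injective (by rw [hy, k.apply_symm_apply]))
  · show k (f (h.symm (g • x))) = g • k (f (h.symm x))
    rw [hA', hB', h.symm_apply_apply, hfe, k.symm_apply_apply]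

/-- the negation of the conjecture, conditionally on the characterization theorem in the dimensions
`2` and `3` -/
theorem main5 (h2 : Bestvina 2) (h3 : Bestvina 3) :
    ¬ (∀ (m n : ℕ), 0 < m → 0 < n →
    ∀ (G : Type) [Group G] [TopologicalSpace G] [IsTopologicalGroup G] [CompactSpace G]
      [TopologicalSpace.MetrizableSpace G] [TotallyDisconnectedSpace G] [Nontrivial G]
      [A : MulAction G (MC (m + n))] [B : MulAction G (MC n)],
      ContinuousSMul G (MC (m + n)) → ContinuousSMul G (MC n) →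
      (∀ (g : G) (x : MC (m + n)), g • x = x → g = 1) →
      (∀ (g : G) (y : MC n), g • y = y → g = 1) →
      ¬ ∃ f : MC (m + n) → MC n, Continuous f ∧ ∀ (g : G) x, f (g • x) = g • f x) := by
  intro hcon
  haveI : Fact (Nat.Prime 2) := ⟨Nat.prime_two⟩
  obtain ⟨A, B, hA, hB, hfA, hfB, f, hf, hfe⟩ := main4 2 2 le_rfl h2 h3
  exact hcon 1 2 (by norm_num) (by norm_num) (Multiplicative ℤ_[2]) (A := A) (B := B) hA hB hfA hfB
    ⟨f, hf, hfe⟩

end AGM
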