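import Pool.Agent.AGM.Defs

/-!
# AGM-DM1: maps of spaces of dimension less than `m` to `ℝ^m` miss points after a small change

The change of `g` is a sum over a partition of unity subordinate to a cover of order at most `m`; its values lie in
finitely many proper affine subspaces of `ℝ^m`, of measure zero.
-/

set_option autoImplicit false

noncomputable section

namespace AGM

open AGE Set Topology

theorem covdim_homeo {X Y : Type} [TopologicalSpace X] [TopologicalSpace Y] (h : X ≃ₜ Y) (d : ℕ)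
    (hX : CovDimLE X d) : CovDimLE Y d := by
  intro I hI U hU hcov
  obtain ⟨J, hJ, W, hW, hWc, hWU, hWn⟩ := hX I hI (fun i => h ⁻¹' U i)
    (fun i => (hU i).preimage h.continuous) (by
      rw [← preimage_iUnion, hcov, preimage_univ])
  refine ⟨J, hJ, fun j => h.symm ⁻¹' W j, fun j => (hW j).preimage h.symm.continuous, ?_, ?_, ?_⟩
  · rw [← preimage_iUnion, hWc, preimage_univ]
  · intro j
    obtain ⟨i, hi⟩ := hWU j
    refine ⟨i, fun y hy => ?_⟩
    have h1 := hi hy
    rw [mem_preimage, h.apply_symm_apply] at h1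
    exact h1
  · intro y
    exact hWn (h.symm y)

private theorem DM1_span {m : ℕ} (hm : 1 ≤ m) {J : Type} (a : J → Fin m → ℝ) (s : Finset J)
    (hs : s.card ≤ m) : affineSpan ℝ (a '' (s : Set J)) ≠ ⊤ := by
  classical
  intro h
  rcases Nat.eq_zero_or_pos s.card with h0 | h0
  · rw [Finset.card_eq_zero] at h0
    subst h0
    rw [Finset.coe_empty, image_empty, AffineSubspace.span_empty] at h
    have h1 : (0 : Fin m → ℝ) ∈ (⊤ : AffineSubspace ℝ (Fin m → ℝ)) := AffineSubspace.mem_top ℝ _ _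
    rw [← h] at h1
    exact AffineSubspace.notMem_bot ℝ _ _ h1
  · obtain ⟨n, hn⟩ : ∃ n, s.card = n + 1 := ⟨s.card - 1, by omega⟩
    have h1 := finrank_vectorSpan_image_finset_le ℝ a s hn
    rw [Finset.coe_image] at h1
    have h2 : vectorSpan ℝ (a '' (s : Set J)) = ⊤ := by
      rw [← direction_affineSpan, h, AffineSubspace.direction_top]
    rw [h2, finrank_top, Module.finrank_fin_fun] at h1
    omega

private theorem DM1_pt {m : ℕ} (hm : 1 ≤ m) {J : Type} [Fintype J] (a : J → Fin m → ℝ)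
    (c : Fin m → ℝ) :
    ∃ c' : Fin m → ℝ, (∀ i, |c' i - c i| ≤ 1 / 2) ∧ ∀ s : Finset J, s.card ≤ m →
      c' ∉ affineSpan ℝ (a '' (s : Set J)) := by
  classical
  by_contra hcon
  push Not at hcon
  have hbox : IsOpen {x : Fin m → ℝ | ∀ i, |x i - c i| < 1 / 2} := by
    have h1 : {x : Fin m → ℝ | ∀ i, |x i - c i| < 1 / 2} = ⋂ i, {x | |x i - c i| < 1 / 2} := by
      ext x
      simp
    rw [h1]
    refine isOpen_iInter_of_finite fun i => ?_
    exact isOpen_lt (by fun_prop) continuous_const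
  have hsub : {x : Fin m → ℝ | ∀ i, |x i - c i| < 1 / 2} ⊆
      ⋃ s : {s : Finset J // s.card ≤ m}, (affineSpan ℝ (a '' ((s : Finset J) : Set J)) :
        Set (Fin m → ℝ)) := by
    intro x hx
    obtain ⟨s, hs, hxs⟩ := hcon x fun i => (hx i).le
    exact mem_iUnion.2 ⟨⟨s, hs⟩, hxs⟩
  have hzero : MeasureTheory.volume (⋃ s : {s : Finset J // s.card ≤ m},
      (affineSpan ℝ (a '' ((s : Finset J) : Set J)) : Set (Fin m → ℝ))) = 0 := by
    refine MeasureTheory.measure_iUnion_null fun s => ?_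
    exact MeasureTheory.Measure.addHaar_affineSubspace _ _ (DM1_span hm a s.1 s.2)
  have hpos : 0 < MeasureTheory.volume {x : Fin m → ℝ | ∀ i, |x i - c i| < 1 / 2} :=
    hbox.measure_pos _ ⟨c, fun i => by simp⟩
  exact absurd (MeasureTheory.measure_mono_null hsub hzero) hpos.ne'

theorem dim_miss {m : ℕ} (hm : 1 ≤ m) {Z : Type} [TopologicalSpace Z] [CompactSpace Z]
    [T2Space Z] (hZ : CovDimLE Z (m - 1)) (g : Z → Fin m → ℝ) (hg : Continuous g)
    (c : Fin m → ℝ) :
    ∃ (g' : Z → Fin m → ℝ) (c' : Fin m → ℝ), Continuous g' ∧ (∀ z i, |g' z i - g z i| ≤ 1 / 2) ∧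
      (∀ i, |c' i - c i| ≤ 1 / 2) ∧ ∀ z, g' z ≠ c' := by
  classical
  have hopen : ∀ z : Z, IsOpen {z' : Z | ∀ i, |g z' i - g z i| < 1 / 4} := by
    intro z
    have h1 : {z' : Z | ∀ i, |g z' i - g z i| < 1 / 4} = ⋂ i, {z' | |g z' i - g z i| < 1 / 4} := by
      ext x
      simp
    rw [h1]
    refine isOpen_iInter_of_finite fun i => ?_
    exact isOpen_lt (by fun_prop) continuous_const
  obtain ⟨t, ht⟩ := isCompact_univ.elim_finite_subcover
    (fun z : Z => {z' : Z | ∀ i, |g z' i - g z i| < 1 / 4}) hopen (by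
      intro z _
      exact mem_iUnion.2 ⟨z, fun i => by simp⟩)
  obtain ⟨J, hJ, W, hW, hWc, hWU, hWn⟩ := hZ {z // z ∈ t} inferInstance
    (fun z => {z' : Z | ∀ i, |g z' i - g z.1 i| < 1 / 4}) (fun z => hopen z.1) (by
      rw [eq_univ_iff_forall]
      intro z
      obtain ⟨z₀, hz₀⟩ := mem_iUnion.1 (ht (mem_univ z))
      obtain ⟨hz₁, hz₂⟩ := mem_iUnion.1 hz₀
      exact mem_iUnion.2 ⟨⟨z₀, hz₁⟩, hz₂⟩)
  haveI := Fintype.ofFinite J
  obtain ⟨f, hf⟩ := PartitionOfUnity.exists_isSubordinate (isClosed_univ (X := Z)) W hW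
    (by rw [hWc])
  set a : J → Fin m → ℝ := fun j => if h : (W j).Nonempty then g h.some else 0 with ha
  have hsum : ∀ z, ∑ j, f j z = 1 := by
    intro z
    have h1 := f.sum_eq_one (mem_univ z)
    rwa [finsum_eq_sum_of_fintype] at h1
  have hmemW : ∀ z j, f j z ≠ 0 → z ∈ W j := by
    intro z j h
    exact hf j (subset_tsupport _ h)
  have hclose : ∀ z j, f j z ≠ 0 → ∀ i, |a j i - g z i| ≤ 1 / 2 := by
    intro z j h i
    have h1 := hmemW z j h
    have hne : (W j).Nonempty := ⟨z, h1⟩
    obtain ⟨z₀, hz₀⟩ := hWU j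
    have h2 := hz₀ h1 i
    have h3 := hz₀ hne.some_mem i
    have h4 : a j = g hne.some := dif_pos hne
    rw [h4]
    rw [abs_lt] at h2 h3
    rw [abs_le]
    constructor <;> linarith
  obtain ⟨c', hc', hmiss⟩ := DM1_pt hm a c
  refine ⟨fun z => ∑ j, f j z • a j, c', ?_, ?_, hc', ?_⟩
  · refine continuous_finsetSum _ fun j _ => ?_
    exact (f j).continuous.smul continuous_const
  · intro z i
    have h1 : (∑ j, f j z • a j) i - g z i = ∑ j, f j z * (a j i - g z i) := by
      rw [Finset.sum_apply]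
      simp only [Pi.smul_apply, smul_eq_mul, mul_sub, Finset.sum_sub_distrib]
      rw [← Finset.sum_mul, hsum z, one_mul]
    show |(∑ j, f j z • a j) i - g z i| ≤ 1 / 2
    rw [h1]
    calc |∑ j, f j z * (a j i - g z i)| ≤ ∑ j, |f j z * (a j i - g z i)| :=
          Finset.abs_sum_le_sum_abs _ _
      _ ≤ ∑ j, f j z * (1 / 2) := by
          refine Finset.sum_le_sum fun j _ => ?_
          rw [abs_mul, abs_of_nonneg (f.nonneg j z)]
          by_cases h : f j z = 0
          · rw [h, zero_mul, zero_mul]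
          · exact mul_le_mul_of_nonneg_left (hclose z j h i) (f.nonneg j z)
      _ = 1 / 2 := by rw [← Finset.sum_mul, hsum z, one_mul]
  · intro z hz
    set s : Finset J := Finset.univ.filter (fun j => z ∈ W j) with hs
    have hcard : s.card ≤ m := by
      have h1 := hWn z
      have h2 : {j | z ∈ W j} = (s : Set J) := by
        ext j
        simp [hs]
      rw [h2, Set.ncard_coe_finset] at h1
      omega
    apply hmiss s hcard
    rw [← hz]
    have h1 := affineCombination_mem_affineSpan_image (k := ℝ) (s := (Finset.univ : Finset J))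
      (w := fun j => f j z) (hsum z) (s' := (s : Set J)) (fun j _ hj => by
        by_contra h
        exact hj (by simp [hs, hmemW z j h])) a
    rwa [Finset.affineCombination_eq_linear_combination _ _ _ (hsum z)] at h1

end AGM
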