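import Pool.Agent.AGM.Defs
import Pool.Agent.Helper72.HC.PM

/-!
# AGM-DM2: Poincaré and Miranda on the unit cube

`cube_hit`: apply `miranda_fin` (Pool.Agent.Helper72.HC.PM, Hilbert cube; look up its namespace) to
`g j x = H (fun i => (x i : ℝ)) ⟨j, _⟩ - c ⟨j, _⟩` for `j < m` and `g j x = x j - 1/2` for `j ≥ m`. If `x j = 0` then
`H .. j ≤ 3 < 7/2 ≤ c j`, if `x j = 1` then `H .. j ≥ 5 > 9/2 ≥ c j`.
-/

set_option autoImplicit false

noncomputable section

namespace AGM

open AGE Set Topology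

theorem cube_hit {m : ℕ} (H : (Fin m → ℝ) → Fin m → ℝ)
    (hH : ContinuousOn H {x | ∀ i, 0 ≤ x i ∧ x i ≤ 1})
    (h : ∀ x : Fin m → ℝ, (∀ i, 0 ≤ x i ∧ x i ≤ 1) → ∀ i, |H x i - 8 * x i| ≤ 3)
    (c : Fin m → ℝ) (hc : ∀ i, |c i - 4| ≤ 1 / 2) :
    ∃ x : Fin m → ℝ, (∀ i, 0 ≤ x i ∧ x i ≤ 1) ∧ H x = c := by
  classical
  let e : (ℕ → unitInterval) → (Fin m → ℝ) := fun x i => (x (i : ℕ) : ℝ)
  have he : Continuous e := by
    refine continuous_pi fun i => ?_
    exact continuous_subtype_val.comp (continuous_apply _)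
  have hem : ∀ x, e x ∈ {x : Fin m → ℝ | ∀ i, 0 ≤ x i ∧ x i ≤ 1} :=
    fun x i => ⟨(x (i : ℕ)).2.1, (x (i : ℕ)).2.2⟩
  have hHe : Continuous (fun x => H (e x)) := hH.comp_continuous he hem
  have key : ∃ x : ℕ → unitInterval, ∀ j < m,
      (if h : j < m then H (e x) ⟨j, h⟩ - c ⟨j, h⟩ else (x j : ℝ) - 1 / 2) = 0 := by
    refine Pool.Agent.Helper72.HC.miranda_fin
      (fun j x => if h : j < m then H (e x) ⟨j, h⟩ - c ⟨j, h⟩ else (x j : ℝ) - 1 / 2) ?_ ?_ ?_ m
    · intro j
      by_cases hj : j < m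
      · simp only [hj, dite_true]
        exact ((continuous_apply _).comp hHe).sub continuous_const
      · simp only [hj, dite_false]
        exact (continuous_subtype_val.comp (continuous_apply _)).sub continuous_const
    · intro j x hx
      by_cases hj : j < m
      · simp only [hj, dite_true]
        have h1 := h (e x) (hem x) ⟨j, hj⟩
        have h2 : e x ⟨j, hj⟩ = 0 := hx
        have h3 := hc ⟨j, hj⟩
        rw [h2] at h1
        rw [abs_le] at h1 h3
        linarith [h1.2, h3.1]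
      · simp only [hj, dite_false]
        rw [hx]; norm_num
    · intro j x hx
      by_cases hj : j < m
      · simp only [hj, dite_true]
        have h1 := h (e x) (hem x) ⟨j, hj⟩
        have h2 : e x ⟨j, hj⟩ = 1 := hx
        have h3 := hc ⟨j, hj⟩
        rw [h2] at h1
        rw [abs_le] at h1 h3
        linarith [h1.1, h3.2]
      · simp only [hj, dite_false]
        rw [hx]; norm_num
  obtain ⟨x, hx⟩ := key
  refine ⟨e x, hem x, ?_⟩
  funext i
  have h1 := hx i i.2
  simp only [i.2, dite_true] at h1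
  have h2 : H (e x) i - c i = 0 := h1
  linarith

end AGM
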