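import Pool.Agent.AGM.TW1

/-!
# AGM-TW2: extension of maps to the limit of a tower; compactness
-/

set_option autoImplicit false

noncomputable section

namespace AGM

open AGE Set Topology Filter

/-- threads through a given element of level `k`: below `k` by projection, above `k` by a step -/
private theorem TW2_seq {J : ℕ → Type} [∀ k, LinearOrder (J k)] {T : ∀ k, Set (Cube (J k))}
    {e : ∀ k, J k → J (k + 1)}
    (hp : ∀ k, ∀ Q' ∈ T (k + 1), ∃ Q ∈ T k, ∀ j,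
      8 * Q.lo j ≤ Q'.lo (e k j) ∧ Q'.hi (e k j) ≤ 8 * Q.hi j) {E : Type} [TopologicalSpace E]
    (S S' : Set E) (hS : S' ⊆ S) (φ : E → ∀ l, J l → ℝ) (hφ : MapsTo φ S' (Yx J T e)) (c : ℝ)
    (hc : 0 ≤ c) (k : ℕ) (P : ∀ l, (E → J l → ℝ) → Prop)
    (hP : ∀ l G, P l G ↔ ContinuousOn G S ∧ MapsTo G S (Body (T l)) ∧ ∀ a ∈ S', G a = φ a l)
    (hstep : ∀ l, k ≤ l → ∀ G, P l G → ∃ G', P (l + 1) G' ∧
      ∀ x ∈ S, ∀ j, |G' x (e l j) / 8 - G x j| ≤ c) (u : E → J k → ℝ) (hu : P k u) :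
    ∃ G : ∀ l, E → J l → ℝ, (∀ l, P l (G l)) ∧ G k = u ∧
      ∀ l, ∀ x ∈ S, ∀ j, |G (l + 1) x (e l j) / 8 - G l x j| ≤ c := by
  classical
  have hst : ∀ l, ∀ G : E → J l → ℝ, ∃ G' : E → J (l + 1) → ℝ, k ≤ l → P l G → P (l + 1) G' ∧
      ∀ x ∈ S, ∀ j, |G' x (e l j) / 8 - G x j| ≤ c := by
    intro l G
    by_cases h : k ≤ l ∧ P l G
    · obtain ⟨G', h1⟩ := hstep l h.1 G h.2
      exact ⟨G', fun _ _ => h1⟩
    · exact ⟨fun _ _ => 0, fun h1 h2 => absurd ⟨h1, h2⟩ h⟩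
  choose up hup using hst
  let G : ∀ l, E → J l → ℝ := fun l =>
    if h : k ≤ l then Nat.leRecOn (C := fun l => E → J l → ℝ) h (fun {n} => up n) u
    else fun x j => u x (em e (le_of_not_ge h) j) / 8 ^ (k - l)
  have hG1 : ∀ l (h : k ≤ l), G l =
      Nat.leRecOn (C := fun l => E → J l → ℝ) h (fun {n} => up n) u := fun l h => dif_pos h
  have hG2 : ∀ l (h : ¬ k ≤ l), G l =
      fun x j => u x (em e (le_of_not_ge h) j) / 8 ^ (k - l) := fun l h => dif_neg h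
  have hGk : G k = u := by
    rw [hG1 k le_rfl]
    exact Nat.leRecOn_self (C := fun l => E → J l → ℝ) (next := fun {n} => up n) u
  have hGs : ∀ l, k ≤ l → G (l + 1) = up l (G l) := by
    intro l h
    rw [hG1 l h, hG1 (l + 1) (Nat.le_succ_of_le h)]
    exact Nat.leRecOn_succ (C := fun l => E → J l → ℝ) (next := fun {n} => up n) h u
  have hPup : ∀ l, k ≤ l → P l (G l) := by
    intro l h
    induction l, h using Nat.le_induction with
    | base =>
      rw [hGk]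
      exact hu
    | succ l h ih =>
      rw [hGs l h]
      exact (hup l (G l) h ih).1
  -- the values below level `k`
  have hlow : ∀ l (h : l ≤ k), G l = fun x j => u x (em e h j) / 8 ^ (k - l) := by
    intro l h
    by_cases hkl : k ≤ l
    · obtain rfl : l = k := le_antisymm h hkl
      rw [hGk]
      funext x j
      rw [em_self, Nat.sub_self, pow_zero, div_one]
    · exact hG2 l hkl
  have hYem : ∀ y ∈ Yx J T e, ∀ l (h : l ≤ k) (j : J l), y k (em e h j) / 8 ^ (k - l) = y l j := by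
    intro y hy l h j
    have key : ∀ k', ∀ h : l ≤ k', y k' (em e h j) = 8 ^ (k' - l) * y l j := by
      intro k' h
      induction k', h using Nat.le_induction with
      | base => rw [em_self, Nat.sub_self, pow_zero, one_mul]
      | succ k' h ih =>
        rw [em_succ e h, (hy k').2, ih, Nat.sub_add_comm h, pow_succ]
        ring
    rw [key k h, mul_div_cancel_left₀ _ (by positivity)]
  have hPlow : ∀ l, l ≤ k → P l (G l) := by
    intro l h
    rw [hP, hlow l h]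
    obtain ⟨h1, h2, h3⟩ := (hP k u).1 hu
    refine ⟨?_, fun x hx => prj_em hp h (h2 hx), fun a ha => ?_⟩
    · exact continuousOn_pi.2 fun j => ((continuousOn_pi.1 h1) _).div_const _
    · funext j
      show u a (em e h j) / 8 ^ (k - l) = φ a l j
      rw [h3 a ha, hYem _ (hφ ha) l h j]
  refine ⟨G, fun l => ?_, hGk, fun l x hx j => ?_⟩
  · rcases le_total k l with h | h
    · exact hPup l h
    · exact hPlow l h
  · by_cases h : k ≤ l
    · rw [hGs l h]
      exact (hup l (G l) h (hPup l h)).2 x hx j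
    · have h1 : l + 1 ≤ k := by omega
      rw [hlow (l + 1) h1, hlow l (by omega)]
      show |u x (em e h1 (e l j)) / 8 ^ (k - (l + 1)) / 8 - u x (em e _ j) / 8 ^ (k - l)| ≤ c
      rw [em_left e h1 (by omega), div_div, ← pow_succ, show k - (l + 1) + 1 = k - l by omega,
        sub_self, abs_zero]
      exact hc

/-- extension from the sphere -/
theorem ext_lft {m : ℕ} {J : ℕ → Type} [∀ k, LinearOrder (J k)] {T : ∀ k, Set (Cube (J k))}
    {e : ∀ k, J k → J (k + 1)} (h : Tow m J T e) {i : ℕ} (hi : i ≤ m) (k : ℕ)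
    (φ : Ei i → ∀ l, J l → ℝ) (hφ : ContinuousOn φ (Sp i)) (hφY : MapsTo φ (Sp i) (Yx J T e))
    (u : Ei i → J k → ℝ) (hu : ContinuousOn u (Bl i)) (hub : MapsTo u (Bl i) (Body (T k)))
    (huφ : ∀ a ∈ Sp i, u a = φ a k) :
    ∃ Φ : Ei i → ∀ l, J l → ℝ, ContinuousOn Φ (Bl i) ∧ MapsTo Φ (Bl i) (Yx J T e) ∧
      EqOn Φ φ (Sp i) ∧ ∀ x ∈ Bl i, ∀ j, |Φ x k j - u x j| ≤ 16 / 7 := by
  have hSB : Sp i ⊆ Bl i := Metric.sphere_subset_closedBall
  obtain ⟨G, h1, h2, h3⟩ := TW2_seq h.prj (Bl i) (Sp i) hSB φ hφY 2 (by norm_num) k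
    (fun l G => ContinuousOn G (Bl i) ∧ MapsTo G (Bl i) (Body (T l)) ∧ ∀ a ∈ Sp i, G a = φ a l)
    (fun l G => Iff.rfl)
    (by
      rintro l - G ⟨g1, g2, g3⟩
      obtain ⟨V, v1, v2, v3, v4⟩ := h.lft l i hi G (fun a => φ a (l + 1)) g1 g2
        ((continuousOn_pi.1 hφ) (l + 1)) (fun a ha => ((hφY ha) (l + 1)).1)
        (fun a ha j => by
          rw [g3 a ha]
          exact ((hφY ha) l).2 j)
      exact ⟨V, ⟨v1, v2, fun a ha => v3 ha⟩, v4⟩)
    u ⟨hu, hub, huφ⟩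
  obtain ⟨H, e1, e2, e3, e4⟩ := apr h.fin h.prj (Bl i) G (fun l => (h1 l).1) (fun l => (h1 l).2.1) 2 h3
  refine ⟨H, e1, e2, fun a ha => ?_, fun x hx j => ?_⟩
  · funext l
    have h5 : ∀ l, G l a = φ a l := fun l => (h1 l).2.2 a ha
    rw [e4 a (hSB ha) (fun l j => by
      rw [h5, h5]
      exact ((hφY ha) l).2 j) l, h5]
  · have h5 := e3 x hx k j
    rw [h2] at h5
    norm_num at h5 ⊢
    exact h5

/-- extension without a condition on the sphere -/
theorem ext_dsj {m : ℕ} {J : ℕ → Type} [∀ k, LinearOrder (J k)] {T : ∀ k, Set (Cube (J k))}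
    {e : ∀ k, J k → J (k + 1)} (h : Tow m J T e) (k : ℕ)
    (u : Ei m → J k → ℝ) (hu : ContinuousOn u (Bl m)) (hub : MapsTo u (Bl m) (Body (T k))) :
    ∃ Φ : Ei m → ∀ l, J l → ℝ, ContinuousOn Φ (Bl m) ∧ MapsTo Φ (Bl m) (Yx J T e) ∧
      ∀ x ∈ Bl m, ∀ j, |Φ x k j - u x j| ≤ 16 / 7 := by
  obtain ⟨G, h1, h2, h3⟩ := TW2_seq h.prj (Bl m) ∅ (empty_subset _) (fun _ _ _ => 0)
    (fun a ha => absurd ha (notMem_empty a)) 2 (by norm_num) k
    (fun l G => ContinuousOn G (Bl m) ∧ MapsTo G (Bl m) (Body (T l)) ∧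
      ∀ a ∈ (∅ : Set (Ei m)), G a = (fun (_ : Ei m) l (_ : J l) => (0 : ℝ)) a l)
    (fun l G => Iff.rfl)
    (by
      rintro l - G ⟨g1, g2, -⟩
      obtain ⟨V, V', v1, v2, _, _, v3, _⟩ := h.dsj l G G g1 g2 g1 g2
      exact ⟨V, ⟨v1, v2, fun a ha => absurd ha (notMem_empty a)⟩, fun x hx j => (v3 x hx j).1⟩)
    u ⟨hu, hub, fun a ha => absurd ha (notMem_empty a)⟩
  obtain ⟨H, e1, e2, e3, -⟩ := apr h.fin h.prj (Bl m) G (fun l => (h1 l).1) (fun l => (h1 l).2.1) 2 h3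
  refine ⟨H, e1, e2, fun x hx j => ?_⟩
  have h5 := e3 x hx k j
  rw [h2] at h5
  norm_num at h5 ⊢
  exact h5

/-- maps to the limit as a type -/
theorem to_Yx {J : ℕ → Type} [∀ k, LinearOrder (J k)] {T : ∀ k, Set (Cube (J k))}
    {e : ∀ k, J k → J (k + 1)} {E : Type} [TopologicalSpace E] {S : Set E} (hS : S.Nonempty)
    {Φ : E → ∀ l, J l → ℝ} (h1 : ContinuousOn Φ S) (h2 : MapsTo Φ S (Yx J T e)) :
    ∃ Ψ : E → Yx J T e, ContinuousOn Ψ S ∧ ∀ x ∈ S, (Ψ x).1 = Φ x := by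
  classical
  obtain ⟨x₀, hx₀⟩ := hS
  have h2' : ∀ x ∈ S, Φ x ∈ Yx J T e := fun x hx => h2 hx
  let Ψ : E → Yx J T e := fun x => if hx : x ∈ S then ⟨Φ x, h2' x hx⟩ else ⟨Φ x₀, h2' x₀ hx₀⟩
  have hΨ : ∀ x (hx : x ∈ S), Ψ x = ⟨Φ x, h2' x hx⟩ := fun x hx => dif_pos hx
  refine ⟨Ψ, ?_, fun x hx => by rw [hΨ x hx]⟩
  rw [Topology.IsInducing.subtypeVal.continuousOn_iff]
  refine h1.congr fun x hx => ?_
  show (Ψ x).1 = Φ x
  rw [hΨ x hx]

theorem yx_nonempty {m : ℕ} {J : ℕ → Type} [∀ k, LinearOrder (J k)] {T : ∀ k, Set (Cube (J k))}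
    {e : ∀ k, J k → J (k + 1)} (h : Tow m J T e) : (Yx J T e).Nonempty := by
  obtain ⟨x, hx⟩ := h.pt0
  obtain ⟨Φ, -, h2, -⟩ := ext_dsj h 0 (fun _ => x) continuousOn_const
    (fun _ _ => by
      rw [hx]
      exact rfl)
  exact ⟨Φ 0, h2 (Metric.mem_closedBall_self (by norm_num))⟩

theorem isClosed_Yx {m : ℕ} {J : ℕ → Type} [∀ k, LinearOrder (J k)] {T : ∀ k, Set (Cube (J k))}
    {e : ∀ k, J k → J (k + 1)} (h : Tow m J T e) : IsClosed (Yx J T e) := by
  have h1 : Yx J T e = ⋂ k, ({y : ∀ k, J k → ℝ | y k ∈ Body (T k)} ∩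
      ⋂ j, {y : ∀ k, J k → ℝ | y (k + 1) (e k j) = 8 * y k j}) := by
    ext y
    simp [Yx]
  rw [h1]
  refine isClosed_iInter fun k => ((isClosed_Body (h.fin k)).preimage (continuous_apply k)).inter
    (isClosed_iInter fun j => isClosed_eq ?_ ?_)
  · exact (continuous_apply (e k j)).comp (continuous_apply (k + 1))
  · exact continuous_const.mul ((continuous_apply j).comp (continuous_apply k))

theorem isCompact_Yx {m : ℕ} {J : ℕ → Type} [∀ k, LinearOrder (J k)] {T : ∀ k, Set (Cube (J k))}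
    {e : ∀ k, J k → J (k + 1)} (h : Tow m J T e) : IsCompact (Yx J T e) := by
  have h1 : IsCompact (Set.pi univ fun k => Body (T k)) :=
    isCompact_univ_pi fun k => isCompact_Body (h.fin k)
  exact h1.of_isClosed_subset (isClosed_Yx h) fun y hy k _ => (hy k).1

theorem metrizable_Yx {m : ℕ} {J : ℕ → Type} [∀ k, LinearOrder (J k)]
    {T : ∀ k, Set (Cube (J k))} {e : ∀ k, J k → J (k + 1)} (h : Tow m J T e) :
    TopologicalSpace.MetrizableSpace (Yx J T e) := by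
  haveI : ∀ k, Countable (J k) := h.cnt
  haveI : TopologicalSpace.MetrizableSpace (∀ k, J k → ℝ) := UniformSpace.metrizableSpace
  infer_instance

/-- entourages of the limit -/
theorem yx_ent {m : ℕ} {J : ℕ → Type} [∀ k, LinearOrder (J k)] {T : ∀ k, Set (Cube (J k))}
    {e : ∀ k, J k → J (k + 1)} (h : Tow m J T e) (W : Set (Yx J T e × Yx J T e))
    (hW : IsOpen W) (hd : ∀ y, (y, y) ∈ W) :
    ∃ k, ∀ y y' : Yx J T e, (∀ j, |y.1 k j - y'.1 k j| ≤ 3) → (y, y') ∈ W := by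
  haveI : CompactSpace (Yx J T e) := isCompact_iff_compactSpace.1 (isCompact_Yx h)
  by_contra hcon
  push Not at hcon
  let C : ℕ → Set (Yx J T e × Yx J T e) := fun k =>
    Wᶜ ∩ ⋂ j, {z | |z.1.1 k j - z.2.1 k j| ≤ 3}
  have hcont : ∀ k (j : J k), Continuous fun y : Yx J T e => y.1 k j := fun k j =>
    (continuous_apply j).comp ((continuous_apply k).comp continuous_subtype_val)
  have hCcl : ∀ k, IsClosed (C k) := fun k =>
    hW.isClosed_compl.inter (isClosed_iInter fun j => isClosed_le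
      (((hcont k j).comp continuous_fst).sub ((hcont k j).comp continuous_snd)).abs continuous_const)
  have hstep : ∀ k (j : J k) (y y' : Yx J T e),
      |y.1 (k + 1) (e k j) - y'.1 (k + 1) (e k j)| = 8 * |y.1 k j - y'.1 k j| := by
    intro k j y y'
    rw [(y.2 k).2 j, (y'.2 k).2 j, ← mul_sub, abs_mul, abs_of_pos (by norm_num : (0 : ℝ) < 8)]
  have hCanti : ∀ k, C (k + 1) ⊆ C k := by
    intro k z hz
    refine ⟨hz.1, mem_iInter.2 fun j => ?_⟩
    have h1 := (mem_iInter.1 hz.2) (e k j)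
    have h1' : |z.1.1 (k + 1) (e k j) - z.2.1 (k + 1) (e k j)| ≤ 3 := h1
    rw [hstep] at h1'
    show |z.1.1 k j - z.2.1 k j| ≤ 3
    linarith [abs_nonneg (z.1.1 k j - z.2.1 k j)]
  obtain ⟨z, hz⟩ := IsCompact.nonempty_iInter_of_sequence_nonempty_isCompact_isClosed C hCanti
    (fun k => by
      obtain ⟨y, y', h1, h2⟩ := hcon k
      exact ⟨(y, y'), h2, mem_iInter.2 h1⟩) (hCcl 0).isCompact hCcl
  have hz' := mem_iInter.1 hz
  have h1 : z.1 = z.2 := by
    refine Subtype.ext (funext fun l => funext fun j => ?_)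
    have h2 : ∀ n, ∃ j' : J (l + n), 8 ^ n * |z.1.1 l j - z.2.1 l j| =
        |z.1.1 (l + n) j' - z.2.1 (l + n) j'| := by
      intro n
      induction n with
      | zero => exact ⟨j, by simp⟩
      | succ n ih =>
        obtain ⟨j', h3⟩ := ih
        refine ⟨e (l + n) j', ?_⟩
        rw [pow_succ, mul_comm (8 ^ n) (8 : ℝ), mul_assoc, h3]
        exact (hstep (l + n) j' z.1 z.2).symm
    by_contra hne
    have hpos : 0 < |z.1.1 l j - z.2.1 l j| := abs_pos.2 (sub_ne_zero.2 hne)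
    obtain ⟨n, hn⟩ := pow_unbounded_of_one_lt (3 / |z.1.1 l j - z.2.1 l j|)
      (by norm_num : (1 : ℝ) < 8)
    obtain ⟨j', hj'⟩ := h2 n
    have h4 : |z.1.1 (l + n) j' - z.2.1 (l + n) j'| ≤ 3 := (mem_iInter.1 (hz' (l + n)).2) j'
    rw [div_lt_iff₀ hpos] at hn
    linarith
  have h2 := (hz' 0).1
  have h3 : z = (z.1, z.1) := Prod.ext rfl h1.symm
  apply h2
  rw [h3]
  exact hd z.1

end AGM
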