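import Pool.Agent.AGM.BIG
import Pool.Agent.AGM.TW2
import Pool.Agent.AGM.DM1
import Pool.Agent.AGM.DM2

/-!
# AGM-DIM: the limit of a big tower of dimension `m` has dimension at least `m` (owner helper53)

`cube_lift`: `u : Bl m → Body (T (k + 1))`, `u x (σ i) = 8 P.lo (σ i) + 8 clamp ((m x_i + 1) / 2)`, `u x j = 8 P.lo j` for
`j ∉ P.fr`: the body of `8 P` is covered by its unit cubes (`hPT`). Lift to `Yx` with error `≤ 16/7` (`ext_dsj`), compose with the map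
`x ↦ ((2 x_i - 1) / m)_i` from the unit cube to `Bl m`.

`tow_big`: if `CovDimLE (Yx J T e) (m - 1)` then `dim_miss` for `g y = (y (k + 1) (σ i) - 8 P.lo (σ i))_i`, `c = 4`, and `cube_hit` for
`H = g' ∘ Φ` (`16/7 + 1/2 ≤ 3`) contradict each other.
-/

set_option autoImplicit false

noncomputable section

namespace AGM

open AGE Set Topology

/-- the point of `8 P` with coordinates `t` -/
private def DIM_w {m : ℕ} {J : Type} [LinearOrder J] (P : Cube J)
    (σ : Fin m ≃ {j // j ∈ P.fr}) (t : Fin m → ℝ) (j : J) : ℝ :=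
  8 * (P.lo j : ℝ) + 8 * (if h : j ∈ P.fr then max 0 (min (t (σ.symm ⟨j, h⟩)) 1) else 0)

private theorem DIM_w_mem {m : ℕ} {J : Type} [LinearOrder J] (T : Set (Cube J)) (P : Cube J)
    (σ : Fin m ≃ {j // j ∈ P.fr}) (hPT : ∀ Q : Cube J, Q.InM 8 P → Q ∈ T) (t : Fin m → ℝ) :
    DIM_w P σ t ∈ Body T := by
  have hb : ∀ j, 8 * (P.lo j : ℝ) ≤ DIM_w P σ t j ∧
      DIM_w P σ t j ≤ 8 * (P.lo j : ℝ) + 8 ∧ (j ∉ P.fr → DIM_w P σ t j = 8 * (P.lo j : ℝ)) := by
    intro j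
    unfold DIM_w
    split_ifs with h
    · have h1 : (0 : ℝ) ≤ max 0 (min (t (σ.symm ⟨j, h⟩)) 1) := le_max_left _ _
      have h2 : max 0 (min (t (σ.symm ⟨j, h⟩)) 1) ≤ (1 : ℝ) :=
        max_le (by norm_num) (min_le_right _ _)
      exact ⟨by linarith, by linarith, fun h' => absurd h h'⟩
    · exact ⟨by linarith, by linarith, fun _ => by ring⟩
  refine ⟨⟨fun j => if j ∈ P.fr then min (8 * P.lo j + 7) ⌊DIM_w P σ t j⌋ else 8 * P.lo j, P.fr⟩,
    hPT _ fun j => ?_, fun j => ?_⟩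
  · obtain ⟨h1, h2, h3⟩ := hb j
    by_cases h : j ∈ P.fr
    · have h4 : 8 * P.lo j ≤ ⌊DIM_w P σ t j⌋ := Int.le_floor.2 (by push_cast; exact h1)
      simp only [Cube.hi, if_pos h]
      push_cast
      constructor
      · exact le_min (by linarith) h4
      · have h5 := min_le_left (8 * P.lo j + 7) ⌊DIM_w P σ t j⌋
        linarith
    · simp only [Cube.hi, if_neg h]
      push_cast
      exact ⟨le_rfl, le_rfl⟩
  · obtain ⟨h1, h2, h3⟩ := hb j
    by_cases h : j ∈ P.fr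
    · simp only [Cube.hi, if_pos h]
      rcases le_total ⌊DIM_w P σ t j⌋ (8 * P.lo j + 7) with h4 | h4
      · rw [min_eq_right h4]
        push_cast
        exact ⟨Int.floor_le _, (Int.lt_floor_add_one _).le⟩
      · rw [min_eq_left h4]
        have h5 : ((8 * P.lo j + 7 : ℤ) : ℝ) ≤ DIM_w P σ t j :=
          le_trans (by exact_mod_cast h4) (Int.floor_le _)
        push_cast at h5 ⊢
        exact ⟨h5, by linarith⟩
    · simp only [Cube.hi, if_neg h]
      push_cast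
      rw [h3 h]
      exact ⟨le_rfl, le_rfl⟩

private theorem DIM_w_cont {m : ℕ} {J : Type} [LinearOrder J] (P : Cube J)
    (σ : Fin m ≃ {j // j ∈ P.fr}) : Continuous (DIM_w P σ) := by
  refine continuous_pi fun j => ?_
  unfold DIM_w
  by_cases h : j ∈ P.fr
  · simp only [dif_pos h]
    fun_prop
  · simp only [dif_neg h]
    fun_prop

private theorem DIM_w_apply {m : ℕ} {J : Type} [LinearOrder J] (P : Cube J)
    (σ : Fin m ≃ {j // j ∈ P.fr}) (t : Fin m → ℝ) (i : Fin m) (h : 0 ≤ t i ∧ t i ≤ 1) :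
    DIM_w P σ t (σ i).1 = 8 * (P.lo (σ i).1 : ℝ) + 8 * t i := by
  unfold DIM_w
  rw [dif_pos (σ i).2]
  have h1 : σ.symm ⟨(σ i).1, (σ i).2⟩ = i := by
    rw [Subtype.coe_eta, Equiv.symm_apply_apply]
  rw [h1, min_eq_left h.2, max_eq_right h.1]

/-- the map from the unit cube to the ball -/
private def DIM_s (m : ℕ) (x : Fin m → ℝ) : Ei m :=
  WithLp.toLp 2 fun i => (2 * x i - 1) / m

private theorem DIM_s_mem {m : ℕ} (x : Fin m → ℝ) (hx : ∀ i, 0 ≤ x i ∧ x i ≤ 1) :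
    DIM_s m x ∈ Bl m := by
  rw [Bl, Metric.mem_closedBall, dist_zero_right, EuclideanSpace.norm_eq]
  refine Real.sqrt_le_one.2 ?_
  calc ∑ i, ‖(DIM_s m x).ofLp i‖ ^ 2 ≤ ∑ i : Fin m, (1 / (m : ℝ)) ^ 2 := by
        refine Finset.sum_le_sum fun i _ => ?_
        have h1 : (DIM_s m x).ofLp i = (2 * x i - 1) / m := rfl
        rw [h1, norm_div, Real.norm_natCast]
        have h2 : ‖2 * x i - 1‖ ≤ 1 := by
          rw [Real.norm_eq_abs, abs_le]
          obtain ⟨h3, h4⟩ := hx i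
          constructor <;> linarith
        gcongr
    _ ≤ 1 := by
        rw [Finset.sum_const, Finset.card_univ, Fintype.card_fin, nsmul_eq_mul]
        rcases Nat.eq_zero_or_pos m with h | h
        · subst h
          norm_num
        · have h1 : (1 : ℝ) ≤ m := by exact_mod_cast h
          have h2 : (0 : ℝ) < m := by linarith
          field_simp
          exact h1

theorem cube_lift {m : ℕ} {J : ℕ → Type} [∀ k, LinearOrder (J k)] {T : ∀ k, Set (Cube (J k))}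
    {e : ∀ k, J k → J (k + 1)} (h : Tow m J T e) (k : ℕ) (P : Cube (J (k + 1)))
    (hPT : ∀ Q : Cube (J (k + 1)), Q.InM 8 P → Q ∈ T (k + 1)) (σ : Fin m ≃ {j // j ∈ P.fr}) :
    ∃ Φ : (Fin m → ℝ) → Yx J T e, ContinuousOn Φ {x | ∀ i, 0 ≤ x i ∧ x i ≤ 1} ∧
      ∀ x : Fin m → ℝ, (∀ i, 0 ≤ x i ∧ x i ≤ 1) →
        ∀ i, |(Φ x).1 (k + 1) (σ i).1 - (8 * (P.lo (σ i).1 : ℝ) + 8 * x i)| ≤ 16 / 7 := by
  obtain ⟨Φ, h1, h2, h3⟩ := ext_dsj h (k + 1)
    (fun x => DIM_w P σ fun i => ((m : ℝ) * x i + 1) / 2)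
    ((DIM_w_cont P σ).comp (by fun_prop)).continuousOn
    (fun x _ => DIM_w_mem (T (k + 1)) P σ hPT _)
  obtain ⟨Ψ, h4, h5⟩ := to_Yx (S := Bl m) ⟨0, Metric.mem_closedBall_self (by norm_num)⟩ h1 h2
  have hs : MapsTo (DIM_s m) {x | ∀ i, 0 ≤ x i ∧ x i ≤ 1} (Bl m) := fun x hx => DIM_s_mem x hx
  refine ⟨fun x => Ψ (DIM_s m x), h4.comp ?_ hs, fun x hx i => ?_⟩
  · refine Continuous.continuousOn ?_
    unfold DIM_s
    refine (PiLp.continuous_toLp 2 _).comp ?_
    fun_prop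
  · have h6 := h3 (DIM_s m x) (hs hx) (σ i).1
    have h7 : DIM_w P σ (fun i => ((m : ℝ) * (DIM_s m x) i + 1) / 2) (σ i).1 =
        8 * (P.lo (σ i).1 : ℝ) + 8 * x i := by
      have hm : (0 : ℝ) < m := by
        have := i.pos
        exact_mod_cast this
      have h8 : ((m : ℝ) * (DIM_s m x) i + 1) / 2 = x i := by
        have h9 : (DIM_s m x) i = (2 * x i - 1) / m := rfl
        rw [h9]
        field_simp
        ring
      rw [DIM_w_apply P σ _ i (by
        show 0 ≤ ((m : ℝ) * (DIM_s m x) i + 1) / 2 ∧ ((m : ℝ) * (DIM_s m x) i + 1) / 2 ≤ 1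
        rw [h8]
        exact hx i)]
      show _ + 8 * (((m : ℝ) * (DIM_s m x) i + 1) / 2) = _
      rw [h8]
    show |(Ψ (DIM_s m x)).1 (k + 1) (σ i).1 - _| ≤ _
    rw [h5 _ (hs hx), ← h7]
    exact h6

theorem tow_big {m : ℕ} (hm : 1 ≤ m) {J : ℕ → Type} [∀ k, LinearOrder (J k)]
    {T : ∀ k, Set (Cube (J k))} {e : ∀ k, J k → J (k + 1)} (h : Tow m J T e) (hb : Big m J T) :
    ¬ CovDimLE (Yx J T e) (m - 1) := by
  intro hcov
  obtain ⟨k, P, hdim, hPT⟩ := hb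
  have σ : Fin m ≃ {j // j ∈ P.fr} := (Finset.equivFinOfCardEq hdim).symm
  obtain ⟨Φ, h1, h2⟩ := cube_lift h k P hPT σ
  haveI : CompactSpace (Yx J T e) := isCompact_iff_compactSpace.1 (isCompact_Yx h)
  haveI : TopologicalSpace.MetrizableSpace (Yx J T e) := metrizable_Yx h
  obtain ⟨g', c', h3, h4, h5, h6⟩ := dim_miss hm hcov
    (fun y i => y.1 (k + 1) (σ i).1 - 8 * (P.lo (σ i).1 : ℝ))
    (by
      refine continuous_pi fun i => Continuous.sub ?_ continuous_const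
      exact (continuous_apply (σ i).1).comp ((continuous_apply (k + 1)).comp
        continuous_subtype_val)) (fun _ => 4)
  obtain ⟨x, -, hx⟩ := cube_hit (fun x => g' (Φ x)) (h3.comp_continuousOn h1) (fun x hx i => by
    have h7 := h4 (Φ x) i
    have h8 := h2 x hx i
    rw [abs_le] at h7 h8 ⊢
    constructor <;> linarith) c' h5
  exact h6 _ hx

end AGM
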