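import Pool.Agent.AGE.Defs

/-!
# Project AGM (MP_b5674c_gt, stronger form): definitions

The target `Y` and the source `X` are full inverse limits of finite cubical complexes; they satisfy all
the hypotheses of Bestvina's characterization of the Menger compactum.
-/

set_option autoImplicit false

noncomputable section

namespace AGM

open AGE Set Topology

/-! ## topological properties -/

/-- Euclidean space -/
abbrev Ei (i : ℕ) : Type := EuclideanSpace ℝ (Fin i)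

/-- the closed unit ball of `ℝ^i` -/
def Bl (i : ℕ) : Set (Ei i) := Metric.closedBall 0 1

/-- the unit sphere of `ℝ^i` -/
def Sp (i : ℕ) : Set (Ei i) := Metric.sphere 0 1

/-- `Y` is nonempty and `(m-1)`-connected: every map of the sphere of dimension `i - 1`, `1 ≤ i ≤ m`,
extends to the ball -/
def Cn (m : ℕ) (Y : Type) [TopologicalSpace Y] : Prop :=
  Nonempty Y ∧ ∀ i : ℕ, 1 ≤ i → i ≤ m → ∀ φ : Ei i → Y, ContinuousOn φ (Sp i) →
    ∃ Φ : Ei i → Y, ContinuousOn Φ (Bl i) ∧ EqOn Φ φ (Sp i)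

/-- `Y` is locally `(m-1)`-connected (`LC^(m-1)`) -/
def LCn (m : ℕ) (Y : Type) [TopologicalSpace Y] : Prop :=
  ∀ y : Y, ∀ U ∈ 𝓝 y, ∃ V ∈ 𝓝 y, ∀ i : ℕ, 1 ≤ i → i ≤ m → ∀ φ : Ei i → Y,
    ContinuousOn φ (Sp i) → MapsTo φ (Sp i) V →
    ∃ Φ : Ei i → Y, ContinuousOn Φ (Bl i) ∧ EqOn Φ φ (Sp i) ∧ MapsTo Φ (Bl i) U

/-- the disjoint `m`-cells property: two maps of the `m`-ball can be approximated by maps with
disjoint images (`W` is an arbitrary neighbourhood of the diagonal) -/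
def DDP (m : ℕ) (Y : Type) [TopologicalSpace Y] : Prop :=
  ∀ W : Set (Y × Y), IsOpen W → (∀ y, (y, y) ∈ W) → ∀ α β : Ei m → Y,
    ContinuousOn α (Bl m) → ContinuousOn β (Bl m) →
    ∃ α' β' : Ei m → Y, ContinuousOn α' (Bl m) ∧ ContinuousOn β' (Bl m) ∧
      (∀ x ∈ Bl m, (α x, α' x) ∈ W ∧ (β x, β' x) ∈ W) ∧
      ∀ x ∈ Bl m, ∀ x' ∈ Bl m, α' x ≠ β' x'

/-! ## towers -/

/-- all cubes of `T` are zero outside a finite set of coordinates -/
def Spt {J : Type} [LinearOrder J] (T : Set (Cube J)) : Prop :=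
  ∃ F : Finset J, ∀ Q ∈ T, ∀ j, j ∉ F → Q.lo j = 0 ∧ j ∉ Q.fr

/-- lifting of maps of balls of dimension at most `m` from `|T|` to `|T'|`, relative to the sphere -/
def Lft (m : ℕ) {J J' : Type} [LinearOrder J] [LinearOrder J'] (T : Set (Cube J))
    (T' : Set (Cube J')) (e : J → J') : Prop :=
  ∀ i ≤ m, ∀ (u : Ei i → J → ℝ) (v : Ei i → J' → ℝ), ContinuousOn u (Bl i) →
    MapsTo u (Bl i) (Body T) → ContinuousOn v (Sp i) → MapsTo v (Sp i) (Body T') →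
    (∀ a ∈ Sp i, ∀ j, v a (e j) = 8 * u a j) →
    ∃ V : Ei i → J' → ℝ, ContinuousOn V (Bl i) ∧ MapsTo V (Bl i) (Body T') ∧ EqOn V v (Sp i) ∧
      ∀ x ∈ Bl i, ∀ j, |V x (e j) / 8 - u x j| ≤ 2

/-- lifting of two maps of the `m`-ball to maps with disjoint images -/
def Dsj (m : ℕ) {J J' : Type} [LinearOrder J] [LinearOrder J'] (T : Set (Cube J))
    (T' : Set (Cube J')) (e : J → J') : Prop :=
  ∀ u₁ u₂ : Ei m → J → ℝ, ContinuousOn u₁ (Bl m) → MapsTo u₁ (Bl m) (Body T) →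
    ContinuousOn u₂ (Bl m) → MapsTo u₂ (Bl m) (Body T) →
    ∃ V₁ V₂ : Ei m → J' → ℝ, ContinuousOn V₁ (Bl m) ∧ MapsTo V₁ (Bl m) (Body T') ∧
      ContinuousOn V₂ (Bl m) ∧ MapsTo V₂ (Bl m) (Body T') ∧
      (∀ x ∈ Bl m, ∀ j, |V₁ x (e j) / 8 - u₁ x j| ≤ 2 ∧ |V₂ x (e j) / 8 - u₂ x j| ≤ 2) ∧
      ∀ x ∈ Bl m, ∀ x' ∈ Bl m, ∃ j, 8 ≤ |V₁ x j - V₂ x' j|

/-- towers of finite cubical complexes -/
structure Tow (m : ℕ) (J : ℕ → Type) [∀ k, LinearOrder (J k)] (T : ∀ k, Set (Cube (J k)))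
    (e : ∀ k, J k → J (k + 1)) : Prop where
  cnt : ∀ k, Countable (J k)
  fin : ∀ k, (T k).Finite
  clo : ∀ k, Closed (T k)
  spt : ∀ k, Spt (T k)
  inj : ∀ k, Function.Injective (e k)
  prj : ∀ k, ∀ Q' ∈ T (k + 1), ∃ Q ∈ T k, ∀ j,
    8 * Q.lo j ≤ Q'.lo (e k j) ∧ Q'.hi (e k j) ≤ 8 * Q.hi j
  pt0 : ∃ x, Body (T 0) = {x}
  lft : ∀ k, Lft m (T k) (T (k + 1)) (e k)
  dsj : ∀ k, Dsj m (T k) (T (k + 1)) (e k)

/-- the inverse limit of a tower -/
def Yx (J : ℕ → Type) [∀ k, LinearOrder (J k)] (T : ∀ k, Set (Cube (J k)))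
    (e : ∀ k, J k → J (k + 1)) : Set (∀ k, J k → ℝ) :=
  {y | ∀ k, y k ∈ Body (T k) ∧ ∀ j, y (k + 1) (e k j) = 8 * y k j}

/-! ## the complexes of the towers -/

/-- the join part of a cube uses only the columns below `M` -/
def Clm {J : Type} {N : ℕ} (M : ℕ) (Q : Cube (JJ N J)) : Prop :=
  ∀ (g : ZMod N) (k : ℕ), M ≤ k → Q.lo (.e g k) = 0 ∧ JJ.e g k ∉ Q.fr

variable {J : Type} [LinearOrder J] {N : ℕ} [NeZero N]

/-- target tower: the finite coinduced complex over `T` with `M` columns -/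
def PPf (M n : ℕ) (T : Set (Cube J)) : Set (Cube (JJ N J)) :=
  {Q | (∃ t ∈ T, Q ∈ PP n t) ∧ Clm M Q}

/-- source tower: the `m`-skeleton of `T` times the join of `M` copies of `ZMod N` (only block `0`
is used, the other blocks are zero) -/
def SEc (M m : ℕ) (T : Set (Cube J)) : Set (Cube (JJ N J)) :=
  {Q | blk 0 Q ∈ T ∧ (∀ g : ZMod N, g ≠ 0 → ∀ j, Q.lo (.a g j) = 0 ∧ JJ.a g j ∉ Q.fr) ∧ EE Q ∧
    Clm M Q ∧ Q.dim ≤ m}

/-- the permutation of the coordinates in the source tower: `(g, j) ↦ (g, τ j)` on the blocks,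
`(g, k) ↦ (g + 1, k)` on the columns -/
def sjp (N : ℕ) {J : Type} (τ : Equiv.Perm J) : Equiv.Perm (JJ N J) where
  toFun
    | .a g j => .a g (τ j)
    | .e g k => .e (g + 1) k
  invFun
    | .a g j => .a g (τ.symm j)
    | .e g k => .e (g - 1) k
  left_inv x := by cases x <;> simp
  right_inv x := by cases x <;> simp

/-- the geometric join of `M` copies of `ZMod N`, cubical form -/
def EM (N M : ℕ) : Set (ZMod N × ℕ → ℝ) :=
  {x | (∀ a, 0 ≤ x a ∧ x a ≤ 1) ∧ (∃ a, x a = 1) ∧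
    (∀ k g g', g ≠ g' → x (g, k) = 0 ∨ x (g', k) = 0) ∧ ∀ a, M ≤ a.2 → x a = 0}

end AGM
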