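import Pool.Agent.AGE.LIM1
import Pool.Agent.AGE.LIM2
import Pool.Agent.AGE.LIM3
import Pool.Agent.AGE.LIM4
import Pool.Agent.AGE.LIM6

/-!
# AGM-LM1: the limit space of AGE with a description of the fibres of the quotient map

The assembly of `AGE.lim` with one more conclusion.
-/

set_option autoImplicit false

noncomputable section

namespace AGM

open AGE TopologicalSpace

private theorem small (J : ℕ → Type) (e : ∀ k, J k → J (k + 1)) (M : ℕ → ℕ) (hM : ∀ k, 8 ≤ M k)
    (z z' : ∀ k, J k → ℝ) (hz : ∀ k j, z k j = z (k + 1) (e k j) / (M k : ℝ))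
    (hz' : ∀ k j, z' k j = z' (k + 1) (e k j) / (M k : ℝ))
    (h : ∀ k j, |z k j - z' k j| ≤ 14) (m : ℕ) :
    ∀ k j, |z k j - z' k j| ≤ 14 / 8 ^ m := by
  induction m with
  | zero => intro k j; simpa using h k j
  | succ m ih =>
    intro k j
    have hMk : (8 : ℝ) ≤ (M k : ℝ) := by exact_mod_cast hM k
    rw [hz k j, hz' k j, ← sub_div, abs_div, abs_of_pos (by linarith : (0 : ℝ) < (M k : ℝ)),
      pow_succ, ← div_div]
    have h1 := ih (k + 1) (e k j)
    calc |z (k + 1) (e k j) - z' (k + 1) (e k j)| / (M k : ℝ)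
        ≤ (14 / 8 ^ m) / (M k : ℝ) := by gcongr
      _ ≤ (14 / 8 ^ m) / 8 := by gcongr

theorem limS (p : ℕ) [Fact p.Prime] (n : ℕ) {X : Type} [TopologicalSpace X] [CompactSpace X]
    [MetrizableSpace X] [MulAction (Multiplicative ℤ_[p]) X]
    [ContinuousSMul (Multiplicative ℤ_[p]) X]
    (J : ℕ → Type) [∀ k, LinearOrder (J k)] (τ : ∀ k, Equiv.Perm (J k))
    (q : ℕ → ℕ) (hq : StrictMono q) (hτ : ∀ k, τ k ^ (p ^ q k) = 1)
    (F : ∀ k, X → J k → ℝ) (hFc : ∀ k, Continuous (F k))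
    (hFe : ∀ k x, F k (Multiplicative.ofAdd (1 : ℤ_[p]) • x) = actP (τ k) (F k x))
    (T : ∀ k, Set (Cube (J k))) (hT : ∀ k, (T k).Finite) (hTc : ∀ k, Closed (T k))
    (hFT : ∀ k x, F k x ∈ Body (T k)) (M : ℕ → ℕ) (hM : ∀ k, 8 ≤ M k)
    (e : ∀ k, J k → J (k + 1)) (he : ∀ k, Function.Injective (e k))
    (ha : ∀ k, ∀ Q' ∈ T (k + 1), ∃ Q ∈ T k, Q.dim ≤ n ∧ ∀ j,
      (M k : ℤ) * Q.lo j ≤ Q'.lo (e k j) ∧ Q'.hi (e k j) ≤ (M k : ℤ) * Q.hi j)
    (hb : ∀ k x j, |F (k + 1) x (e k j) / (M k : ℝ) - F k x j| ≤ 3)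
    (hc : ∀ k, ∀ a : ℕ, ¬ p ^ q k ∣ a → ∀ x, ∃ j,
      (M k : ℝ) ≤ |F (k + 1) (Multiplicative.ofAdd (a : ℤ_[p]) • x) j - F (k + 1) x j|) :
    ∃ (Y : Type) (_ : TopologicalSpace Y) (_ : CompactSpace Y) (_ : MetrizableSpace Y)
      (_ : MulAction (Multiplicative ℤ_[p]) Y) (_ : ContinuousSMul (Multiplicative ℤ_[p]) Y),
      (∀ (g : Multiplicative ℤ_[p]) (y : Y), g • y = y → g = 1) ∧ CovDimLE Y n ∧
      ∃ f : X → Y, Continuous f ∧ Function.Surjective f ∧
        (∀ x x', f x = f x' ↔ ∀ k j, |F k x j - F k x' j| ≤ 7) ∧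
        ∀ (g : Multiplicative ℤ_[p]) (x : X), f (g • x) = g • f x := by
  obtain ⟨Z, hZc, hZe, hZF, hZB⟩ := lim1 J F hFc M hM e hb (fun k => Body (T k))
    (fun k => Body (Sk n (T k))) hFT (fun k => lim2b n (T k))
    (fun k y hy => lim2d n (M k) (by have := hM k; omega) (T k) (T (k + 1)) (e k) (ha k) y hy)
    (fun k => lim2a _ ((hT k).subset (fun Q hQ => hQ.1)))
  -- the relation
  have key1 : ∀ x x', (∀ k, Z k x = Z k x') → ∀ k j, |F k x j - F k x' j| ≤ 7 := by
    intro x x' h k j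
    have h1 := hZF k x j
    have h2 := hZF k x' j
    rw [h k] at h1
    rw [abs_le] at h1 h2 ⊢
    constructor <;> linarith [h1.1, h1.2, h2.1, h2.2]
  have key2 : ∀ x x', (∀ k j, |F k x j - F k x' j| ≤ 7) → ∀ k, Z k x = Z k x' := by
    intro x x' h k
    funext j
    have h14 : ∀ k j, |Z k x j - Z k x' j| ≤ 14 := by
      intro k j
      have h1 := hZF k x j
      have h2 := hZF k x' j
      have h3 := h k j
      rw [abs_le] at h1 h2 h3 ⊢
      constructor <;> linarith [h1.1, h1.2, h2.1, h2.2, h3.1, h3.2]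
    have hs : ∀ m : ℕ, |Z k x j - Z k x' j| ≤ 14 / 8 ^ m := fun m =>
      small J e M hM (fun k => Z k x) (fun k => Z k x') (fun k j => hZe k x j)
        (fun k j => hZe k x' j) h14 m k j
    have hlim : Filter.Tendsto (fun m : ℕ => (14 : ℝ) / 8 ^ m) Filter.atTop (nhds 0) := by
      have := (tendsto_pow_atTop_nhds_zero_of_lt_one (r := (1 / 8 : ℝ)) (by norm_num)
        (by norm_num)).const_mul 14
      simp only [mul_zero] at this
      refine this.congr (fun m => ?_)
      rw [one_div, inv_pow, div_eq_mul_inv]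
    have h0 : |Z k x j - Z k x' j| ≤ 0 := ge_of_tendsto' hlim hs
    have := abs_eq_zero.1 (le_antisymm h0 (abs_nonneg _))
    linarith
  -- the action on `F`
  have act1 : ∀ k (g : Multiplicative ℤ_[p]), ∃ σ : Equiv.Perm (J k), ∀ x,
      F k (g • x) = actP σ (F k x) := by
    intro k g
    obtain ⟨a, w, haw⟩ := lim3a p (q k) (Multiplicative.toAdd g)
    refine ⟨τ k ^ a, fun x => ?_⟩
    have := lim3b p (τ k) (q k) (hτ k) (F k) (hFc k) (hFe k) a w x
    rw [← haw] at this
    exact this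
  obtain ⟨Y, i1, i2, i3, i4, i5, f, ι, hf, hs, hι, hιi, hιf, hfe⟩ :=
    lim4 (G := Multiplicative ℤ_[p]) (X := X) (P := ∀ k, J k → ℝ) (fun x k => Z k x)
      (continuous_pi fun k => hZc k) (by
        intro g x x' h
        have h' : ∀ k, Z k x = Z k x' := fun k => congrFun h k
        funext k
        refine key2 _ _ (fun k j => ?_) k
        obtain ⟨σ, hσ⟩ := act1 k g
        rw [hσ, hσ]
        exact key1 x x' h' k (σ.symm j))
  refine ⟨Y, i1, i2, i3, i4, i5, ?_, ?_, f, hf, hs, ?_, hfe⟩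
  · -- free
    intro g y hgy
    by_contra hne
    obtain ⟨x, rfl⟩ := hs y
    have hZg : ∀ k, Z k (g • x) = Z k x := by
      intro k
      have : ι (f (g • x)) = ι (f x) := by rw [hfe, hgy]
      rw [hιf, hιf] at this
      exact congrFun this k
    have h7 := key1 _ _ hZg
    set z : ℤ_[p] := Multiplicative.toAdd g with hz
    have hz0 : z ≠ 0 := fun h => hne (by
      rw [hz] at h
      exact h)
    -- a level where `z` is not divisible
    obtain ⟨k, hk⟩ : ∃ k, ¬ (p : ℤ_[p]) ^ q k ∣ z := by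
      by_contra hcon
      push Not at hcon
      apply hz0
      have hn0 : ∀ k : ℕ, ‖z‖ ≤ (p : ℝ) ^ (-(k : ℤ)) := by
        intro k
        have h1 : (p : ℤ_[p]) ^ k ∣ z :=
          (pow_dvd_pow _ (hq.le_apply)).trans (hcon k)
        rwa [PadicInt.norm_le_pow_iff_mem_span_pow, Ideal.mem_span_singleton]
      have hlim : Filter.Tendsto (fun k : ℕ => (p : ℝ) ^ (-(k : ℤ))) Filter.atTop (nhds 0) := by
        have hp1 : (1 : ℝ) < p := by exact_mod_cast (Fact.out : p.Prime).one_lt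
        have := tendsto_pow_atTop_nhds_zero_of_lt_one (r := (p : ℝ)⁻¹) (by positivity)
          (inv_lt_one_of_one_lt₀ hp1)
        refine this.congr (fun m => ?_)
        rw [zpow_neg, zpow_natCast, inv_pow]
      have h0 : ‖z‖ ≤ 0 := ge_of_tendsto' hlim hn0
      exact norm_le_zero_iff.1 h0
    obtain ⟨a, w, haw⟩ := lim3a p (q (k + 1)) z
    have hkk : q k ≤ q (k + 1) := (hq (Nat.lt_succ_self k)).le
    have hna : ¬ p ^ q k ∣ a := by
      intro hd
      apply hk
      rw [haw]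
      refine dvd_add ?_ ((pow_dvd_pow _ hkk).mul_right w)
      obtain ⟨b, rfl⟩ := hd
      exact ⟨(b : ℤ_[p]), by push_cast; ring⟩
    obtain ⟨j, hj⟩ := hc k a hna x
    have e1 := lim3b p (τ (k + 1)) (q (k + 1)) (hτ (k + 1)) (F (k + 1)) (hFc (k + 1))
      (hFe (k + 1)) a w x
    have e2 := lim3b p (τ (k + 1)) (q (k + 1)) (hτ (k + 1)) (F (k + 1)) (hFc (k + 1))
      (hFe (k + 1)) a 0 x
    rw [mul_zero, add_zero, ← e1, ← haw] at e2
    rw [e2] at hj
    have h8 : (8 : ℝ) ≤ (M k : ℝ) := by exact_mod_cast hM k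
    have := h7 (k + 1) j
    have e3 : (Multiplicative.ofAdd z : Multiplicative ℤ_[p]) = g := rfl
    rw [e3] at hj
    linarith
  · -- covering dimension
    refine lim6 n J e M hM (fun k y => ι y k) (fun k => (continuous_apply k).comp hι) ?_ ?_ ?_
    · intro y y' h
      exact hιi (funext h)
    · intro k y j
      obtain ⟨x, rfl⟩ := hs y
      simp only [hιf]
      exact hZe k x j
    · intro k y
      obtain ⟨x, rfl⟩ := hs y
      simp only [hιf]
      exact lim2c n (T k) _ (hZB k x)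
  · -- the fibres
    intro x x'
    constructor
    · intro h
      refine key1 x x' fun k => ?_
      have h1 : ι (f x) = ι (f x') := by rw [h]
      rw [hιf, hιf] at h1
      exact congrFun h1 k
    · intro h
      refine hιi ?_
      rw [hιf, hιf]
      funext k
      exact key2 x x' h k

end AGM
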