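import Pool.Agent.AGM.LM2
import Pool.Agent.AGE.LIM1

/-!
# AGM-LM3: exact threads near approximate threads
-/

set_option autoImplicit false

noncomputable section

namespace AGM

open AGE Set Topology

variable {J : ℕ → Type} [∀ k, LinearOrder (J k)] {T : ∀ k, Set (Cube (J k))}
  {e : ∀ k, J k → J (k + 1)} {τ : ∀ k, Equiv.Perm (J k)}

/-- two exact threads at bounded distance are equal -/
theorem yx_eq (y y' : ∀ k, J k → ℝ) (hy : y ∈ Yx J T e) (hy' : y' ∈ Yx J T e)
    (h : ∀ k j, |y k j - y' k j| ≤ 7) : y = y' := by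
  have key : ∀ m : ℕ, ∀ k j, |y k j - y' k j| ≤ 7 / 8 ^ m := by
    intro m
    induction m with
    | zero => intro k j; simpa using h k j
    | succ m ih =>
      intro k j
      have h1 := ih (k + 1) (e k j)
      rw [(hy k).2 j, (hy' k).2 j, ← mul_sub, abs_mul, abs_of_pos (by norm_num : (0 : ℝ) < 8)] at h1
      rw [pow_succ, ← div_div, le_div_iff₀ (by norm_num : (0 : ℝ) < 8)]
      linarith
  funext k j
  have hlim : Filter.Tendsto (fun m : ℕ => (7 : ℝ) / 8 ^ m) Filter.atTop (nhds 0) := by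
    have := (tendsto_pow_atTop_nhds_zero_of_lt_one (r := (1 / 8 : ℝ)) (by norm_num)
      (by norm_num)).const_mul 7
    simp only [mul_zero] at this
    refine this.congr (fun m => ?_)
    rw [one_div, inv_pow, div_eq_mul_inv]
  have h0 : |y k j - y' k j| ≤ 0 := ge_of_tendsto' hlim fun m => key m k j
  have := abs_eq_zero.1 (le_antisymm h0 (abs_nonneg _))
  linarith

/-- near every approximate thread there is an exact one -/
theorem yx_near (hT : ∀ k, (T k).Finite)
    (hprj : ∀ k, ∀ Q' ∈ T (k + 1), ∃ Q ∈ T k, ∀ j,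
      8 * Q.lo j ≤ Q'.lo (e k j) ∧ Q'.hi (e k j) ≤ 8 * Q.hi j)
    (z : ∀ k, J k → ℝ) (hz : z ∈ Ap J T e τ) :
    ∃ y ∈ Yx J T e, ∀ k j, |y k j - z k j| ≤ 7 / 2 := by
  obtain ⟨Z, -, hZe, hZF, hZB⟩ := lim1 (X := Unit) J (fun k _ => z k)
    (fun k => continuous_const) (fun _ => 8) (fun _ => le_rfl) e (by
      intro k _ j
      have h1 := (hz k).2 0 j
      have h2 : (τ (k + 1) ^ 0) (e k ((τ k ^ 0).symm j)) = e k j := by
        rw [pow_zero, pow_zero]
        rfl
      rw [h2] at h1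
      exact_mod_cast h1) (fun k => Body (T k)) (fun k => Body (T k)) (fun k _ => (hz k).1)
    (fun k => subset_rfl) (by
      rintro k y ⟨Q', hQ', hy⟩
      obtain ⟨Q, hQ, h⟩ := hprj k Q' hQ'
      refine ⟨Q, hQ, fun j => ?_⟩
      have h1 := hy (e k j)
      have h2 : (8 : ℝ) * Q.lo j ≤ Q'.lo (e k j) := by exact_mod_cast (h j).1
      have h3 : (Q'.hi (e k j) : ℝ) ≤ 8 * Q.hi j := by exact_mod_cast (h j).2
      push_cast
      rw [le_div_iff₀ (by norm_num : (0 : ℝ) < 8), div_le_iff₀ (by norm_num : (0 : ℝ) < 8)]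
      constructor <;> linarith [h1.1, h1.2])
    (fun k => lim2a _ (hT k))
  refine ⟨fun k => Z k (), fun k => ⟨hZB k (), fun j => ?_⟩, fun k j => hZF k () j⟩
  have h1 := hZe k () j
  push_cast at h1
  show Z (k + 1) () (e k j) = 8 * Z k () j
  rw [h1]
  ring

end AGM
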