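import Pool.Agent.AGM.Defs
import Pool.Agent.AGE.LIM3

/-!
# AGM-PAC: the action of `ℤ_p` on a closed set of threads
-/

set_option autoImplicit false

noncomputable section

namespace AGM

open AGE Set Topology

/-- the power of `τ` given by a `p`-adic integer modulo `p ^ q` -/
private def pacW (p : ℕ) [Fact p.Prime] {K : Type} (τ : Equiv.Perm K) (q : ℕ) (g : ℤ_[p]) :
    Equiv.Perm K := τ ^ (PadicInt.toZModPow q g).val

private theorem pacW_add (p : ℕ) [Fact p.Prime] {K : Type} (τ : Equiv.Perm K) (q : ℕ)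
    (hτ : τ ^ (p ^ q) = 1) (g h : ℤ_[p]) :
    pacW p τ q (g + h) = pacW p τ q g * pacW p τ q h := by
  have hne : NeZero (p ^ q) := ⟨pow_ne_zero _ (Fact.out : p.Prime).ne_zero⟩
  unfold pacW
  rw [map_add, ZMod.val_add, ← pow_add, ← pow_eq_pow_mod _ hτ]

private theorem pacW_zero (p : ℕ) [Fact p.Prime] {K : Type} (τ : Equiv.Perm K) (q : ℕ) :
    pacW p τ q 0 = 1 := by
  have hne : NeZero (p ^ q) := ⟨pow_ne_zero _ (Fact.out : p.Prime).ne_zero⟩
  unfold pacW
  rw [map_zero, ZMod.val_zero, pow_zero]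

private theorem pacW_spec (p : ℕ) [Fact p.Prime] {K : Type} (τ : Equiv.Perm K) (q : ℕ)
    (hτ : τ ^ (p ^ q) = 1) (a : ℕ) (w : ℤ_[p]) :
    pacW p τ q ((a : ℤ_[p]) + (p : ℤ_[p]) ^ q * w) = τ ^ a := by
  have hne : NeZero (p ^ q) := ⟨pow_ne_zero _ (Fact.out : p.Prime).ne_zero⟩
  have h1 : PadicInt.toZModPow q ((p : ℤ_[p]) ^ q) = 0 := by
    rw [← RingHom.mem_ker, PadicInt.ker_toZModPow, Ideal.mem_span_singleton]
  unfold pacW
  rw [map_add, map_mul, h1, zero_mul, add_zero, map_natCast, ZMod.val_natCast,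
    ← pow_eq_pow_mod _ hτ]

/-- the power is locally constant -/
private theorem pacW_loc (p : ℕ) [Fact p.Prime] {K : Type} (τ : Equiv.Perm K) (q : ℕ)
    (g : ℤ_[p]) : ∀ᶠ h in 𝓝 g, pacW p τ q h = pacW p τ q g := by
  have hp : (0 : ℝ) < (p : ℝ) ^ (-(q : ℤ)) := by
    have : (0 : ℝ) < p := by exact_mod_cast (Fact.out : p.Prime).pos
    positivity
  filter_upwards [Metric.ball_mem_nhds g hp] with h hh
  have h1 : ‖h - g‖ ≤ (p : ℝ) ^ (-(q : ℤ)) := by
    rw [← dist_eq_norm]
    exact (Metric.mem_ball.1 hh).le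
  have h2 : PadicInt.toZModPow q (h - g) = 0 := by
    rw [← RingHom.mem_ker, PadicInt.ker_toZModPow]
    exact (PadicInt.norm_le_pow_iff_mem_span_pow _ _).1 h1
  have h3 : PadicInt.toZModPow q h = PadicInt.toZModPow q g := by
    rw [map_sub, sub_eq_zero] at h2
    exact h2
  unfold pacW
  rw [h3]

private theorem pac_nat (J : ℕ → Type) (τ : ∀ k, Equiv.Perm (J k)) (S : Set (∀ k, J k → ℝ))
    (hinv : ∀ z ∈ S, (fun k => actP (τ k) (z k)) ∈ S) (a : ℕ) :
    ∀ z ∈ S, (fun k => actP (τ k ^ a) (z k)) ∈ S := by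
  induction a with
  | zero =>
    intro z hz
    have h : (fun k => actP (τ k ^ 0) (z k)) = z := by
      funext k
      rw [pow_zero]
      rfl
    rw [h]
    exact hz
  | succ a ih =>
    intro z hz
    have h1 := hinv _ (ih z hz)
    have h2 : (fun k => actP (τ k ^ (a + 1)) (z k)) =
        fun k => actP (τ k) ((fun k => actP (τ k ^ a) (z k)) k) := by
      funext k
      rw [pow_succ']
      rfl
    rw [h2]
    exact h1

private theorem pac_mem (p : ℕ) [Fact p.Prime] (J : ℕ → Type) (τ : ∀ k, Equiv.Perm (J k))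
    (q : ℕ → ℕ) (hτ : ∀ k, τ k ^ (p ^ q k) = 1) (S : Set (∀ k, J k → ℝ)) (hcl : IsClosed S)
    (hinv : ∀ z ∈ S, (fun k => actP (τ k) (z k)) ∈ S) (g : ℤ_[p]) (z : ∀ k, J k → ℝ)
    (hz : z ∈ S) : (fun k => actP (pacW p (τ k) (q k) g) (z k)) ∈ S := by
  have h1 : ∀ m : ℕ, ∃ a : ℕ, ∀ k ≤ m, pacW p (τ k) (q k) g = τ k ^ a := by
    intro m
    obtain ⟨a, w, haw⟩ := lim3a p ((Finset.range (m + 1)).sup q) g
    refine ⟨a, fun k hk => ?_⟩
    have h2 : q k ≤ (Finset.range (m + 1)).sup q :=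
      Finset.le_sup (Finset.mem_range.2 (Nat.lt_succ_of_le hk))
    obtain ⟨r, hr⟩ := Nat.exists_eq_add_of_le h2
    rw [haw, hr, pow_add, mul_assoc]
    exact pacW_spec p (τ k) (q k) (hτ k) a _
  choose a ha using h1
  refine hcl.mem_of_tendsto (b := Filter.atTop)
    (f := fun m : ℕ => (fun k => actP (τ k ^ a m) (z k))) ?_
    (Filter.Eventually.of_forall fun m => pac_nat J τ S hinv (a m) z hz)
  rw [tendsto_pi_nhds]
  intro k
  refine tendsto_const_nhds.congr' ?_
  filter_upwards [Filter.eventually_ge_atTop k] with m hm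
  rw [ha m k hm]

theorem pac (p : ℕ) [Fact p.Prime] (J : ℕ → Type) (τ : ∀ k, Equiv.Perm (J k)) (q : ℕ → ℕ)
    (hτ : ∀ k, τ k ^ (p ^ q k) = 1) (S : Set (∀ k, J k → ℝ)) (hcl : IsClosed S)
    (hinv : ∀ z ∈ S, (fun k => actP (τ k) (z k)) ∈ S) :
    ∃ (_ : MulAction (Multiplicative ℤ_[p]) S) (_ : ContinuousSMul (Multiplicative ℤ_[p]) S),
      ∀ (k : ℕ) (a : ℕ) (w : ℤ_[p]) (z : S),
        ((Multiplicative.ofAdd ((a : ℤ_[p]) + (p : ℤ_[p]) ^ q k * w)) • z).1 k =
          actP (τ k ^ a) (z.1 k) := by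
  let A : MulAction (Multiplicative ℤ_[p]) S :=
    { smul := fun g z => ⟨fun k => actP (pacW p (τ k) (q k) (Multiplicative.toAdd g)) (z.1 k),
        pac_mem p J τ q hτ S hcl hinv _ z.1 z.2⟩
      one_smul := by
        intro z
        apply Subtype.ext
        funext k
        show actP (pacW p (τ k) (q k) (Multiplicative.toAdd (1 : Multiplicative ℤ_[p]))) (z.1 k) =
          z.1 k
        rw [toAdd_one, pacW_zero]
        rfl
      mul_smul := by
        intro g h z
        apply Subtype.ext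
        funext k
        show actP (pacW p (τ k) (q k) (Multiplicative.toAdd (g * h))) (z.1 k) =
          actP (pacW p (τ k) (q k) (Multiplicative.toAdd g))
            (actP (pacW p (τ k) (q k) (Multiplicative.toAdd h)) (z.1 k))
        rw [toAdd_mul, pacW_add p (τ k) (q k) (hτ k)]
        rfl }
  refine ⟨A, ⟨?_⟩, ?_⟩
  · refine Continuous.subtype_mk ?_ _
    refine continuous_pi fun k => continuous_pi fun j => ?_
    rw [continuous_iff_continuousAt]
    rintro ⟨g, z⟩
    have h1 : Continuous fun y : Multiplicative ℤ_[p] × S =>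
        y.2.1 k ((pacW p (τ k) (q k) (Multiplicative.toAdd g)).symm j) :=
      (continuous_apply _).comp ((continuous_apply k).comp
        (continuous_subtype_val.comp continuous_snd))
    refine h1.continuousAt.congr ?_
    have h2 := pacW_loc p (τ k) (q k) (Multiplicative.toAdd g)
    have h3 : Filter.Tendsto (fun y : Multiplicative ℤ_[p] × S => Multiplicative.toAdd y.1)
        (𝓝 (g, z)) (𝓝 (Multiplicative.toAdd g)) :=
      (continuous_toAdd.comp continuous_fst).tendsto (g, z)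
    filter_upwards [h3.eventually h2] with y hy
    show y.2.1 k ((pacW p (τ k) (q k) (Multiplicative.toAdd g)).symm j) =
      y.2.1 k ((pacW p (τ k) (q k) (Multiplicative.toAdd y.1)).symm j)
    rw [hy]
  · intro k a w z
    show actP (pacW p (τ k) (q k) ((a : ℤ_[p]) + (p : ℤ_[p]) ^ q k * w)) (z.1 k) = _
    rw [pacW_spec p (τ k) (q k) (hτ k)]

end AGM
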