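import Pool.Agent.AGM.Defs
import Pool.Agent.AGM.PAC
import Pool.Agent.AGM.LM1
import Pool.Agent.AGM.LM3
import Pool.Agent.AGE.LIM3

/-!
# AGM-LIM2: the action on the limit (main statement; owner helper63)

(1) Strengthen `AGE.lim` (copy its assembly): the map `f : X → Y` moreover satisfies `f x = f x' ↔ ∀ k j, |F k x j - F k x' j| ≤ 7`. (2) `Ŷ = {z | ∀ k, z k ∈ Body (T k) ∧ ∀ g : ℕ, ∀ j, |z (k+1) ((τ (k+1) ^ g) (e k ((τ k ^ g).symm j))) / 8 - z k j| ≤ 3}`: compact metrizable, `Z_p` acts on it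
exactly: `(a z) k = actP (τ k ^ a_k) (z k)` for any natural `a_k ≡ a` modulo `p ^ q k` (continuous). (1) for `X = Ŷ`, `F k z = z k` (`hsep` gives the separation) gives `Y`, free, `CovDimLE Y n`, and `f : Ŷ → Y` onto. (3) `Yx ⊆ Ŷ` (`hblk`: all blocks in one cube
with block `0`, distance `≤ 1`), and every `z ∈ Ŷ` is at distance `≤ 24/7` of exactly one point of `Yx`; so `Yx → Y` is a continuous bijection, a homeomorphism. (4) For `X, F` as in the last part `x ↦ (F k x)_k` maps into `Ŷ` (use the equivariance for the blocks `g`), compose with `f`.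
-/

set_option autoImplicit false

noncomputable section

namespace AGM

open AGE Set Topology

theorem lim2 (p : ℕ) [Fact p.Prime] (n : ℕ) (J : ℕ → Type) [∀ k, LinearOrder (J k)]
    (T : ∀ k, Set (Cube (J k))) (e : ∀ k, J k → J (k + 1)) (hT : Tow n J T e)
    (τ : ∀ k, Equiv.Perm (J k)) (q : ℕ → ℕ) (hq : StrictMono q)
    (hτ : ∀ k, τ k ^ (p ^ q k) = 1) (hinv : ∀ k, Inv (τ k) (T k))
    (hdim : ∀ k, ∀ Q' ∈ T (k + 1), ∃ Q ∈ T k, Q.dim ≤ n ∧ ∀ j,
      8 * Q.lo j ≤ Q'.lo (e k j) ∧ Q'.hi (e k j) ≤ 8 * Q.hi j)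
    (hblk : ∀ k, ∀ z ∈ Body (T (k + 1)), ∃ t ∈ T k, ∀ g : ℕ,
      (fun j => z ((τ (k + 1) ^ g) (e k ((τ k ^ g).symm j))) / 8) ∈ t.body)
    (hsep : ∀ k, ∀ a : ℕ, ¬ p ^ q k ∣ a → ∀ z ∈ Body (T (k + 1)), ∃ j,
      8 ≤ |z ((τ (k + 1) ^ a).symm j) - z j|) :
    ∃ (Y : Type) (_ : TopologicalSpace Y) (_ : CompactSpace Y)
      (_ : TopologicalSpace.MetrizableSpace Y) (_ : MulAction (Multiplicative ℤ_[p]) Y)
      (_ : ContinuousSMul (Multiplicative ℤ_[p]) Y),
      (∀ (g : Multiplicative ℤ_[p]) (y : Y), g • y = y → g = 1) ∧ CovDimLE Y n ∧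
      Nonempty (Y ≃ₜ Yx J T e) ∧
      ∀ (X : Type) [TopologicalSpace X] [MulAction (Multiplicative ℤ_[p]) X]
        [ContinuousSMul (Multiplicative ℤ_[p]) X] (F : ∀ k, X → J k → ℝ),
        (∀ k, Continuous (F k)) →
        (∀ k x, F k (Multiplicative.ofAdd (1 : ℤ_[p]) • x) = actP (τ k) (F k x)) →
        (∀ k x, F k x ∈ Body (T k)) →
        (∀ k x j, |F (k + 1) x (e k j) / 8 - F k x j| ≤ 3) →
        ∃ f : X → Y, Continuous f ∧
          ∀ (g : Multiplicative ℤ_[p]) (x : X), f (g • x) = g • f x := by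
  have hsub : Yx J T e ⊆ Ap J T e τ := yx_sub_ap hblk
  have hcl : IsClosed (Ap J T e τ) := ap_closed hT.fin
  have hcpt : IsCompact (Ap J T e τ) := ap_compact hT.fin
  have hp0 : 0 < p := (Fact.out : p.Prime).pos
  obtain ⟨iA, iC, hact⟩ := pac p J τ q hτ (Ap J T e τ) hcl
    (fun z hz => ap_inv p hp0 q hq.monotone hτ hinv z hz)
  have hc1 : CompactSpace (Ap J T e τ) := isCompact_iff_compactSpace.1 hcpt
  have hm1 : TopologicalSpace.MetrizableSpace (Ap J T e τ) := threads_metrizable J hT.cnt _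
  obtain ⟨Y, i1, i2, i3, i4, i5, hfree, hdimY, f, hf, hfs, hff, hfe⟩ :=
    limS p n (X := Ap J T e τ) J τ q hq hτ (fun k z => z.1 k)
      (fun k => (continuous_apply k).comp continuous_subtype_val)
      (by
        intro k z
        have h1 := hact k 1 0 z
        rw [mul_zero, add_zero, Nat.cast_one, pow_one] at h1
        exact h1)
      T hT.fin hT.clo (fun k z => (z.2 k).1) (fun _ => 8) (fun _ => le_rfl) e hT.inj
      hdim
      (by
        intro k z j
        have h1 := (z.2 k).2 0 j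
        have h2 : (τ (k + 1) ^ 0) (e k ((τ k ^ 0).symm j)) = e k j := by
          rw [pow_zero, pow_zero]
          rfl
        rw [h2] at h1
        exact_mod_cast h1)
      (by
        intro k a ha z
        obtain ⟨j, hj⟩ := hsep k a ha (z.1 (k + 1)) (z.2 (k + 1)).1
        refine ⟨j, ?_⟩
        have h1 := hact (k + 1) a 0 z
        rw [mul_zero, add_zero] at h1
        rw [h1]
        exact_mod_cast hj)
  have i6 : T2Space Y := inferInstance
  -- the homeomorphism
  let φ : Yx J T e → Y := fun y => f ⟨y.1, hsub y.2⟩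
  have hφ : Continuous φ := hf.comp (continuous_subtype_val.subtype_mk _)
  have hinj : Function.Injective φ := by
    intro y y' h
    have h1 := (hff ⟨y.1, hsub y.2⟩ ⟨y'.1, hsub y'.2⟩).1 h
    exact Subtype.ext (yx_eq y.1 y'.1 y.2 y'.2 h1)
  have hsur : Function.Surjective φ := by
    intro w
    obtain ⟨z, rfl⟩ := hfs w
    obtain ⟨y, hy, hyz⟩ := yx_near hT.fin hT.prj z.1 z.2
    refine ⟨⟨y, hy⟩, ?_⟩
    refine (hff ⟨y, hsub hy⟩ z).2 fun k j => (hyz k j).trans (by norm_num)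
  have hYc : IsClosed (Yx J T e) := by
    have h1 : Yx J T e = ⋂ k, ({z : ∀ k, J k → ℝ | z k ∈ Body (T k)} ∩ ⋂ j : J k,
        {z : ∀ k, J k → ℝ | z (k + 1) (e k j) = 8 * z k j}) := by
      ext z
      simp only [Yx, Set.mem_ofPred_eq, Set.mem_iInter, Set.mem_inter_iff]
    rw [h1]
    refine isClosed_iInter fun k => IsClosed.inter ?_ ?_
    · exact (lim2a (T k) (hT.fin k)).preimage (continuous_apply k)
    · refine isClosed_iInter fun j => isClosed_eq ?_ ?_
      · exact (continuous_apply _).comp (continuous_apply (k + 1))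
      · exact continuous_const.mul ((continuous_apply _).comp (continuous_apply k))
  have hYcpt : CompactSpace (Yx J T e) :=
    isCompact_iff_compactSpace.1 (hcpt.of_isClosed_subset hYc hsub)
  have hhom : Nonempty (Y ≃ₜ Yx J T e) :=
    ⟨(Continuous.homeoOfEquivCompactToT2 (f := Equiv.ofBijective φ ⟨hinj, hsur⟩) hφ).symm⟩
  refine ⟨Y, i1, i2, i3, i4, i5, hfree, hdimY, hhom, ?_⟩
  intro X iX iXA iXC F hFc hFe hFT hFb
  -- values of `F` on translates
  have hFg : ∀ k (b : ℕ) (x : X), F k (Multiplicative.ofAdd (b : ℤ_[p]) • x) =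
      actP (τ k ^ b) (F k x) := by
    intro k b x
    have h1 := lim3b p (τ k) (q k) (hτ k) (F k) (hFc k) (hFe k) b 0 x
    rwa [mul_zero, add_zero] at h1
  have hFA : ∀ x, (fun k => F k x) ∈ Ap J T e τ := by
    intro x k
    refine ⟨hFT k x, fun g j => ?_⟩
    obtain ⟨x', hx'⟩ : ∃ x' : X, Multiplicative.ofAdd (g : ℤ_[p]) • x' = x :=
      ⟨(Multiplicative.ofAdd (g : ℤ_[p]))⁻¹ • x, smul_inv_smul _ _⟩
    have h1 : ∀ i, F (k + 1) x ((τ (k + 1) ^ g) i) = F (k + 1) x' i := by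
      intro i
      rw [← hx', hFg]
      show F (k + 1) x' ((τ (k + 1) ^ g).symm ((τ (k + 1) ^ g) i)) = _
      rw [Equiv.symm_apply_apply]
    have h2 : F k x j = F k x' ((τ k ^ g).symm j) := by
      rw [← hx', hFg]
      rfl
    show |F (k + 1) x ((τ (k + 1) ^ g) (e k ((τ k ^ g).symm j))) / 8 - F k x j| ≤ 3
    rw [h1, h2]
    exact hFb k x' ((τ k ^ g).symm j)
  refine ⟨fun x => f ⟨fun k => F k x, hFA x⟩, ?_, ?_⟩
  · exact hf.comp ((continuous_pi fun k => hFc k).subtype_mk _)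
  · intro g x
    rw [← hfe]
    refine congrArg f ?_
    refine Subtype.ext (funext fun k => ?_)
    obtain ⟨a, w, haw⟩ := lim3a p (q k) (Multiplicative.toAdd g)
    have h1 := lim3b p (τ k) (q k) (hτ k) (F k) (hFc k) (hFe k) a w x
    have h2 := hact k a w ⟨fun k => F k x, hFA x⟩
    rw [← haw] at h1 h2
    have e3 : (Multiplicative.ofAdd (Multiplicative.toAdd g) : Multiplicative ℤ_[p]) = g := rfl
    rw [e3] at h1 h2
    show F k (g • x) = _
    rw [h1, h2]

end AGM
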