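import Pool.Agent.AGM.LA

/-!
# AGM-LC: the source complex `SEc` and its container `PHs`

Points of the body of `PHs`: block `0` in the body of `T`, the other blocks zero, the join part in the join of `M` copies of
`ZMod N`. Finiteness and closedness.
-/

set_option autoImplicit false

noncomputable section

namespace AGM

open AGE Set Topology

variable {J : Type} [LinearOrder J] {N : ℕ} [NeZero N]

/-- a coordinate in which the cube is a point -/
private theorem LC_hi_eq {K : Type} [LinearOrder K] {Q : Cube K} {x : K} (h : x ∉ Q.fr) : Q.hi x = Q.lo x := by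
  rcases hi_cases Q x with h1 | h1
  · exact absurd h1.1 h
  · exact h1.2

private theorem LC_face {K : Type} [LinearOrder K] {P Q : Cube K} (h : Q.Le P) {x : K} (h0 : P.lo x = 0)
    (hx : x ∉ P.fr) : Q.lo x = 0 ∧ x ∉ Q.fr := by
  have h1 := h x
  rw [LC_hi_eq hx, h0] at h1
  rcases hi_cases Q x with h2 | h2
  · exfalso
    omega
  · exact ⟨by omega, h2.1⟩

open scoped Classical in
/-- the smallest cube with block `0` equal to `t` which contains the point `z` -/
private def LC_cube (M : ℕ) (t : Cube J) (z : JJ N J → ℝ) : Cube (JJ N J) :=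
  mkC (fun g => if g = 0 then t else pt 0) (fun g k => if z (.e g k) = 1 then 1 else 0)
    ((Finset.univ ×ˢ Finset.range M).filter fun c => z (.e c.1 c.2) ≠ 0 ∧ z (.e c.1 c.2) ≠ 1)

open scoped Classical in
private theorem LC_mem (M : ℕ) (T : Set (Cube J)) {t : Cube J} (ht : t ∈ T) (z : JJ N J → ℝ)
    (h1 : (fun j => z (.a (0 : ZMod N) j)) ∈ t.body) (h2 : ∀ g : ZMod N, g ≠ 0 → ∀ j, z (.a g j) = 0)
    (h3 : (fun c : ZMod N × ℕ => z (.e c.1 c.2)) ∈ EM N M) :
    LC_cube M t z ∈ PHs (N := N) M T ∧ z ∈ (LC_cube M t z).body := by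
  obtain ⟨e1, ⟨c0, e2⟩, e3, e4⟩ := h3
  have hlo : ∀ g k, (LC_cube M t z).lo (.e g k) = if z (.e g k) = 1 then 1 else 0 := fun g k => rfl
  have hfr : ∀ g k, JJ.e g k ∈ (LC_cube M t z).fr ↔ z (.e g k) ≠ 0 ∧ z (.e g k) ≠ 1 := by
    intro g k
    unfold LC_cube
    rw [mkC_mem_e, Finset.mem_filter, Finset.mem_product, Finset.mem_range]
    constructor
    · exact fun h => h.2
    · intro h
      refine ⟨⟨Finset.mem_univ _, ?_⟩, h⟩
      by_contra hk
      exact h.1 (e4 (g, k) (not_lt.1 hk))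
  have hhi : ∀ g k, (LC_cube M t z).hi (.e g k) = if z (.e g k) = 0 then 0 else 1 := by
    intro g k
    rcases hi_cases (LC_cube M t z) (.e g k) with ⟨h4, h5⟩ | ⟨h4, h5⟩
    · rw [hfr] at h4
      rw [h5, hlo, if_neg h4.2, if_neg h4.1]
      rfl
    · rw [h5, hlo]
      by_cases h6 : z (.e g k) = 0
      · rw [if_pos h6, if_neg (by rw [h6]; norm_num)]
      · have h7 : z (.e g k) = 1 := by
          by_contra h8
          exact h4 ((hfr g k).2 ⟨h6, h8⟩)
        rw [if_pos h7, if_neg h6]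
  have hb : ∀ g, blk g (LC_cube M t z) = if g = 0 then t else pt 0 := fun g => blk_mkC _ _ _ g
  refine ⟨⟨?_, ?_, ⟨?_, ?_, ?_, ?_⟩, ?_⟩, ?_⟩
  · rw [hb, if_pos rfl]
    exact ht
  · intro g hg j
    have h4 := hb g
    rw [if_neg hg] at h4
    constructor
    · rw [← blk_lo, h4]
      rfl
    · rw [← mem_blk, h4]
      exact Finset.notMem_empty j
  · intro g k
    rw [hlo, hhi]
    constructor
    · split_ifs <;> omega
    · split_ifs <;> omega
  · refine ((Finset.univ ×ˢ Finset.range M : Finset (ZMod N × ℕ)).finite_toSet).subset ?_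
    intro c hc
    have h4 : (LC_cube M t z).lo (.e c.1 c.2) = 1 := hc
    rw [hlo] at h4
    rw [Finset.mem_coe, Finset.mem_product, Finset.mem_range]
    refine ⟨Finset.mem_univ _, ?_⟩
    by_contra hk
    have h5 := e4 c (not_lt.1 hk)
    simp only at h5
    rw [h5, if_neg (by norm_num)] at h4
    exact absurd h4 (by norm_num)
  · refine ⟨c0.1, c0.2, ?_⟩
    rw [hlo]
    exact if_pos e2
  · intro k g g' h4 h5
    by_contra hg
    rw [hhi] at h4 h5
    rcases e3 k g g' hg with h6 | h6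
    · simp only at h6
      rw [if_pos h6] at h4
      exact absurd h4 (by norm_num)
    · simp only at h6
      rw [if_pos h6] at h5
      exact absurd h5 (by norm_num)
  · intro g k hk
    have h4 : z (.e g k) = 0 := e4 (g, k) hk
    rw [hlo, hfr, h4]
    refine ⟨if_neg (by norm_num), fun h5 => h5.1 rfl⟩
  · intro x
    cases x with
    | a g j =>
      rw [← blk_lo, ← blk_hi, hb]
      by_cases hg : g = 0
      · subst hg
        rw [if_pos rfl]
        exact h1 j
      · rw [if_neg hg, h2 g hg j]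
        have h4 : (pt (0 : J → ℤ)).hi j = 0 := LC_hi_eq (Finset.notMem_empty j)
        have h5 : (pt (0 : J → ℤ)).lo j = 0 := rfl
        rw [h4, h5]
        norm_num
    | e g k =>
      have h4 := e1 (g, k)
      simp only at h4
      rw [hlo, hhi]
      by_cases h5 : z (.e g k) = 0
      · rw [h5, if_pos rfl, if_neg (by norm_num)]
        norm_num
      · rw [if_neg h5]
        by_cases h6 : z (.e g k) = 1
        · rw [h6, if_pos rfl]
          norm_num
        · rw [if_neg h6]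
          push_cast
          exact h4

theorem mem_phs (M : ℕ) (T : Set (Cube J)) (hc : Closed T) (z : JJ N J → ℝ) :
    z ∈ Body (PHs (N := N) M T) ↔ (fun j => z (.a (0 : ZMod N) j)) ∈ Body T ∧
      (∀ g : ZMod N, g ≠ 0 → ∀ j, z (.a g j) = 0) ∧
      (fun c : ZMod N × ℕ => z (.e c.1 c.2)) ∈ EM N M := by
  constructor
  · rintro ⟨Q, ⟨h1, h2, h3, h4⟩, hz⟩
    have hz0 : ∀ x, Q.lo x = 0 → x ∉ Q.fr → z x = 0 := by
      intro x hx hx'
      have h5 := hz x
      rw [LC_hi_eq hx', hx] at h5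
      push_cast at h5
      exact le_antisymm h5.2 h5.1
    have hz1 : ∀ g k, Q.hi (.e g k) ≠ 1 → z (.e g k) = 0 := by
      intro g k hg
      have h5 := h3.rng g k
      have h6 := hz (.e g k)
      have h7 : Q.hi (.e g k) = 0 := by
        rcases hi_cases Q (.e g k) with h8 | h8
        · omega
        · omega
      have h8 : Q.lo (.e g k) = 0 := by
        rcases hi_cases Q (.e g k) with h9 | h9
        · omega
        · omega
      rw [h7, h8] at h6
      push_cast at h6
      exact le_antisymm h6.2 h6.1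
    refine ⟨⟨blk 0 Q, h1, fun j => ?_⟩, fun g hg j => hz0 _ (h2 g hg j).1 (h2 g hg j).2, ?_, ?_, ?_, ?_⟩
    · rw [blk_lo, blk_hi]
      exact hz _
    · intro c
      have h5 := h3.rng c.1 c.2
      have h6 := hz (.e c.1 c.2)
      have h7 : (0 : ℝ) ≤ Q.lo (.e c.1 c.2) := by exact_mod_cast h5.1
      have h8 : (Q.hi (.e c.1 c.2) : ℝ) ≤ 1 := by exact_mod_cast h5.2
      exact ⟨h7.trans h6.1, h6.2.trans h8⟩
    · obtain ⟨g, k, h5⟩ := h3.one
      refine ⟨(g, k), ?_⟩
      have h6 := hz (.e g k)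
      have h7 := (h3.rng g k).2
      have h8 : (Q.hi (.e g k) : ℝ) ≤ 1 := by exact_mod_cast h7
      rw [h5] at h6
      push_cast at h6
      exact le_antisymm (h6.2.trans h8) h6.1
    · intro k g g' hg
      by_cases h5 : Q.hi (.e g k) = 1
      · right
        exact hz1 g' k fun h6 => hg (h3.col k g g' h5 h6)
      · left
        exact hz1 g k h5
    · intro c hc
      exact hz0 _ (h4 c.1 c.2 hc).1 (h4 c.1 c.2 hc).2
  · rintro ⟨⟨t, ht, h1⟩, h2, h3⟩
    obtain ⟨h4, h5⟩ := LC_mem M T ht z h1 h2 h3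
    exact ⟨_, h4, h5⟩

theorem phs_closed (M : ℕ) (T : Set (Cube J)) (hc : Closed T) :
    Closed (PHs (N := N) M T) := by
  rintro P ⟨h1, h2, h3, h4⟩ Q hQ
  exact ⟨hc _ h1 _ (blk_mono 0 hQ), fun g hg j => LC_face hQ (h2 g hg j).1 (h2 g hg j).2, ee_face hQ h3,
    fun g k hk => LC_face hQ (h4 g k hk).1 (h4 g k hk).2⟩

theorem phs_finite (M : ℕ) (T : Set (Cube J)) (hf : T.Finite) : (PHs (N := N) M T).Finite := by
  classical
  let lo : Cube J → JJ N J → ℤ := fun t x => match x with
    | .a g j => if g = 0 then t.lo j else 0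
    | .e _ _ => 0
  let up : Cube J → JJ N J → ℤ := fun t x => match x with
    | .a g j => if g = 0 then t.hi j else 0
    | .e _ k => if k < M then 1 else 0
  have h1 : ∀ t : Cube J, {Q : Cube (JJ N J) | ∀ x, lo t x ≤ Q.lo x ∧ Q.hi x ≤ up t x}.Finite := by
    intro t
    refine box_fin (t.fr.image (JJ.a 0) ∪ (Finset.univ ×ˢ Finset.range M).image (fun c => JJ.e c.1 c.2)) _ _ ?_
    intro x hx
    cases x with
    | a g j =>
      show (if g = 0 then t.lo j else 0) = if g = 0 then t.hi j else 0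
      by_cases hg : g = 0
      · rw [if_pos hg, if_pos hg]
        symm
        refine LC_hi_eq fun hj => hx (Finset.mem_union_left _ ?_)
        rw [hg]
        exact Finset.mem_image_of_mem _ hj
      · rw [if_neg hg, if_neg hg]
    | e g k =>
      show (0 : ℤ) = if k < M then 1 else 0
      by_cases hk : k < M
      · exfalso
        refine hx (Finset.mem_union_right _ (Finset.mem_image.2 ⟨(g, k), ?_, rfl⟩))
        rw [Finset.mem_product, Finset.mem_range]
        exact ⟨Finset.mem_univ _, hk⟩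
      · rw [if_neg hk]
  refine (hf.biUnion fun t _ => h1 t).subset ?_
  rintro Q ⟨q1, q2, q3, q4⟩
  rw [Set.mem_iUnion₂]
  refine ⟨blk 0 Q, q1, fun x => ?_⟩
  cases x with
  | a g j =>
    show (if g = 0 then (blk 0 Q).lo j else 0) ≤ Q.lo (.a g j) ∧ Q.hi (.a g j) ≤ if g = 0 then (blk 0 Q).hi j else 0
    by_cases hg : g = 0
    · subst hg
      rw [if_pos rfl, if_pos rfl, blk_lo, blk_hi]
      exact ⟨le_refl _, le_refl _⟩
    · rw [if_neg hg, if_neg hg, LC_hi_eq (q2 g hg j).2, (q2 g hg j).1]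
      exact ⟨le_refl _, le_refl _⟩
  | e g k =>
    show (0 : ℤ) ≤ Q.lo (.e g k) ∧ Q.hi (.e g k) ≤ if k < M then 1 else 0
    by_cases hk : k < M
    · rw [if_pos hk]
      exact q3.rng g k
    · have h2 := q4 g k (not_lt.1 hk)
      rw [if_neg hk, LC_hi_eq h2.2, h2.1]
      exact ⟨le_refl _, le_refl _⟩

theorem phs_spt (M : ℕ) (T : Set (Cube J)) (hs : Spt T) : Spt (PHs (N := N) M T) := by
  classical
  obtain ⟨F, hF⟩ := hs
  refine ⟨F.image (JJ.a 0) ∪ (Finset.univ ×ˢ Finset.range M).image (fun c => JJ.e c.1 c.2), ?_⟩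
  rintro Q ⟨q1, q2, q3, q4⟩ x hx
  cases x with
  | a g j =>
    by_cases hg : g = 0
    · subst hg
      have hj : j ∉ F := fun hj => hx (Finset.mem_union_left _ (Finset.mem_image_of_mem _ hj))
      have h1 := hF _ q1 j hj
      rw [blk_lo, mem_blk] at h1
      exact h1
    · exact q2 g hg j
  | e g k =>
    refine q4 g k ?_
    by_contra hk
    refine hx (Finset.mem_union_right _ (Finset.mem_image.2 ⟨(g, k), ?_, rfl⟩))
    rw [Finset.mem_product, Finset.mem_range]
    exact ⟨Finset.mem_univ _, not_le.1 hk⟩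

theorem sec_sub (M m : ℕ) (T : Set (Cube J)) : SEc (N := N) M m T ⊆ PHs M T := by
  rintro Q ⟨q1, q2, q3, q4, _⟩
  exact ⟨q1, q2, q3, q4⟩

theorem sec_closed (M m : ℕ) (T : Set (Cube J)) (hc : Closed T) :
    Closed (SEc (N := N) M m T) := by
  rintro P ⟨p1, p2, p3, p4, p5⟩ Q hQ
  obtain ⟨q1, q2, q3, q4⟩ := phs_closed (N := N) M T hc P ⟨p1, p2, p3, p4⟩ Q hQ
  exact ⟨q1, q2, q3, q4, (Cube.le_dim hQ).trans p5⟩

theorem sec_of_dim (M m : ℕ) (T : Set (Cube J)) (Q : Cube (JJ N J)) (hQ : Q ∈ PHs (N := N) M T)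
    (hd : Q.dim ≤ m) : Q ∈ SEc (N := N) M m T := by
  obtain ⟨q1, q2, q3, q4⟩ := hQ
  exact ⟨q1, q2, q3, q4, hd⟩

theorem sec_basic {J : Type} [LinearOrder J] {N : ℕ} [NeZero N] (m M : ℕ) (T : Set (Cube J))
    (hf : T.Finite) (hc : Closed T) (hs : Spt T) :
    (SEc (N := N) M m T).Finite ∧ Closed (SEc (N := N) M m T) ∧ Spt (SEc (N := N) M m T) ∧
      (Grd 8 (SEc (N := N) M m T)).Finite ∧ Spt (Grd 8 (SEc (N := N) M m T)) := by
  have h1 : (SEc (N := N) M m T).Finite := (phs_finite M T hf).subset (sec_sub M m T)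
  have h2 : Spt (SEc (N := N) M m T) := by
    obtain ⟨F, hF⟩ := phs_spt (N := N) M T hs
    exact ⟨F, fun Q hQ => hF Q (sec_sub M m T hQ)⟩
  exact ⟨h1, sec_closed M m T hc, h2, grd_fin 8 _ h1, grd_spt 8 _ h2⟩

end AGM
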