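import Pool.Agent.AGM.TPD

/-!
# AGM-TE1: the path between compatible points of the join

`epath s x x' a = min 1 (((1 - s) x a + s x' a) / max s (1 - s))`: the end points, continuity, and the values are
points of the join when `x` and `x'` are compatible.
-/

set_option autoImplicit false

noncomputable section

namespace AGM

open AGE Set Topology

private theorem te1_pos (s : ℝ) : 0 < max s (1 - s) := by
  rcases le_or_gt s (1 / 2) with h | h
  · exact lt_max_of_lt_right (by linarith)
  · exact lt_max_of_lt_left (by linarith)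

theorem epath_zero {N M : ℕ} (x x' : ZMod N × ℕ → ℝ) (hx : x ∈ EM N M) : epath 0 x x' = x := by
  funext a
  have h1 := (hx.1 a).2
  have h2 : max (0 : ℝ) (1 - 0) = 1 := by norm_num
  unfold epath
  rw [h2, sub_zero, one_mul, zero_mul, add_zero, div_one, min_eq_right h1]

theorem epath_one {N M : ℕ} (x x' : ZMod N × ℕ → ℝ) (hx' : x' ∈ EM N M) : epath 1 x x' = x' := by
  funext a
  have h1 := (hx'.1 a).2
  have h2 : max (1 : ℝ) (1 - 1) = 1 := by norm_num
  unfold epath
  rw [h2, sub_self, one_mul, zero_mul, zero_add, div_one, min_eq_right h1]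

theorem epath_continuous {N : ℕ} :
    Continuous fun p : ℝ × ((ZMod N × ℕ → ℝ) × (ZMod N × ℕ → ℝ)) => epath p.1 p.2.1 p.2.2 := by
  refine continuous_pi fun a => ?_
  unfold epath
  refine continuous_const.min (Continuous.div ?_ ?_ ?_)
  · have h1 : Continuous fun p : ℝ × ((ZMod N × ℕ → ℝ) × (ZMod N × ℕ → ℝ)) => p.2.1 a :=
      (continuous_apply a).comp (continuous_fst.comp continuous_snd)
    have h2 : Continuous fun p : ℝ × ((ZMod N × ℕ → ℝ) × (ZMod N × ℕ → ℝ)) => p.2.2 a :=
      (continuous_apply a).comp (continuous_snd.comp continuous_snd)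
    exact ((continuous_const.sub continuous_fst).mul h1).add (continuous_fst.mul h2)
  · exact continuous_fst.max (continuous_const.sub continuous_fst)
  · exact fun p => (te1_pos p.1).ne'

theorem epath_mem {N M : ℕ} (x x' : ZMod N × ℕ → ℝ) (hx : x ∈ EM N M) (hx' : x' ∈ EM N M)
    (h : Cmp x x') (s : ℝ) (hs : s ∈ Icc (0 : ℝ) 1) : epath s x x' ∈ EM N M := by
  have hp := te1_pos s
  have h0 : ∀ a, x a = 0 → x' a = 0 → epath s x x' a = 0 := by
    intro a e e'
    unfold epath
    rw [e, e', mul_zero, mul_zero, add_zero, zero_div]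
    exact min_eq_right zero_le_one
  refine ⟨fun a => ⟨?_, ?_⟩, ?_, ?_, ?_⟩
  · unfold epath
    refine le_min zero_le_one (div_nonneg ?_ hp.le)
    have h1 := mul_nonneg (sub_nonneg.2 hs.2) (hx.1 a).1
    have h2 := mul_nonneg hs.1 (hx'.1 a).1
    linarith
  · unfold epath
    exact min_le_left _ _
  · rcases le_total s (1 - s) with h1 | h1
    · obtain ⟨a, ha⟩ := hx.2.1
      refine ⟨a, ?_⟩
      unfold epath
      rw [max_eq_right h1] at hp ⊢
      refine min_eq_left ?_
      rw [le_div_iff₀ hp, ha]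
      have h2 := mul_nonneg hs.1 (hx'.1 a).1
      linarith
    · obtain ⟨a, ha⟩ := hx'.2.1
      refine ⟨a, ?_⟩
      unfold epath
      rw [max_eq_left h1] at hp ⊢
      refine min_eq_left ?_
      rw [le_div_iff₀ hp, ha]
      have h2 := mul_nonneg (sub_nonneg.2 hs.2) (hx.1 a).1
      linarith
  · intro k g g' hg
    have h1 := hx.2.2.1 k g g' hg
    have h2 := hx'.2.2.1 k g g' hg
    have h3 := h k g g' hg
    have h4 := h k g' g hg.symm
    have h5 : (x (g, k) = 0 ∧ x' (g, k) = 0) ∨ (x (g', k) = 0 ∧ x' (g', k) = 0) := by tauto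
    rcases h5 with h5 | h5
    · exact Or.inl (h0 _ h5.1 h5.2)
    · exact Or.inr (h0 _ h5.1 h5.2)
  · intro a ha
    exact h0 a (hx.2.2.2 a ha) (hx'.2.2.2 a ha)

end AGM
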