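import Pool.Agent.AGM.TPD
import Pool.Agent.AGM.TE1
import Pool.Agent.AGE.FT1

/-!
# AGM-TE2: homotopy extension for compatible maps into the join

Plan. `AGE.hep (E := Ei i) (Y := EM N M) (c := 0) (r := 1)` with `H s z = epath s (φ₀ z) (φ₁ z)` (TE1) and `U₁ = Φ`.
-/

set_option autoImplicit false

noncomputable section

namespace AGM

open AGE Set Topology

theorem cmp_ext {N M i : ℕ} (φ₀ φ₁ : Ei i → (ZMod N × ℕ → ℝ)) (h0 : ContinuousOn φ₀ (Sp i))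
    (h1 : ContinuousOn φ₁ (Sp i)) (m0 : MapsTo φ₀ (Sp i) (EM N M))
    (m1 : MapsTo φ₁ (Sp i) (EM N M)) (hc : ∀ z ∈ Sp i, Cmp (φ₀ z) (φ₁ z))
    (hE : ∃ Φ : Ei i → (ZMod N × ℕ → ℝ), ContinuousOn Φ (Bl i) ∧ MapsTo Φ (Bl i) (EM N M) ∧
      EqOn Φ φ₁ (Sp i)) :
    ∃ Φ : Ei i → (ZMod N × ℕ → ℝ), ContinuousOn Φ (Bl i) ∧ MapsTo Φ (Bl i) (EM N M) ∧
      EqOn Φ φ₀ (Sp i) := by
  obtain ⟨Φ, c1, c2, c3⟩ := hE
  have hH : ContinuousOn (fun q : ℝ × Ei i => epath q.1 (φ₀ q.2) (φ₁ q.2))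
      (Icc (0 : ℝ) 1 ×ˢ Metric.sphere (0 : Ei i) 1) := by
    have hm : MapsTo (fun q : ℝ × Ei i => q.2) (Icc (0 : ℝ) 1 ×ˢ Metric.sphere (0 : Ei i) 1)
        (Sp i) := fun q hq => hq.2
    exact epath_continuous.comp_continuousOn (continuous_fst.continuousOn.prodMk
      ((h0.comp continuous_snd.continuousOn hm).prodMk (h1.comp continuous_snd.continuousOn hm)))
  obtain ⟨U, u1, u2, u3⟩ := AGE.hep (EM N M) (0 : Ei i) 1 one_pos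
    (fun s z => epath s (φ₀ z) (φ₁ z)) hH
    (fun s hs z hz => epath_mem _ _ (m0 hz) (m1 hz) (hc z hz) s hs) Φ c1 (fun x hx => c2 hx)
    (fun x hx => (c3 hx).trans (epath_one _ _ (m1 hx)).symm)
  exact ⟨U, u1, fun x hx => u2 x hx, fun x hx => (u3 x hx).trans (epath_zero _ _ (m0 hx))⟩

end AGM
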