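import Pool.Agent.AGM.TPD

/-!
# AGM-TE3: the radial map of the simplex `max h = 1` to its boundary `min h = 0`

Plan. `ȳ = Fin.cons 0 y : Fin (m + 1) → ℝ`, `mx y = Finset.univ.sup' _ ȳ`, `mn y = Finset.univ.inf' _ ȳ` (continuous: `Continuous.finset_sup'_apply`, `Continuous.finset_inf'_apply`, or `Finset.continuous_sup'`-type lemmas; `continuous_pi` for `Fin.cons`, cases with `Fin.cases`), `osc = mx - mn`; `osc y > 0` for `y ≠ 0` (`ȳ 0 = 0`,
`ȳ k ≠ 0` for some `k`). `R y k = 1 + (ȳ k - mx y) / osc y`: between `0` and `1`, equal to `1` where the maximum is attained and to `0` where the minimum is attained. For `h` with `max h = 1`, `min h = 0`: `y k = h k.succ - h 0`, `ȳ k = h k - h 0`, `mx y = 1 - h 0`, `mn y = - h 0`, `osc y = 1`, `R y k = h k`.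
Norm: let `h a = 1`, `h b = 0`: `ȳ a - ȳ b = 1` and `|ȳ a|, |ȳ b| ≤ ‖y‖`, so `‖y‖ ≥ 1/2`, in particular `y ≠ 0`.
-/

set_option autoImplicit false

noncomputable section

namespace AGM

open AGE Set Topology

private def TE3_b {m : ℕ} (y : Fin m → ℝ) (k : Fin (m + 1)) : ℝ := Fin.cons (α := fun _ => ℝ) 0 y k

private theorem TE3_b0 {m : ℕ} (y : Fin m → ℝ) : TE3_b y 0 = 0 := Fin.cons_zero _ _

private theorem TE3_bs {m : ℕ} (y : Fin m → ℝ) (k : Fin m) : TE3_b y k.succ = y k :=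
  Fin.cons_succ _ _ _

private theorem TE3_bc {m : ℕ} (k : Fin (m + 1)) : Continuous fun y : Fin m → ℝ => TE3_b y k := by
  refine Fin.cases ?_ (fun j => ?_) k
  · have h : (fun y : Fin m → ℝ => TE3_b y 0) = fun _ => 0 := funext TE3_b0
    rw [h]
    exact continuous_const
  · have h : (fun y : Fin m → ℝ => TE3_b y j.succ) = fun y => y j := funext fun y => TE3_bs y j
    rw [h]
    exact continuous_apply j

private def TE3_mx {m : ℕ} (y : Fin m → ℝ) : ℝ :=
  Finset.univ.sup' Finset.univ_nonempty fun k : Fin (m + 1) => TE3_b y k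

private def TE3_mn {m : ℕ} (y : Fin m → ℝ) : ℝ :=
  Finset.univ.inf' Finset.univ_nonempty fun k : Fin (m + 1) => TE3_b y k

private theorem TE3_le {m : ℕ} (y : Fin m → ℝ) (k : Fin (m + 1)) : TE3_b y k ≤ TE3_mx y :=
  Finset.le_sup' (fun k : Fin (m + 1) => TE3_b y k) (Finset.mem_univ k)

private theorem TE3_ge {m : ℕ} (y : Fin m → ℝ) (k : Fin (m + 1)) : TE3_mn y ≤ TE3_b y k :=
  Finset.inf'_le (fun k : Fin (m + 1) => TE3_b y k) (Finset.mem_univ k)

private theorem TE3_osc {m : ℕ} {y : Fin m → ℝ} (hy : y ≠ 0) : 0 < TE3_mx y - TE3_mn y := by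
  obtain ⟨k, hk⟩ := Function.ne_iff.1 hy
  have hk' : y k ≠ 0 := hk
  have h1 := TE3_le y 0
  have h2 := TE3_le y k.succ
  have h3 := TE3_ge y 0
  have h4 := TE3_ge y k.succ
  rw [TE3_b0] at h1 h3
  rw [TE3_bs] at h2 h4
  rcases lt_or_gt_of_ne hk' with h | h
  · linarith
  · linarith

private theorem TE3_norm {m : ℕ} (y : Fin m → ℝ) (k : Fin (m + 1)) : |TE3_b y k| ≤ ‖y‖ := by
  refine Fin.cases ?_ (fun j => ?_) k
  · rw [TE3_b0, abs_zero]
    exact norm_nonneg y
  · rw [TE3_bs, ← Real.norm_eq_abs]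
    exact norm_le_pi_norm y j

theorem rad_exists (m : ℕ) : ∃ R : (Fin m → ℝ) → (Fin (m + 1) → ℝ),
    ContinuousOn R {y | y ≠ 0} ∧
    (∀ y, y ≠ 0 → (∀ k, 0 ≤ R y k ∧ R y k ≤ 1) ∧ (∃ k, R y k = 1) ∧ ∃ k, R y k = 0) ∧
    ∀ h : Fin (m + 1) → ℝ, (∀ k, 0 ≤ h k ∧ h k ≤ 1) → (∃ k, h k = 1) → (∃ k, h k = 0) →
      R (fun k => h k.succ - h 0) = h ∧ 1 / 2 ≤ ‖(fun k : Fin m => h k.succ - h 0)‖ := by
  have hmx : Continuous (TE3_mx : (Fin m → ℝ) → ℝ) :=
    Continuous.finset_sup'_apply Finset.univ_nonempty fun k _ => TE3_bc k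
  have hmn : Continuous (TE3_mn : (Fin m → ℝ) → ℝ) :=
    Continuous.finset_inf'_apply Finset.univ_nonempty fun k _ => TE3_bc k
  refine ⟨fun y k => 1 + (TE3_b y k - TE3_mx y) / (TE3_mx y - TE3_mn y), ?_, ?_, ?_⟩
  · refine continuousOn_pi.2 fun k => ?_
    refine ContinuousOn.add continuousOn_const ?_
    refine ContinuousOn.div ((TE3_bc k).sub hmx).continuousOn (hmx.sub hmn).continuousOn ?_
    intro y hy
    exact (TE3_osc hy).ne'
  · intro y hy
    have ho := TE3_osc hy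
    refine ⟨fun k => ⟨?_, ?_⟩, ?_, ?_⟩
    · show 0 ≤ 1 + (TE3_b y k - TE3_mx y) / (TE3_mx y - TE3_mn y)
      have h1 : -1 ≤ (TE3_b y k - TE3_mx y) / (TE3_mx y - TE3_mn y) := by
        rw [le_div_iff₀ ho]
        linarith [TE3_ge y k]
      linarith
    · show 1 + (TE3_b y k - TE3_mx y) / (TE3_mx y - TE3_mn y) ≤ 1
      have h1 : (TE3_b y k - TE3_mx y) / (TE3_mx y - TE3_mn y) ≤ 0 :=
        div_nonpos_of_nonpos_of_nonneg (by linarith [TE3_le y k]) ho.le
      linarith
    · obtain ⟨k, _, hk⟩ := Finset.exists_mem_eq_sup' Finset.univ_nonempty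
        (fun k : Fin (m + 1) => TE3_b y k)
      refine ⟨k, ?_⟩
      have hk' : TE3_mx y = TE3_b y k := hk
      show 1 + (TE3_b y k - TE3_mx y) / (TE3_mx y - TE3_mn y) = 1
      rw [← hk', sub_self, zero_div, add_zero]
    · obtain ⟨k, _, hk⟩ := Finset.exists_mem_eq_inf' Finset.univ_nonempty
        (fun k : Fin (m + 1) => TE3_b y k)
      refine ⟨k, ?_⟩
      have hk' : TE3_mn y = TE3_b y k := hk
      show 1 + (TE3_b y k - TE3_mx y) / (TE3_mx y - TE3_mn y) = 0
      have h1 : (TE3_b y k - TE3_mx y) / (TE3_mx y - TE3_mn y) = -1 := by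
        rw [div_eq_iff ho.ne', ← hk']
        ring
      rw [h1]
      ring
  · intro h h01 ha hb
    obtain ⟨a, ha⟩ := ha
    obtain ⟨b, hb⟩ := hb
    have hbar : ∀ k, TE3_b (fun k : Fin m => h k.succ - h 0) k = h k - h 0 := by
      intro k
      refine Fin.cases ?_ (fun j => ?_) k
      · rw [TE3_b0, sub_self]
      · rw [TE3_bs]
    have h1 : TE3_mx (fun k : Fin m => h k.succ - h 0) = 1 - h 0 := by
      refine le_antisymm ?_ ?_
      · refine Finset.sup'_le _ _ fun k _ => ?_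
        rw [hbar]
        linarith [(h01 k).2]
      · have h2 := TE3_le (fun k : Fin m => h k.succ - h 0) a
        rw [hbar, ha] at h2
        exact h2
    have h2 : TE3_mn (fun k : Fin m => h k.succ - h 0) = - h 0 := by
      refine le_antisymm ?_ ?_
      · have h3 := TE3_ge (fun k : Fin m => h k.succ - h 0) b
        rw [hbar, hb] at h3
        linarith
      · refine Finset.le_inf' _ _ fun k _ => ?_
        rw [hbar]
        linarith [(h01 k).1]
    constructor
    · funext k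
      show 1 + (TE3_b (fun k : Fin m => h k.succ - h 0) k - TE3_mx (fun k : Fin m => h k.succ - h 0)) /
        (TE3_mx (fun k : Fin m => h k.succ - h 0) - TE3_mn (fun k : Fin m => h k.succ - h 0)) = h k
      rw [hbar, h1, h2]
      have h3 : (1 - h 0) - (- h 0) = 1 := by ring
      rw [h3, div_one]
      ring
    · have h3 := TE3_norm (fun k : Fin m => h k.succ - h 0) a
      have h4 := TE3_norm (fun k : Fin m => h k.succ - h 0) b
      rw [hbar] at h3 h4
      rw [ha] at h3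
      rw [hb] at h4
      have h5 := le_abs_self (1 - h 0)
      have h6 := neg_abs_le (0 - h 0)
      linarith

end AGM
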