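import Pool.Agent.AGM.TPD

/-!
# AGM-TM1: perturbing a map of an `i`-dimensional compact set off the point `0`

Plan. (1) Tietze: `hZ.isClosed`, `f` restricted to `Z` is continuous, `ContinuousMap.exists_restrict_eq` (instance `TietzeExtension (ι → ℝ)`) gives a continuous `F : Ei i → (ι → ℝ)` with `F = f` on `Z`.
(2) `Continuous.exists_contDiff_approx` (Mathlib.Geometry.Manifold.SmoothApprox, with `n = 1`, constant `ε/4`) gives `g`, `ContDiff ℝ 1 g`, `‖g z - F z‖ < ε/4` for all `z`.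
(3) `ContDiff.dense_compl_range_of_finrank_lt_finrank` (`finrank ℝ (Ei i) = i < card ι = finrank ℝ (ι → ℝ)`): there is `c ∉ range g` with `‖c‖ < ε/4`.
(4) `f₁ z = f z + θ (‖f z‖) • (g z - c - f z)`, `θ t = max 0 (min 1 (2 - t / ε))` (`1` for `t ≤ ε`, `0` for `t ≥ 2 ε`, between `0` and `1`). `‖g z - c - f z‖ < ε/2`. If `‖f z‖ ≤ ε` then `f₁ z = g z - c ≠ 0`; if `‖f z‖ > ε` then
`‖f₁ z‖ ≥ ε - ε/2 > 0`.
-/

set_option autoImplicit false

noncomputable section

namespace AGM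

open AGE Set Topology

theorem miss0T (i : ℕ) (ι : Type) [Fintype ι] (hi : i < Fintype.card ι) (Z : Set (Ei i))
    (hZ : IsCompact Z) (f : Ei i → (ι → ℝ)) (hf : ContinuousOn f Z) (ε : ℝ) (hε : 0 < ε) :
    ∃ f₁ : Ei i → (ι → ℝ), ContinuousOn f₁ Z ∧ ∀ z ∈ Z, f₁ z ≠ 0 ∧ ‖f₁ z - f z‖ ≤ ε ∧
      (2 * ε ≤ ‖f z‖ → f₁ z = f z) := by
  obtain ⟨F, hF⟩ := ContinuousMap.exists_restrict_eq (Y := ι → ℝ) hZ.isClosed
    (⟨Z.domRestrict f, hf.domRestrict⟩ : C(Z, ι → ℝ))
  have hF' : ∀ z ∈ Z, F z = f z := fun z hz => by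
    have h := DFunLike.congr_fun hF ⟨z, hz⟩
    exact h
  obtain ⟨g, hg, hgF, -⟩ := F.continuous.exists_contDiff_approx (F := ι → ℝ) (n := 1)
    (ε := fun _ => ε / 4) continuous_const (fun _ => by positivity)
  have hfr : Module.finrank ℝ (Ei i) < Module.finrank ℝ (ι → ℝ) := by
    rw [Module.finrank_fintype_fun_eq_card]
    simpa using hi
  have hd := ContDiff.dense_compl_range_of_finrank_lt_finrank (by exact_mod_cast hg) hfr
  obtain ⟨c, hc1, hc2⟩ := hd.exists_dist_lt (0 : ι → ℝ) (by positivity : 0 < ε / 4)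
  have hc : ‖c‖ < ε / 4 := by rwa [dist_zero_left] at hc2
  set θ : ℝ → ℝ := fun t => max 0 (min 1 (2 - t / ε)) with hθ
  have hθc : Continuous θ := by
    rw [hθ]
    fun_prop
  have hθ0 : ∀ t, 0 ≤ θ t := fun t => le_max_left _ _
  have hθ1 : ∀ t, θ t ≤ 1 := fun t => max_le zero_le_one (min_le_left _ _)
  have hdif : ∀ z ∈ Z, ‖g z - c - f z‖ < ε / 2 := by
    intro z hz
    have h1 : ‖g z - F z‖ < ε / 4 := by
      rw [← dist_eq_norm]
      exact hgF z
    rw [← hF' z hz]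
    calc ‖g z - c - F z‖ = ‖(g z - F z) - c‖ := by congr 1; abel
      _ ≤ ‖g z - F z‖ + ‖c‖ := norm_sub_le _ _
      _ < ε / 2 := by linarith
  have hsm : ∀ z ∈ Z, ‖θ ‖f z‖ • (g z - c - f z)‖ < ε / 2 := by
    intro z hz
    rw [norm_smul, Real.norm_of_nonneg (hθ0 _)]
    exact lt_of_le_of_lt (mul_le_of_le_one_left (norm_nonneg _) (hθ1 _)) (hdif z hz)
  refine ⟨fun z => f z + θ ‖f z‖ • (g z - c - f z), ?_, fun z hz => ⟨?_, ?_, ?_⟩⟩
  · exact hf.add ((hθc.comp_continuousOn hf.norm).smul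
      ((hg.continuous.continuousOn.sub continuousOn_const).sub hf))
  · rcases le_or_gt ‖f z‖ ε with h | h
    · have h1 : θ ‖f z‖ = 1 := by
        have h2 : ‖f z‖ / ε ≤ 1 := (div_le_one hε).2 h
        rw [hθ]
        simp only
        rw [min_eq_left (by linarith), max_eq_right zero_le_one]
      simp only [h1, one_smul]
      intro h3
      refine hc1 ⟨z, ?_⟩
      have h4 : g z - c = 0 := by
        rw [← h3]
        abel
      exact sub_eq_zero.1 h4
    · intro h3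
      have h4 := hsm z hz
      have h5 : f z = -(θ ‖f z‖ • (g z - c - f z)) := eq_neg_of_add_eq_zero_left h3
      have h6 : ‖f z‖ < ε / 2 := by
        calc ‖f z‖ = ‖-(θ ‖f z‖ • (g z - c - f z))‖ := congrArg norm h5
          _ = ‖θ ‖f z‖ • (g z - c - f z)‖ := norm_neg _
          _ < ε / 2 := h4
      linarith
  · have h1 : f z + θ ‖f z‖ • (g z - c - f z) - f z = θ ‖f z‖ • (g z - c - f z) := by abel
    simp only [h1]
    exact (hsm z hz).le.trans (by linarith)
  · intro h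
    have h1 : θ ‖f z‖ = 0 := by
      have h2 : 2 ≤ ‖f z‖ / ε := (le_div_iff₀ hε).2 h
      rw [hθ]
      simp only
      exact max_eq_left ((min_le_right _ _).trans (by linarith))
    simp only [h1, zero_smul, add_zero]

end AGM
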