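import Pool.Agent.AGM.TPD
import Pool.Agent.AGM.TM1
import Pool.Agent.AGM.TE3

/-!
# AGM-TE4: pushing a map into the join off the centre of one top simplex

Plan. Let `h z k = φ z (γ k, k)` (`k : Fin (m + 1)`), `Z₁ = {z ∈ Z | Leg γ (φ z)}`, `Z₂ = {z ∈ Z | ∃ k, h z k = 0}`: closed in `Z` (finite unions and intersections of preimages of `{0}`), `Z = Z₁ ∪ Z₂` (if `Leg γ (φ z)` fails then `φ z (g, k) ≠ 0` for some `g ≠ γ k`, so `φ z (γ k, k) = 0` as `φ z ∈ EM`).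
For `z ∈ Z₁`: `0 ≤ h ≤ 1` and `h z k = 1` for some `k` (the coordinate equal to `1` is `(g, k)` with `k < m + 1` and `g = γ k`). `Z₁` is compact; `miss0T i (Fin m)` with `y z = fun k => h z k.succ - h z 0` on `Z₁`, `ε = 1/4`, gives `y₁`, `y₁ z ≠ 0`, `y₁ z = y z` if `‖y z‖ ≥ 1/2`, in particular on `Z₁ ∩ Z₂` (`rad_exists`).
`Φ z (g, k) = R (y₁ z) ⟨k, _⟩` if `k < m + 1` and `g = γ ⟨k, _⟩`, `0` otherwise: in `EM`, `Leg γ`, `Emp`, continuous on `Z₁` (coordinate by coordinate), equal to `φ z` on `Z₁ ∩ Z₂` (`R (y z) = h z`, and the other coordinates of `φ z` are `0`). `φ' z = φ z` if `z ∈ Z₂`, `Φ z` otherwise (classical); on `Z₁` it is `Φ z`.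
Continuity: two closed pieces. `Leg γ'`: if `z ∈ Z₂` trivial; otherwise all `h z k ≠ 0`, so `Leg γ' (φ z)` implies `γ' = γ`. `Emp`: for `z ∈ Z₁` always true; for `z ∉ Z₁` (so `z ∈ Z₂`) `φ' z = φ z`.
-/

set_option autoImplicit false

noncomputable section

namespace AGM

open AGE Set Topology

open scoped Classical in
/-- the pushed point -/
private def te4_P {N m : ℕ} (γ : Fin (m + 1) → ZMod N) (r : Fin (m + 1) → ℝ)
    (a : ZMod N × ℕ) : ℝ :=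
  if h : a.2 < m + 1 then (if a.1 = γ ⟨a.2, h⟩ then r ⟨a.2, h⟩ else 0) else 0

private theorem te4_on {N m : ℕ} (γ : Fin (m + 1) → ZMod N) (r : Fin (m + 1) → ℝ)
    (k : Fin (m + 1)) : te4_P γ r (γ k, (k : ℕ)) = r k := by
  unfold te4_P
  rw [dif_pos k.2, if_pos rfl]

private theorem te4_off {N m : ℕ} (γ : Fin (m + 1) → ZMod N) (r : Fin (m + 1) → ℝ)
    (k : Fin (m + 1)) (g : ZMod N) (h : g ≠ γ k) : te4_P γ r (g, (k : ℕ)) = 0 := by
  unfold te4_P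
  rw [dif_pos k.2, if_neg h]

private theorem te4_big {N m : ℕ} (γ : Fin (m + 1) → ZMod N) (r : Fin (m + 1) → ℝ)
    (a : ZMod N × ℕ) (h : m + 1 ≤ a.2) : te4_P γ r a = 0 := by
  unfold te4_P
  rw [dif_neg (not_lt.2 h)]

private theorem te4_EM {N m : ℕ} (γ : Fin (m + 1) → ZMod N) (r : Fin (m + 1) → ℝ)
    (h1 : ∀ k, 0 ≤ r k ∧ r k ≤ 1) (h2 : ∃ k, r k = 1) : te4_P γ r ∈ EM N (m + 1) := by
  refine ⟨fun a => ?_, ?_, fun k g g' hg => ?_, fun a ha => te4_big γ r a ha⟩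
  · by_cases ha : m + 1 ≤ a.2
    · rw [te4_big γ r a ha]
      exact ⟨le_rfl, zero_le_one⟩
    · push Not at ha
      by_cases hg : a.1 = γ ⟨a.2, ha⟩
      · have e : a = (γ ⟨a.2, ha⟩, ((⟨a.2, ha⟩ : Fin (m + 1)) : ℕ)) := Prod.ext hg rfl
        rw [e, te4_on]
        exact h1 _
      · have e : te4_P γ r a = 0 := te4_off γ r ⟨a.2, ha⟩ a.1 hg
        rw [e]
        exact ⟨le_rfl, zero_le_one⟩
  · obtain ⟨k, hk⟩ := h2
    exact ⟨(γ k, (k : ℕ)), by rw [te4_on]; exact hk⟩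
  · by_cases ha : m + 1 ≤ k
    · exact Or.inl (te4_big γ r (g, k) ha)
    · push Not at ha
      by_cases hg1 : g = γ ⟨k, ha⟩
      · right
        refine te4_off γ r ⟨k, ha⟩ g' ?_
        rw [← hg1]
        exact hg.symm
      · left
        exact te4_off γ r ⟨k, ha⟩ g hg1

private theorem te4_emp {N m : ℕ} (γ : Fin (m + 1) → ZMod N) (r : Fin (m + 1) → ℝ)
    (h : ∃ k, r k = 0) : Emp (m + 1) (te4_P γ r) := by
  obtain ⟨k, hk⟩ := h
  refine ⟨(k : ℕ), k.2, fun g => ?_⟩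
  by_cases hg : g = γ k
  · rw [hg, te4_on]
    exact hk
  · exact te4_off γ r k g hg

private theorem te4_eq {N m : ℕ} (γ : Fin (m + 1) → ZMod N) (x : ZMod N × ℕ → ℝ)
    (hx : x ∈ EM N (m + 1)) (hL : Leg γ x) (r : Fin (m + 1) → ℝ)
    (hr : r = fun k => x (γ k, (k : ℕ))) : te4_P γ r = x := by
  funext a
  by_cases ha : m + 1 ≤ a.2
  · rw [te4_big γ r a ha]
    exact (hx.2.2.2 a ha).symm
  · push Not at ha
    by_cases hg : a.1 = γ ⟨a.2, ha⟩
    · have e : a = (γ ⟨a.2, ha⟩, ((⟨a.2, ha⟩ : Fin (m + 1)) : ℕ)) := Prod.ext hg rfl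
      rw [e, te4_on, hr]
    · have e : te4_P γ r a = 0 := te4_off γ r ⟨a.2, ha⟩ a.1 hg
      rw [e]
      exact (hL ⟨a.2, ha⟩ a.1 hg).symm

private theorem te4_cont {N m i : ℕ} (γ : Fin (m + 1) → ZMod N) (r : Ei i → Fin (m + 1) → ℝ)
    (Z : Set (Ei i)) (hr : ContinuousOn r Z) : ContinuousOn (fun z => te4_P γ (r z)) Z := by
  rw [continuousOn_pi]
  intro a
  by_cases ha : m + 1 ≤ a.2
  · have e : (fun z => te4_P γ (r z) a) = fun _ => (0 : ℝ) := by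
      funext z
      exact te4_big γ (r z) a ha
    rw [e]
    exact continuousOn_const
  · push Not at ha
    by_cases hg : a.1 = γ ⟨a.2, ha⟩
    · have e : (fun z => te4_P γ (r z) a) = fun z => r z ⟨a.2, ha⟩ := by
        funext z
        have e : a = (γ ⟨a.2, ha⟩, ((⟨a.2, ha⟩ : Fin (m + 1)) : ℕ)) := Prod.ext hg rfl
        have e2 := te4_on γ (r z) ⟨a.2, ha⟩
        rw [← e] at e2
        exact e2
      rw [e]
      exact (continuousOn_pi.1 hr) ⟨a.2, ha⟩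
    · have e : (fun z => te4_P γ (r z) a) = fun _ => (0 : ℝ) := by
        funext z
        exact te4_off γ (r z) ⟨a.2, ha⟩ a.1 hg
      rw [e]
      exact continuousOn_const

theorem emp_step {N i m : ℕ} [NeZero N] (hi : i < m) (Z : Set (Ei i)) (hZ : IsCompact Z)
    (φ : Ei i → (ZMod N × ℕ → ℝ)) (hφ : ContinuousOn φ Z) (hm : MapsTo φ Z (EM N (m + 1)))
    (γ : Fin (m + 1) → ZMod N) :
    ∃ φ' : Ei i → (ZMod N × ℕ → ℝ), ContinuousOn φ' Z ∧ MapsTo φ' Z (EM N (m + 1)) ∧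
      (∀ z ∈ Z, ∀ γ' : Fin (m + 1) → ZMod N, Leg γ' (φ z) → Leg γ' (φ' z)) ∧
      (∀ z ∈ Z, Emp (m + 1) (φ z) → Emp (m + 1) (φ' z)) ∧
      ∀ z ∈ Z, Leg γ (φ z) → Emp (m + 1) (φ' z) := by
  classical
  obtain ⟨R, hRc, hR1, hR2⟩ := rad_exists m
  have hco : ∀ a, ContinuousOn (fun z => φ z a) Z := fun a => (continuousOn_pi.1 hφ) a
  have hcl : ∀ a, IsClosed (Z ∩ (fun z => φ z a) ⁻¹' {0}) := fun a =>
    (hco a).preimage_isClosed_of_isClosed hZ.isClosed isClosed_singleton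
  let Z₁ : Set (Ei i) := {z | z ∈ Z ∧ Leg γ (φ z)}
  let Z₂ : Set (Ei i) := {z | z ∈ Z ∧ ∃ k : Fin (m + 1), φ z (γ k, (k : ℕ)) = 0}
  have hZ1s : Z₁ ⊆ Z := fun z hz => hz.1
  have hZ2s : Z₂ ⊆ Z := fun z hz => hz.1
  have hZ1c : IsClosed Z₁ := by
    have e : Z₁ = Z ∩ ⋂ (k : Fin (m + 1)), ⋂ (g : ZMod N), ⋂ (_ : g ≠ γ k),
        (Z ∩ (fun z => φ z (g, (k : ℕ))) ⁻¹' {0}) := by
      ext z
      simp only [Set.mem_inter_iff, Set.mem_iInter, Set.mem_preimage, Set.mem_singleton_iff]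
      constructor
      · rintro ⟨h1, h2⟩
        exact ⟨h1, fun k g hg => ⟨h1, h2 k g hg⟩⟩
      · rintro ⟨h1, h2⟩
        exact ⟨h1, fun k g hg => (h2 k g hg).2⟩
    rw [e]
    exact hZ.isClosed.inter (isClosed_iInter fun k => isClosed_iInter fun g =>
      isClosed_iInter fun _ => hcl _)
  have hZ2c : IsClosed Z₂ := by
    have e : Z₂ = ⋃ (k : Fin (m + 1)), (Z ∩ (fun z => φ z (γ k, (k : ℕ))) ⁻¹' {0}) := by
      ext z
      simp only [Set.mem_inter_iff, Set.mem_iUnion, Set.mem_preimage, Set.mem_singleton_iff]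
      constructor
      · rintro ⟨h1, k, h2⟩
        exact ⟨k, h1, h2⟩
      · rintro ⟨k, h1, h2⟩
        exact ⟨h1, k, h2⟩
    rw [e]
    exact isClosed_iUnion_of_finite fun k => hcl _
  have hcov : ∀ z ∈ Z, z ∈ Z₁ ∨ z ∈ Z₂ := by
    intro z hz
    by_cases hL : Leg γ (φ z)
    · exact Or.inl ⟨hz, hL⟩
    · right
      unfold Leg at hL
      push Not at hL
      obtain ⟨k, g, hg, hne⟩ := hL
      refine ⟨hz, k, ?_⟩
      rcases (hm hz).2.2.1 (k : ℕ) g (γ k) hg with h | h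
      · exact absurd h hne
      · exact h
  have hZ1k : IsCompact Z₁ := hZ.of_isClosed_subset hZ1c hZ1s
  have h01 : ∀ z ∈ Z, ∀ k : Fin (m + 1), 0 ≤ φ z (γ k, (k : ℕ)) ∧ φ z (γ k, (k : ℕ)) ≤ 1 :=
    fun z hz k => (hm hz).1 _
  have hone : ∀ z ∈ Z₁, ∃ k : Fin (m + 1), φ z (γ k, (k : ℕ)) = 1 := by
    rintro z ⟨hz, hL⟩
    obtain ⟨a, ha⟩ := (hm hz).2.1
    have h1 : a.2 < m + 1 := by
      by_contra hcon
      push Not at hcon
      rw [(hm hz).2.2.2 a hcon] at ha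
      exact zero_ne_one ha
    refine ⟨⟨a.2, h1⟩, ?_⟩
    have h2 : a.1 = γ ⟨a.2, h1⟩ := by
      by_contra hcon
      have h3 := hL ⟨a.2, h1⟩ a.1 hcon
      have h4 : φ z a = 0 := h3
      rw [h4] at ha
      exact zero_ne_one ha
    have e : (γ ⟨a.2, h1⟩, ((⟨a.2, h1⟩ : Fin (m + 1)) : ℕ)) = a := Prod.ext h2.symm rfl
    rw [e]
    exact ha
  have hfc : ContinuousOn (fun z => fun k : Fin m =>
      φ z (γ k.succ, (k.succ : ℕ)) - φ z (γ 0, ((0 : Fin (m + 1)) : ℕ))) Z₁ := by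
    rw [continuousOn_pi]
    intro k
    exact ((hco _).mono hZ1s).sub ((hco _).mono hZ1s)
  obtain ⟨y, hyc, hy⟩ := miss0T i (Fin m) (by rw [Fintype.card_fin]; exact hi) Z₁ hZ1k _ hfc (1 / 4)
    (by norm_num)
  have hrc : ContinuousOn (fun z => R (y z)) Z₁ :=
    hRc.comp hyc fun z hz => (hy z hz).1
  have hboth : ∀ z, z ∈ Z₁ → z ∈ Z₂ → te4_P γ (R (y z)) = φ z := by
    intro z hz1 hz2
    refine te4_eq γ (φ z) (hm hz1.1) hz1.2 _ ?_
    have h1 := hR2 (fun k => φ z (γ k, (k : ℕ))) (h01 z hz1.1) (hone z hz1) hz2.2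
    have h2 := (hy z hz1).2.2 (by
      have h3 := h1.2
      linarith)
    rw [h2]
    exact h1.1
  have hP : ∀ z ∈ Z₁, te4_P γ (R (y z)) ∈ EM N (m + 1) := fun z hz =>
    te4_EM γ _ (hR1 _ (hy z hz).1).1 (hR1 _ (hy z hz).1).2.1
  have hE : ∀ z ∈ Z₁, Emp (m + 1) (te4_P γ (R (y z))) := fun z hz =>
    te4_emp γ _ (hR1 _ (hy z hz).1).2.2
  let ψ : Ei i → (ZMod N × ℕ → ℝ) := fun z => if z ∈ Z₂ then φ z else te4_P γ (R (y z))
  have hψ2 : ∀ z ∈ Z₂, ψ z = φ z := fun z hz => if_pos hz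
  have hψ1 : ∀ z ∈ Z₁, ψ z = te4_P γ (R (y z)) := by
    intro z hz
    by_cases h2 : z ∈ Z₂
    · rw [hψ2 z h2, hboth z hz h2]
    · exact if_neg h2
  have hZu : Z = Z₁ ∪ Z₂ := by
    ext z
    constructor
    · intro hz
      exact hcov z hz
    · rintro (h | h)
      · exact h.1
      · exact h.1
  refine ⟨ψ, ?_, ?_, ?_, ?_, ?_⟩
  · rw [hZu]
    refine ContinuousOn.union_of_isClosed ?_ ?_ hZ1c hZ2c
    · exact (te4_cont γ _ Z₁ hrc).congr hψ1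
    · exact (hφ.mono hZ2s).congr hψ2
  · intro z hz
    rcases hcov z hz with h | h
    · rw [hψ1 z h]
      exact hP z h
    · rw [hψ2 z h]
      exact hm hz
  · intro z hz γ' hL
    by_cases h2 : z ∈ Z₂
    · rw [hψ2 z h2]
      exact hL
    · have h1 : z ∈ Z₁ := (hcov z hz).resolve_right h2
      rw [hψ1 z h1]
      have hγ : γ' = γ := by
        funext k
        by_contra hne
        apply h2
        exact ⟨hz, k, hL k (γ k) (fun h => hne h.symm)⟩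
      rw [hγ]
      intro k g hg
      exact te4_off γ _ k g hg
  · intro z hz hEm
    rcases hcov z hz with h | h
    · rw [hψ1 z h]
      exact hE z h
    · rw [hψ2 z h]
      exact hEm
  · intro z hz hL
    have h1 : z ∈ Z₁ := ⟨hz, hL⟩
    rw [hψ1 z h1]
    exact hE z h1

end AGM
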