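import Pool.Agent.AGM.TPD
import Pool.Agent.AGM.TE4

/-!
# AGM-TE5: making a column empty at every point

Plan. For every finite set `S` of functions `γ : Fin (m + 1) → ZMod N` (induction, `Finset.induction_on`, step `emp_step`) there is `φ'`, continuous on `Z`, into `EM`, with `Leg γ' (φ z) → Leg γ' (φ' z)` for all `γ'` and `Leg γ (φ z) → Emp (φ' z)` for `γ ∈ S`. Take `S = univ` (`ZMod.fintype`, `NeZero N`).
Every `x ∈ EM` satisfies `Leg γ x` for some `γ` (choose `γ k` with `x (γ k, k) ≠ 0` if there is one). So `Emp (φ' z)` and `Cmp (φ z) (φ' z)`: in a column `k < m + 1` both points use only the leg `γ k`; in a column `k ≥ m + 1` both are `0`.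
-/

set_option autoImplicit false

noncomputable section

namespace AGM

open AGE Set Topology

private theorem TE5_leg {N m : ℕ} (x : ZMod N × ℕ → ℝ) (hx : x ∈ EM N (m + 1)) :
    ∃ γ : Fin (m + 1) → ZMod N, Leg γ x := by
  classical
  refine ⟨fun k => if h : ∃ g : ZMod N, x (g, (k : ℕ)) ≠ 0 then h.choose else 0, ?_⟩
  intro k g hg
  by_cases h : ∃ g : ZMod N, x (g, (k : ℕ)) ≠ 0
  · simp only [h, dif_pos] at hg
    rcases hx.2.2.1 (k : ℕ) g h.choose hg with h1 | h1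
    · exact h1
    · exact absurd h1 h.choose_spec
  · push Not at h
    exact h g

private theorem TE5_fin {N i m : ℕ} [NeZero N] (hi : i < m) (Z : Set (Ei i)) (hZ : IsCompact Z)
    (φ : Ei i → (ZMod N × ℕ → ℝ)) (hφ : ContinuousOn φ Z) (hm : MapsTo φ Z (EM N (m + 1)))
    (S : Finset (Fin (m + 1) → ZMod N)) :
    ∃ φ' : Ei i → (ZMod N × ℕ → ℝ), ContinuousOn φ' Z ∧ MapsTo φ' Z (EM N (m + 1)) ∧
      (∀ z ∈ Z, ∀ γ' : Fin (m + 1) → ZMod N, Leg γ' (φ z) → Leg γ' (φ' z)) ∧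
      ∀ z ∈ Z, ∀ γ ∈ S, Leg γ (φ z) → Emp (m + 1) (φ' z) := by
  classical
  induction S using Finset.induction_on with
  | empty =>
    exact ⟨φ, hφ, hm, fun _ _ _ h => h, fun _ _ γ hγ => absurd hγ (Finset.notMem_empty γ)⟩
  | insert γ S hγ ih =>
    obtain ⟨φ₀, h1, h2, h3, h4⟩ := ih
    obtain ⟨φ₁, k1, k2, k3, k4, k5⟩ := emp_step hi Z hZ φ₀ h1 h2 γ
    refine ⟨φ₁, k1, k2, fun z hz γ' h => k3 z hz γ' (h3 z hz γ' h), ?_⟩
    intro z hz γ' hγ' hl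
    rcases Finset.mem_insert.1 hγ' with rfl | h
    · exact k5 z hz (h3 z hz _ hl)
    · exact k4 z hz (h4 z hz γ' h hl)

theorem emp_all {N i m : ℕ} [NeZero N] (hi : i < m) (Z : Set (Ei i)) (hZ : IsCompact Z)
    (φ : Ei i → (ZMod N × ℕ → ℝ)) (hφ : ContinuousOn φ Z) (hm : MapsTo φ Z (EM N (m + 1))) :
    ∃ φ' : Ei i → (ZMod N × ℕ → ℝ), ContinuousOn φ' Z ∧ MapsTo φ' Z (EM N (m + 1)) ∧
      (∀ z ∈ Z, Cmp (φ z) (φ' z)) ∧ ∀ z ∈ Z, Emp (m + 1) (φ' z) := by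
  classical
  have : Fintype (ZMod N) := ZMod.fintype N
  obtain ⟨φ', h1, h2, h3, h4⟩ := TE5_fin hi Z hZ φ hφ hm Finset.univ
  refine ⟨φ', h1, h2, ?_, ?_⟩
  · intro z hz k g g' hgg
    obtain ⟨γ, hγ⟩ := TE5_leg (φ z) (hm hz)
    by_cases hk : k < m + 1
    · by_cases hg : g = γ ⟨k, hk⟩
      · right
        have hg' : g' ≠ γ ⟨k, hk⟩ := fun h => hgg (hg.trans h.symm)
        exact h3 z hz γ hγ ⟨k, hk⟩ g' hg'
      · left
        exact hγ ⟨k, hk⟩ g hg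
    · left
      exact (hm hz).2.2.2 (g, k) (not_lt.1 hk)
  · intro z hz
    obtain ⟨γ, hγ⟩ := TE5_leg (φ z) (hm hz)
    exact h4 z hz γ (Finset.mem_univ γ) hγ

end AGM
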