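import Pool.Agent.AGM.TPD
import Pool.Agent.AGM.TE2
import Pool.Agent.AGM.TE5

/-!
# AGM-TE6: the join of `M` copies of `ZMod N` is `(M-3)`-connected

`emp_all` deforms a map of the sphere into a map with an empty column at every point; this map is compatible with its truncation at
`1/4`, the truncation with a map which uses only the legs `0`, and the latter with a constant map. Apply `cmp_ext` four times.
-/

set_option autoImplicit false

noncomputable section

namespace AGM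

open AGE Set Topology

private def te6_a {N : ℕ} (x : ZMod N × ℕ → ℝ) : ZMod N × ℕ → ℝ := fun a => max 0 ((x a - 1 / 4) / (3 / 4))

private def te6_b {N : ℕ} [NeZero N] (m : ℕ) (x : ZMod N × ℕ → ℝ) : ZMod N × ℕ → ℝ := fun a =>
  if a.1 = 0 ∧ a.2 < m + 1 then max 0 (1 - 4 * ∑ g : ZMod N, x (g, a.2)) else 0

private def te6_c (N : ℕ) : ZMod N × ℕ → ℝ := fun a => if a.1 = 0 ∧ a.2 = 0 then 1 else 0

private theorem te6_a0 {N : ℕ} {x : ZMod N × ℕ → ℝ} {a : ZMod N × ℕ} (h : x a = 0) : te6_a x a = 0 := by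
  unfold te6_a
  rw [h]
  norm_num

private theorem te6_am {N M : ℕ} {x : ZMod N × ℕ → ℝ} (hx : x ∈ EM N M) : te6_a x ∈ EM N M := by
  obtain ⟨h1, ⟨a, h2⟩, h3, h4⟩ := hx
  refine ⟨fun a => ⟨le_max_left _ _, max_le zero_le_one ?_⟩, ⟨a, ?_⟩, fun k g g' hg => ?_, fun a ha => ?_⟩
  · have := (h1 a).2
    rw [div_le_one (by norm_num)]
    linarith
  · unfold te6_a
    rw [h2]
    norm_num
  · rcases h3 k g g' hg with h | h
    · exact Or.inl (te6_a0 h)
    · exact Or.inr (te6_a0 h)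
  · exact te6_a0 (h4 a ha)

private theorem te6_bm {N m : ℕ} [NeZero N] {x : ZMod N × ℕ → ℝ} (hx : x ∈ EM N (m + 1))
    (he : Emp (m + 1) x) : te6_b m x ∈ EM N (m + 1) := by
  obtain ⟨h1, _, _, _⟩ := hx
  obtain ⟨k, hk, h5⟩ := he
  refine ⟨fun a => ?_, ⟨(0, k), ?_⟩, fun k g g' hg => ?_, fun a ha => ?_⟩
  · unfold te6_b
    split_ifs
    · refine ⟨le_max_left _ _, max_le zero_le_one ?_⟩
      have : 0 ≤ ∑ g : ZMod N, x (g, a.2) := Finset.sum_nonneg fun g _ => (h1 (g, a.2)).1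
      linarith
    · exact ⟨le_rfl, zero_le_one⟩
  · unfold te6_b
    rw [if_pos ⟨rfl, hk⟩, Finset.sum_eq_zero fun g _ => h5 g]
    norm_num
  · unfold te6_b
    by_cases hg0 : g = 0
    · right
      rw [if_neg]
      rintro ⟨h6, _⟩
      exact hg (hg0.trans h6.symm)
    · left
      rw [if_neg]
      rintro ⟨h6, _⟩
      exact hg0 h6
  · unfold te6_b
    rw [if_neg]
    rintro ⟨_, h6⟩
    omega

private theorem te6_cm (N m : ℕ) : te6_c N ∈ EM N (m + 1) := by
  refine ⟨fun a => ?_, ⟨(0, 0), ?_⟩, fun k g g' hg => ?_, fun a ha => ?_⟩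
  · unfold te6_c
    split_ifs
    · exact ⟨zero_le_one, le_rfl⟩
    · exact ⟨le_rfl, zero_le_one⟩
  · unfold te6_c
    rw [if_pos ⟨rfl, rfl⟩]
  · unfold te6_c
    by_cases hg0 : g = 0
    · right
      rw [if_neg]
      rintro ⟨h6, _⟩
      exact hg (hg0.trans h6.symm)
    · left
      rw [if_neg]
      rintro ⟨h6, _⟩
      exact hg0 h6
  · unfold te6_c
    rw [if_neg]
    rintro ⟨_, h6⟩
    omega

private theorem te6_ab {N m : ℕ} [NeZero N] {x : ZMod N × ℕ → ℝ} (hx : x ∈ EM N (m + 1)) :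
    Cmp (te6_a x) (te6_b m x) := by
  intro k g g' _
  by_cases h : te6_a x (g, k) = 0
  · exact Or.inl h
  · right
    have h1 : 1 / 4 < x (g, k) := by
      by_contra hcon
      apply h
      unfold te6_a
      rw [max_eq_left]
      exact div_nonpos_of_nonpos_of_nonneg (by linarith) (by norm_num)
    have h2 : x (g, k) ≤ ∑ g'' : ZMod N, x (g'', k) :=
      Finset.single_le_sum (f := fun g'' : ZMod N => x (g'', k)) (fun g'' _ => (hx.1 (g'', k)).1)
        (Finset.mem_univ g)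
    unfold te6_b
    split_ifs
    · rw [max_eq_left]
      show 1 - 4 * ∑ g'' : ZMod N, x (g'', k) ≤ 0
      linarith
    · rfl

private theorem te6_bc {N m : ℕ} [NeZero N] (x : ZMod N × ℕ → ℝ) : Cmp (te6_b m x) (te6_c N) := by
  intro k g g' hg
  by_cases hg0 : g = 0
  · right
    unfold te6_c
    rw [if_neg]
    rintro ⟨h6, _⟩
    exact hg (hg0.trans h6.symm)
  · left
    unfold te6_b
    rw [if_neg]
    rintro ⟨h6, _⟩
    exact hg0 h6

private theorem te6_self {N M : ℕ} {x : ZMod N × ℕ → ℝ} (hx : x ∈ EM N M) : Cmp x (te6_a x) := by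
  intro k g g' hg
  rcases hx.2.2.1 k g g' hg with h | h
  · exact Or.inl h
  · exact Or.inr (te6_a0 h)

theorem em_extT (N : ℕ) [NeZero N] (i M : ℕ) (hM : i + 2 ≤ M) (φ : Ei i → (ZMod N × ℕ → ℝ))
    (hφ : ContinuousOn φ (Sp i)) (hφm : MapsTo φ (Sp i) (EM N M)) :
    ∃ Φ : Ei i → (ZMod N × ℕ → ℝ), ContinuousOn Φ (Bl i) ∧ MapsTo Φ (Bl i) (EM N M) ∧
      EqOn Φ φ (Sp i) := by
  obtain ⟨m, rfl⟩ : ∃ m, M = m + 1 := ⟨M - 1, by omega⟩
  obtain ⟨φ', c', m', hc, he⟩ := emp_all (N := N) (show i < m by omega) (Sp i) (isCompact_sphere 0 1) φ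
    hφ hφm
  have ca : ContinuousOn (fun z => te6_a (φ' z)) (Sp i) := by
    rw [continuousOn_pi]
    intro a
    have h1 : ContinuousOn (fun z => φ' z a) (Sp i) := (continuousOn_pi.1 c') a
    exact ContinuousOn.sup continuousOn_const ((h1.sub continuousOn_const).div_const _)
  have cb : ContinuousOn (fun z => te6_b m (φ' z)) (Sp i) := by
    rw [continuousOn_pi]
    intro a
    unfold te6_b
    by_cases ha : a.1 = 0 ∧ a.2 < m + 1
    · simp only [if_pos ha]
      refine ContinuousOn.sup continuousOn_const (continuousOn_const.sub (continuousOn_const.mul ?_))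
      refine continuousOn_finsetSum _ fun g _ => ?_
      exact (continuousOn_pi.1 c') (g, a.2)
    · simp only [if_neg ha]
      exact continuousOn_const
  have ma : MapsTo (fun z => te6_a (φ' z)) (Sp i) (EM N (m + 1)) := fun z hz => te6_am (m' hz)
  have mb : MapsTo (fun z => te6_b m (φ' z)) (Sp i) (EM N (m + 1)) := fun z hz =>
    te6_bm (m' hz) (he z hz)
  refine cmp_ext φ φ' hφ c' hφm m' hc ?_
  refine cmp_ext φ' (fun z => te6_a (φ' z)) c' ca m' ma (fun z hz => te6_self (m' hz)) ?_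
  refine cmp_ext _ (fun z => te6_b m (φ' z)) ca cb ma mb (fun z hz => te6_ab (m' hz)) ?_
  refine cmp_ext _ (fun _ => te6_c N) cb continuousOn_const mb (fun _ _ => te6_cm N m)
    (fun z _ => te6_bc (φ' z)) ?_
  exact ⟨fun _ => te6_c N, continuousOn_const, fun _ _ => te6_cm N m, fun _ _ => rfl⟩

end AGM
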