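import Pool.Agent.AGM.TPD

/-!
# AGM-TP1: elementary geometry of cubes (`J` may be infinite)

Plan. `tp_inter`: `F = ⟨fun j => max (Q.lo j) (R.lo j), {j ∈ Q.fr | max (Q.lo j) (R.lo j) < min (Q.hi j) (R.hi j)}⟩`: as `x` is in both bodies, `max lo ≤ x j ≤ min hi` (casts), and `min hi ≤ Q.lo j + 1`, so `F.hi j = min (Q.hi j) (R.hi j)` for every `j`.
`tp_bd`: (→) `F ≠ Q`, `F.Le Q`: some `j` has `F.lo j ≠ Q.lo j` or `F.hi j ≠ Q.hi j` (else `F = Q`: `Cube.ext`, `fr = {j | hi j ≠ lo j}`); then `j ∈ Q.fr` (otherwise `Q.lo j = Q.hi j`) and `F.lo j = Q.lo j + 1` or `F.hi j = Q.lo j`.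
(←) `F = Q.dn j` or `F = Q.up j` (`AGE.Cube.dn`, `AGE.Cube.up`). `tp_closed`: intersection of closed half spaces, coordinates are continuous. `tp_Closed`: finite union (`Set.Finite.isClosed_biUnion`).
-/

set_option autoImplicit false

noncomputable section

namespace AGM

open AGE Set Topology

variable {J : Type} [LinearOrder J]

private theorem TP1_hi_mem {Q : Cube J} {j : J} (h : j ∈ Q.fr) : Q.hi j = Q.lo j + 1 := if_pos h

private theorem TP1_hi_not {Q : Cube J} {j : J} (h : j ∉ Q.fr) : Q.hi j = Q.lo j := if_neg h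

private theorem TP1_cases (Q : Cube J) (j : J) :
    (j ∈ Q.fr ∧ Q.hi j = Q.lo j + 1) ∨ (j ∉ Q.fr ∧ Q.hi j = Q.lo j) := by
  by_cases h : j ∈ Q.fr
  · exact Or.inl ⟨h, TP1_hi_mem h⟩
  · exact Or.inr ⟨h, TP1_hi_not h⟩

private theorem TP1_ext {F Q : Cube J} (h1 : ∀ j, F.lo j = Q.lo j) (h2 : ∀ j, F.hi j = Q.hi j) :
    F = Q := by
  apply Cube.ext
  · funext j
    exact h1 j
  · ext j
    rcases TP1_cases F j with ⟨a, b⟩ | ⟨a, b⟩ <;> rcases TP1_cases Q j with ⟨c, d⟩ | ⟨c, d⟩
    · exact ⟨fun _ => c, fun _ => a⟩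
    · exfalso
      have e1 := h1 j
      have e2 := h2 j
      omega
    · exfalso
      have e1 := h1 j
      have e2 := h2 j
      omega
    · exact ⟨fun h => absurd h a, fun h => absurd h c⟩

private theorem TP1_le {a b : ℤ} {x : ℝ} (h1 : (a : ℝ) ≤ x) (h2 : x ≤ (b : ℝ)) : a ≤ b := by
  have := h1.trans h2
  exact_mod_cast this

/-- two cubes with a common point intersect in a common face -/
theorem tp_inter (Q R : Cube J) (x : J → ℝ) (hQ : x ∈ Q.body) (hR : x ∈ R.body) :
    ∃ F : Cube J, F.Le Q ∧ F.Le R ∧ x ∈ F.body := by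
  classical
  have hi : ∀ j, (Cube.mk (fun j => max (Q.lo j) (R.lo j))
      (Q.fr.filter fun j => max (Q.lo j) (R.lo j) < min (Q.hi j) (R.hi j))).hi j
        = min (Q.hi j) (R.hi j) := by
    intro j
    have a1 := TP1_le (hQ j).1 (hQ j).2
    have a2 := TP1_le (hQ j).1 (hR j).2
    have a3 := TP1_le (hR j).1 (hQ j).2
    have a4 := TP1_le (hR j).1 (hR j).2
    by_cases hj : j ∈ Q.fr.filter fun j => max (Q.lo j) (R.lo j) < min (Q.hi j) (R.hi j)
    · have e : (Cube.mk (fun j => max (Q.lo j) (R.lo j))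
          (Q.fr.filter fun j => max (Q.lo j) (R.lo j) < min (Q.hi j) (R.hi j))).hi j
            = max (Q.lo j) (R.lo j) + 1 := if_pos hj
      rw [e]
      obtain ⟨h1, h2⟩ := Finset.mem_filter.1 hj
      have h3 := TP1_hi_mem h1
      omega
    · have e : (Cube.mk (fun j => max (Q.lo j) (R.lo j))
          (Q.fr.filter fun j => max (Q.lo j) (R.lo j) < min (Q.hi j) (R.hi j))).hi j
            = max (Q.lo j) (R.lo j) := if_neg hj
      rw [e]
      rcases TP1_cases Q j with ⟨h1, h2⟩ | ⟨h1, h2⟩
      · have h3 : ¬ max (Q.lo j) (R.lo j) < min (Q.hi j) (R.hi j) :=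
          fun h => hj (Finset.mem_filter.2 ⟨h1, h⟩)
        omega
      · omega
  refine ⟨Cube.mk (fun j => max (Q.lo j) (R.lo j))
      (Q.fr.filter fun j => max (Q.lo j) (R.lo j) < min (Q.hi j) (R.hi j)),
    fun j => ⟨?_, ?_⟩, fun j => ⟨?_, ?_⟩, fun j => ⟨?_, ?_⟩⟩
  · exact le_max_left (Q.lo j) (R.lo j)
  · rw [hi j]
    exact min_le_left _ _
  · exact le_max_right (Q.lo j) (R.lo j)
  · rw [hi j]
    exact min_le_right _ _
  · show ((max (Q.lo j) (R.lo j) : ℤ) : ℝ) ≤ x j
    rw [Int.cast_max]
    exact max_le (hQ j).1 (hR j).1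
  · rw [hi j, Int.cast_min]
    exact le_min (hQ j).2 (hR j).2

/-- the boundary of a cube -/
theorem tp_bd (Q : Cube J) (x : J → ℝ) (hx : x ∈ Q.body) :
    (∃ F : Cube J, F.Le Q ∧ F ≠ Q ∧ x ∈ F.body) ↔
      ∃ j ∈ Q.fr, x j = (Q.lo j : ℝ) ∨ x j = (Q.lo j : ℝ) + 1 := by
  constructor
  · rintro ⟨F, hF, hne, hxF⟩
    by_contra hcon
    push Not at hcon
    apply hne
    have key : ∀ j, F.lo j = Q.lo j ∧ F.hi j = Q.hi j := by
      intro j
      have a1 := TP1_le (hxF j).1 (hxF j).2
      have a2 := (hF j).1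
      have a3 := (hF j).2
      rcases TP1_cases Q j with ⟨h1, h2⟩ | ⟨h1, h2⟩
      · obtain ⟨c1, c2⟩ := hcon j h1
        constructor
        · by_contra hl
          have h3 : F.lo j = Q.lo j + 1 := by omega
          apply c2
          apply le_antisymm
          · have := (hx j).2
            rw [h2] at this
            push_cast at this
            exact this
          · have := (hxF j).1
            rw [h3] at this
            push_cast at this
            exact this
        · by_contra hl
          have h3 : F.hi j ≤ Q.lo j := by omega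
          apply c1
          apply le_antisymm
          · refine (hxF j).2.trans ?_
            exact_mod_cast h3
          · exact (hx j).1
      · omega
    exact TP1_ext (fun j => (key j).1) (fun j => (key j).2)
  · rintro ⟨j, hj, h | h⟩
    · have hhi : ∀ k, k ≠ j → (Q.dn j).hi k = Q.hi k := by
        intro k hk
        rcases TP1_cases Q k with ⟨h1, h2⟩ | ⟨h1, h2⟩
        · rw [h2]
          exact TP1_hi_mem (Q := Q.dn j) (Finset.mem_erase.2 ⟨hk, h1⟩)
        · rw [h2]
          exact TP1_hi_not (Q := Q.dn j) (fun hc => h1 (Finset.mem_of_mem_erase hc))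
      have hhj : (Q.dn j).hi j = Q.lo j :=
        TP1_hi_not (Q := Q.dn j) (Finset.notMem_erase j Q.fr)
      refine ⟨Q.dn j, ?_, ?_, ?_⟩
      · intro k
        by_cases hk : k = j
        · subst hk
          rw [hhj, TP1_hi_mem hj]
          exact ⟨le_rfl, by omega⟩
        · rw [hhi k hk]
          exact ⟨le_rfl, le_rfl⟩
      · intro he
        have h1 : j ∈ (Q.dn j).fr := by
          rw [he]
          exact hj
        exact Finset.notMem_erase j Q.fr h1
      · intro k
        by_cases hk : k = j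
        · subst hk
          rw [hhj, h]
          exact ⟨le_rfl, le_rfl⟩
        · rw [hhi k hk]
          exact hx k
    · have hlo : ∀ k, k ≠ j → (Q.up j).lo k = Q.lo k := fun k hk => Function.update_of_ne hk _ _
      have hlj : (Q.up j).lo j = Q.lo j + 1 := Function.update_self _ _ _
      have hhi : ∀ k, k ≠ j → (Q.up j).hi k = Q.hi k := by
        intro k hk
        rcases TP1_cases Q k with ⟨h1, h2⟩ | ⟨h1, h2⟩
        · rw [h2, ← hlo k hk]
          exact TP1_hi_mem (Q := Q.up j) (Finset.mem_erase.2 ⟨hk, h1⟩)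
        · rw [h2, ← hlo k hk]
          exact TP1_hi_not (Q := Q.up j) (fun hc => h1 (Finset.mem_of_mem_erase hc))
      have hhj : (Q.up j).hi j = Q.lo j + 1 := by
        rw [← hlj]
        exact TP1_hi_not (Q := Q.up j) (Finset.notMem_erase j Q.fr)
      refine ⟨Q.up j, ?_, ?_, ?_⟩
      · intro k
        by_cases hk : k = j
        · subst hk
          rw [hhj, hlj, TP1_hi_mem hj]
          exact ⟨by omega, le_rfl⟩
        · rw [hhi k hk, hlo k hk]
          exact ⟨le_rfl, le_rfl⟩
      · intro he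
        have h1 : j ∈ (Q.up j).fr := by
          rw [he]
          exact hj
        exact Finset.notMem_erase j Q.fr h1
      · intro k
        by_cases hk : k = j
        · subst hk
          rw [hhj, hlj, h]
          push_cast
          exact ⟨le_rfl, le_rfl⟩
        · rw [hhi k hk, hlo k hk]
          exact hx k

theorem tp_mono (Q R : Cube J) (h : Q.Le R) : Q.body ⊆ R.body := by
  intro x hx j
  constructor
  · refine le_trans ?_ (hx j).1
    exact_mod_cast (h j).1
  · refine (hx j).2.trans ?_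
    exact_mod_cast (h j).2

theorem tp_closed (Q : Cube J) : IsClosed Q.body := by
  have h : Q.body = ⋂ j, {x : J → ℝ | (Q.lo j : ℝ) ≤ x j} ∩ {x : J → ℝ | x j ≤ (Q.hi j : ℝ)} := by
    ext x
    simp only [Set.mem_iInter, Set.mem_inter_iff, Set.mem_ofPred_eq]
    exact Iff.rfl
  rw [h]
  exact isClosed_iInter fun j => (isClosed_le continuous_const (continuous_apply j)).inter
    (isClosed_le (continuous_apply j) continuous_const)

theorem tp_Closed (K : Set (Cube J)) (hK : K.Finite) : IsClosed (Body K) := by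
  have h : Body K = ⋃ Q ∈ K, Q.body := by
    ext x
    simp only [Set.mem_iUnion, exists_prop]
    exact Iff.rfl
  rw [h]
  exact hK.isClosed_biUnion fun Q _ => tp_closed Q

end AGM
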