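import Pool.Agent.AGM.TPD
import Pool.Agent.AGM.TM1
import Pool.Agent.AGM.TP1

/-!
# AGM-TP2: pushing a map off one maximal cube

A map of a compact subset of `ℝ^i` to a finite complex is pushed off a maximal cube `Q` of dimension greater than `i`:
the free coordinates of `Q` are perturbed off the centre of the cube (`miss0T`) and projected from the centre to the
boundary.
-/

set_option autoImplicit false

noncomputable section

namespace AGM

open AGE Set Topology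

variable {J : Type} [LinearOrder J]

private theorem tp2_hi (Q : Cube J) {j : J} (hj : j ∈ Q.fr) : (Q.hi j : ℝ) = (Q.lo j : ℝ) + 1 := by
  unfold Cube.hi
  rw [if_pos hj]
  push_cast
  rfl

private theorem tp2_max {ι : Type} [Fintype ι] [Nonempty ι] (y : ι → ℝ) : ∃ j, |y j| = ‖y‖ := by
  obtain ⟨j, hj⟩ := Finite.exists_max (fun j => ‖y j‖)
  refine ⟨j, le_antisymm ?_ ?_⟩
  · exact norm_le_pi_norm y j
  · exact (pi_norm_le_iff_of_nonneg (norm_nonneg (y j))).2 hj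

theorem push_one (i : ℕ) (Z : Set (Ei i)) (hZ : IsCompact Z) (P' : Set (Cube J)) (hf : P'.Finite)
    (hc : Closed P') (Q : Cube J) (hQ : Q ∈ P') (hmax : ∀ R ∈ P', Q.Le R → R = Q)
    (hi : i < Q.dim) (Φ : Ei i → J → ℝ) (hΦ : ContinuousOn Φ Z) (hΦm : MapsTo Φ Z (Body P')) :
    ∃ Φ' : Ei i → J → ℝ, ContinuousOn Φ' Z ∧ MapsTo Φ' Z (Body (P' \ {Q})) ∧
      (∀ z ∈ Z, Φ z ∈ Body (P' \ {Q}) → Φ' z = Φ z) ∧
      ∀ z ∈ Z, ∀ R ∈ P', Φ z ∈ R.body → Φ' z ∈ R.body := by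
  classical
  -- the two parts of `Z`
  have hfin : (P' \ {Q}).Finite := hf.subset sdiff_subset
  have hc1 : IsClosed (Z ∩ Φ ⁻¹' Q.body) := hΦ.preimage_isClosed_of_isClosed hZ.isClosed (tp_closed Q)
  have hc2 : IsClosed (Z ∩ Φ ⁻¹' Body (P' \ {Q})) :=
    hΦ.preimage_isClosed_of_isClosed hZ.isClosed (tp_Closed _ hfin)
  have hk1 : IsCompact (Z ∩ Φ ⁻¹' Q.body) := hZ.of_isClosed_subset hc1 inter_subset_left
  have hun : Z = (Z ∩ Φ ⁻¹' Q.body) ∪ (Z ∩ Φ ⁻¹' Body (P' \ {Q})) := by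
    ext z
    constructor
    · intro hz
      obtain ⟨R, hR, hzR⟩ := hΦm hz
      by_cases h : R = Q
      · exact Or.inl ⟨hz, h ▸ hzR⟩
      · exact Or.inr ⟨hz, R, ⟨hR, h⟩, hzR⟩
    · rintro (h | h)
      · exact h.1
      · exact h.1
  -- points in both parts are in the boundary of `Q`
  have hbd : ∀ x ∈ Q.body, x ∈ Body (P' \ {Q}) →
      ∃ j ∈ Q.fr, x j = (Q.lo j : ℝ) ∨ x j = (Q.lo j : ℝ) + 1 := by
    rintro x hx ⟨R, hR, hxR⟩
    obtain ⟨F, h1, h2, h3⟩ := tp_inter Q R x hx hxR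
    refine (tp_bd Q x hx).1 ⟨F, h1, fun h => ?_, h3⟩
    rw [h] at h2
    exact hR.2 (hmax R hR.1 h2)
  have hbd2 : ∀ x ∈ Q.body, (∃ j ∈ Q.fr, x j = (Q.lo j : ℝ) ∨ x j = (Q.lo j : ℝ) + 1) →
      x ∈ Body (P' \ {Q}) := by
    intro x hx h
    obtain ⟨F, h1, h2, h3⟩ := (tp_bd Q x hx).2 h
    exact ⟨F, ⟨hc Q hQ F h1, h2⟩, h3⟩
  -- the coordinates
  let ι : Type := {j // j ∈ Q.fr}
  have hcard : Fintype.card ι = Q.dim := Fintype.card_coe Q.fr
  have hne : Nonempty ι := by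
    rw [← Fintype.card_pos_iff, hcard]
    omega
  let y : Ei i → (ι → ℝ) := fun z j => Φ z j.1 - ((Q.lo j.1 : ℝ) + 1 / 2)
  have hy : ContinuousOn y (Z ∩ Φ ⁻¹' Q.body) := by
    refine continuousOn_pi.2 fun j => ?_
    exact (((continuous_apply j.1).comp_continuousOn hΦ).mono inter_subset_left).sub
      continuousOn_const
  have hyb : ∀ z, Φ z ∈ Q.body → ‖y z‖ ≤ 1 / 2 := by
    intro z hz
    refine (pi_norm_le_iff_of_nonneg (by norm_num)).2 fun j => ?_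
    have h1 := hz j.1
    rw [tp2_hi Q j.2] at h1
    show |Φ z j.1 - ((Q.lo j.1 : ℝ) + 1 / 2)| ≤ 1 / 2
    rw [abs_le]
    constructor <;> linarith [h1.1, h1.2]
  obtain ⟨y₁, hy1, hy2⟩ := miss0T i ι (by rw [hcard]; exact hi) _ hk1 y hy (1 / 4) (by norm_num)
  have hpos : ∀ z ∈ Z ∩ Φ ⁻¹' Q.body, 0 < ‖y₁ z‖ := fun z hz => norm_pos_iff.2 (hy2 z hz).1
  let ρ : Ei i → J → ℝ := fun z j =>
    if h : j ∈ Q.fr then (Q.lo j : ℝ) + 1 / 2 + y₁ z ⟨j, h⟩ / (2 * ‖y₁ z‖) else Φ z j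
  have hρ1 : ∀ z j, ∀ h : j ∈ Q.fr, ρ z j = (Q.lo j : ℝ) + 1 / 2 + y₁ z ⟨j, h⟩ / (2 * ‖y₁ z‖) :=
    fun z j h => dif_pos h
  have hρ2 : ∀ z j, j ∉ Q.fr → ρ z j = Φ z j := fun z j h => dif_neg h
  have hρc : ContinuousOn ρ (Z ∩ Φ ⁻¹' Q.body) := by
    refine continuousOn_pi.2 fun j => ?_
    by_cases h : j ∈ Q.fr
    · have e1 : (fun z => ρ z j) = fun z => (Q.lo j : ℝ) + 1 / 2 + y₁ z ⟨j, h⟩ / (2 * ‖y₁ z‖) :=
        funext fun z => hρ1 z j h
      rw [e1]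
      refine continuousOn_const.add (ContinuousOn.div ?_ (continuousOn_const.mul hy1.norm) ?_)
      · exact (continuous_apply (⟨j, h⟩ : ι)).comp_continuousOn hy1
      · intro z hz
        have := hpos z hz
        positivity
    · have e1 : (fun z => ρ z j) = fun z => Φ z j := funext fun z => hρ2 z j h
      rw [e1]
      exact ((continuous_apply j).comp_continuousOn hΦ).mono inter_subset_left
  have hρb : ∀ z ∈ Z ∩ Φ ⁻¹' Q.body, ρ z ∈ Q.body := by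
    intro z hz j
    by_cases h : j ∈ Q.fr
    · rw [hρ1 z j h, tp2_hi Q h]
      have h1 := hpos z hz
      have h2 : |y₁ z ⟨j, h⟩| ≤ ‖y₁ z‖ := norm_le_pi_norm (y₁ z) ⟨j, h⟩
      have h3 : |y₁ z ⟨j, h⟩ / (2 * ‖y₁ z‖)| ≤ 1 / 2 := by
        rw [abs_div, abs_of_pos (by positivity : (0 : ℝ) < 2 * ‖y₁ z‖), div_le_iff₀ (by positivity)]
        linarith
      have h4 := abs_le.1 h3
      constructor <;> linarith [h4.1, h4.2]
    · rw [hρ2 z j h]
      exact hz.2 j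
  have hρd : ∀ z ∈ Z ∩ Φ ⁻¹' Q.body,
      ∃ j ∈ Q.fr, ρ z j = (Q.lo j : ℝ) ∨ ρ z j = (Q.lo j : ℝ) + 1 := by
    intro z hz
    obtain ⟨j, hj⟩ := tp2_max (y₁ z)
    have h1 := hpos z hz
    refine ⟨j.1, j.2, ?_⟩
    rw [hρ1 z j.1 j.2]
    have h2 : y₁ z ⟨j.1, j.2⟩ = y₁ z j := rfl
    rw [h2]
    rcases abs_choice (y₁ z j) with h3 | h3
    · right
      rw [← h3, hj]
      field_simp
      ring
    · left
      have h4 : y₁ z j = -‖y₁ z‖ := by
        rw [← hj, h3]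
        ring
      rw [h4]
      field_simp
      ring
  have hρe : ∀ z ∈ Z ∩ Φ ⁻¹' Q.body, Φ z ∈ Body (P' \ {Q}) → ρ z = Φ z := by
    intro z hz hz2
    obtain ⟨j, hj, hj2⟩ := hbd (Φ z) hz.2 hz2
    have h1 : |y z ⟨j, hj⟩| = 1 / 2 := by
      show |Φ z j - ((Q.lo j : ℝ) + 1 / 2)| = 1 / 2
      rcases hj2 with h | h
      · rw [h]
        have h5 : (Q.lo j : ℝ) - ((Q.lo j : ℝ) + 1 / 2) = -(1 / 2) := by ring
        rw [h5, abs_neg, abs_of_pos (by norm_num)]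
      · rw [h]
        have h5 : (Q.lo j : ℝ) + 1 - ((Q.lo j : ℝ) + 1 / 2) = 1 / 2 := by ring
        rw [h5, abs_of_pos (by norm_num)]
    have h2 : |y z ⟨j, hj⟩| ≤ ‖y z‖ := norm_le_pi_norm (y z) ⟨j, hj⟩
    have h3 : ‖y z‖ = 1 / 2 := le_antisymm (hyb z hz.2) (by rw [← h1]; exact h2)
    have h4 : y₁ z = y z := (hy2 z hz).2.2 (by rw [h3]; norm_num)
    funext l
    by_cases h : l ∈ Q.fr
    · rw [hρ1 z l h, h4, h3]
      show (Q.lo l : ℝ) + 1 / 2 + (Φ z l - ((Q.lo l : ℝ) + 1 / 2)) / (2 * (1 / 2)) = Φ z l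
      ring
    · exact hρ2 z l h
  refine ⟨fun z => if Φ z ∈ Body (P' \ {Q}) then Φ z else ρ z, ?_, ?_, ?_, ?_⟩
  · rw [hun]
    refine ContinuousOn.union_of_isClosed ?_ ?_ hc1 hc2
    · refine hρc.congr fun z hz => ?_
      by_cases h : Φ z ∈ Body (P' \ {Q})
      · show (if Φ z ∈ Body (P' \ {Q}) then Φ z else ρ z) = ρ z
        rw [if_pos h]
        exact (hρe z hz h).symm
      · exact if_neg h
    · refine (hΦ.mono inter_subset_left).congr fun z hz => ?_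
      exact if_pos hz.2
  · intro z hz
    show (if Φ z ∈ Body (P' \ {Q}) then Φ z else ρ z) ∈ Body (P' \ {Q})
    by_cases h : Φ z ∈ Body (P' \ {Q})
    · rw [if_pos h]
      exact h
    · rw [if_neg h]
      have hz1 : z ∈ Z ∩ Φ ⁻¹' Q.body := by
        rw [hun] at hz
        rcases hz with hz | hz
        · exact hz
        · exact absurd hz.2 h
      exact hbd2 _ (hρb z hz1) (hρd z hz1)
  · intro z _ h
    exact if_pos h
  · intro z hz R hR hzR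
    show (if Φ z ∈ Body (P' \ {Q}) then Φ z else ρ z) ∈ R.body
    by_cases h : Φ z ∈ Body (P' \ {Q})
    · rw [if_pos h]
      exact hzR
    · rw [if_neg h]
      have hRQ : R = Q := by
        by_contra hne'
        exact h ⟨R, ⟨hR, hne'⟩, hzR⟩
      rw [hRQ] at hzR ⊢
      exact hρb z ⟨hz, hzR⟩

end AGM
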