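import Pool.Agent.AGM.TPD
import Pool.Agent.AGM.TP1
import Pool.Agent.AGM.TP2

/-!
# AGM-TP3: pushing a map of an `i`-dimensional compact set into the `i`-skeleton

Plan. Induction on the number of cubes of `P' \ P` (`hf.diff.toFinset.card`), generalizing `P'` and `Φ`. If `P' \ P = ∅` then `P' = P`: `Φ' = Φ`. Otherwise let `Q` be a cube of `P' \ P` with maximal dimension (`Set.exists_max_image`). `hmax`: if `R ∈ P'`, `Q.Le R`, `R ≠ Q` then `R ∉ P` (`hc`),
and `Q.dim < R.dim` (a proper face has smaller dimension: `Q.fr ⊂ R.fr`; look for such a lemma in AGE: `grep -rn 'dim' Pool/Agent/AGE/ALG0.lean Pool/Agent/AGE/C1a.lean Pool/Agent/AGE/FD*.lean`), contradiction. `i < Q.dim` by `hd`. `push_one` gives `Φ₁` into `Body (P' \ {Q})`; `P' \ {Q}` is finite, closed (`hmax`),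
contains `P`; induction gives `Φ'`. `Φ z ∈ Body P` implies `Φ z ∈ Body (P' \ {Q})`, `Φ₁ z = Φ z`, `Φ' z = Φ z`. Last claim: `Φ₁ z ∈ R.body`. If `R ≠ Q` then induction. If `R = Q`: `Φ₁ z ∈ S.body` for some `S ∈ P' \ {Q}`, `tp_inter`: a common face `F` of `Q` and `S`, `F ∈ P' \ {Q}` by closedness, so `Φ' z ∈ F.body ⊆ Q.body` (`tp_mono`).
-/

set_option autoImplicit false

noncomputable section

namespace AGM

open AGE Set Topology

private theorem tp3_fr {J : Type} [LinearOrder J] {Q R : Cube J} (h : Q.Le R) :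
    Q.fr ⊆ R.fr := by
  intro j hj
  by_contra hn
  have h1 := h j
  have h2 : Q.hi j = Q.lo j + 1 := if_pos hj
  have h3 : R.hi j = R.lo j := if_neg hn
  rw [h2, h3] at h1
  omega

private theorem tp3_eq {J : Type} [LinearOrder J] {Q R : Cube J} (h : Q.Le R)
    (hd : R.dim ≤ Q.dim) : Q = R := by
  have hfr : Q.fr = R.fr := Finset.eq_of_subset_of_card_le (tp3_fr h) hd
  refine Cube.ext (funext fun j => ?_) hfr
  have h1 := h j
  by_cases hj : j ∈ Q.fr
  · have h2 : Q.hi j = Q.lo j + 1 := if_pos hj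
    have h3 : R.hi j = R.lo j + 1 := if_pos (hfr ▸ hj)
    omega
  · have h2 : Q.hi j = Q.lo j := if_neg hj
    have h3 : R.hi j = R.lo j := if_neg (hfr ▸ hj)
    omega

theorem pushT {J : Type} [LinearOrder J] (i : ℕ) (Z : Set (Ei i)) (hZ : IsCompact Z)
    (P' P : Set (Cube J)) (hf : P'.Finite) (hc' : Closed P') (hc : Closed P) (hP : P ⊆ P')
    (hd : ∀ Q ∈ P', Q.dim ≤ i → Q ∈ P) (Φ : Ei i → J → ℝ) (hΦ : ContinuousOn Φ Z)
    (hΦm : MapsTo Φ Z (Body P')) :
    ∃ Φ' : Ei i → J → ℝ, ContinuousOn Φ' Z ∧ MapsTo Φ' Z (Body P) ∧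
      (∀ z ∈ Z, Φ z ∈ Body P → Φ' z = Φ z) ∧
      ∀ z ∈ Z, ∀ R ∈ P', Φ z ∈ R.body → Φ' z ∈ R.body := by
  classical
  obtain ⟨n, hn⟩ : ∃ n, (P' \ P).ncard = n := ⟨_, rfl⟩
  induction n generalizing P' Φ with
  | zero =>
    have h1 : P' \ P = ∅ := (Set.ncard_eq_zero (hf.subset sdiff_subset)).mp hn
    have h2 : P' = P := Set.Subset.antisymm (Set.sdiff_eq_empty.mp h1) hP
    subst h2
    exact ⟨Φ, hΦ, hΦm, fun _ _ _ => rfl, fun _ _ _ _ h => h⟩
  | succ n ih =>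
    have hne : (P' \ P).Nonempty := by
      rw [Set.nonempty_iff_ne_empty]
      intro h
      rw [h, Set.ncard_empty] at hn
      omega
    obtain ⟨Q, hQ, hQm⟩ := Set.exists_max_image (P' \ P) Cube.dim (hf.subset sdiff_subset) hne
    have hmax : ∀ R ∈ P', Q.Le R → R = Q := by
      intro R hR hQR
      have hRP : R ∉ P := fun h => hQ.2 (hc R h Q hQR)
      exact (tp3_eq hQR (hQm R ⟨hR, hRP⟩)).symm
    have hi : i < Q.dim := by
      by_contra h
      exact hQ.2 (hd Q hQ.1 (not_lt.mp h))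
    obtain ⟨Φ₁, h1, h2, h3, h4⟩ := push_one i Z hZ P' hf hc' Q hQ.1 hmax hi Φ hΦ hΦm
    have hf'' : (P' \ {Q}).Finite := hf.subset sdiff_subset
    have hc'' : Closed (P' \ {Q}) := by
      intro R hR S hSR
      refine ⟨hc' R hR.1 S hSR, ?_⟩
      intro hSQ
      rw [Set.mem_singleton_iff] at hSQ
      rw [hSQ] at hSR
      exact hR.2 (hmax R hR.1 hSR)
    have hP'' : P ⊆ P' \ {Q} := fun R hR => ⟨hP hR, fun h => hQ.2 (by
      rw [Set.mem_singleton_iff] at h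
      rw [← h]
      exact hR)⟩
    have hd'' : ∀ R ∈ P' \ {Q}, R.dim ≤ i → R ∈ P := fun R hR => hd R hR.1
    have hn'' : ((P' \ {Q}) \ P).ncard = n := by
      have h5 : (P' \ {Q}) \ P = (P' \ P) \ {Q} := by
        ext R
        simp only [Set.mem_sdiff, Set.mem_singleton_iff]
        tauto
      have h6 := Set.ncard_sdiff_singleton_add_one hQ (hf.subset sdiff_subset)
      rw [h5]
      omega
    obtain ⟨Φ', g1, g2, g3, g4⟩ := ih (P' \ {Q}) hf'' hc'' hP'' hd'' Φ₁ h1 h2 hn''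
    refine ⟨Φ', g1, g2, ?_, ?_⟩
    · intro z hz hzP
      have h5 : Φ z ∈ Body (P' \ {Q}) := by
        obtain ⟨S, hS, hzS⟩ := hzP
        exact ⟨S, hP'' hS, hzS⟩
      have h6 := h3 z hz h5
      rw [g3 z hz (by rw [h6]; exact hzP), h6]
    · intro z hz R hR hzR
      have h5 := h4 z hz R hR hzR
      by_cases hRQ : R = Q
      · subst hRQ
        obtain ⟨S, hS, hzS⟩ := h2 hz
        obtain ⟨F, hFQ, hFS, hzF⟩ := tp_inter R S (Φ₁ z) h5 hzS
        exact tp_mono F R hFQ (g4 z hz F (hc'' S hS F hFS) hzF)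
      · exact g4 z hz R ⟨hR, hRQ⟩ h5

end AGM
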