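import Pool.Agent.AGM.Defs
import Pool.Agent.AGM.TM1
import Pool.Agent.AGM.TP3
import Pool.Agent.AGM.TE6

/-!
# AGM-TOP: general topology (main statements; owner helper18)

miss0. `g` = a Lipschitz (polynomial, Stone-Weierstrass, or mollified) map with `‖g - f‖ < ε/4` on `Z`; its image has measure zero in `ℝ^ι` (`i < card ι`; Hausdorff dimension of a Lipschitz image: `dimH_image_le`,
`dense_compl_of_dimH_lt_finrank`), so there is `c`, `‖c‖ < ε/4`, not in the image. `f₁ = f + θ(‖f‖) (g - c - f)`, `θ = 1` on `[0, ε]`, `0` on `[2ε, ∞)`.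
push. Remove the cells of `P̂` which are not in `P` one at a time, in the order of decreasing dimension (a maximal cell `Q` of `P̂`, `dim Q > i`): in the coordinates of `Q` centred at the midpoint, `miss0` (with small `ε`, applied to
the map composed with a retraction of `ℝ^fr`...; it changes the map only well inside `Q`), then push radially from the centre to the boundary of `Q`: `y ↦ m + (y - m) / (2 ‖y - m‖)` in the free coordinates. A point whose image is
not in the relative interior of `Q` is not moved; a cube `R ∈ P̂` containing a point of the relative interior of the maximal cell `Q` is `Q` itself.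
em_ext. Columns: `H_k x = Σ_g x (g,k)` (height). For two points `x, x'` of `EM` which are compatible (`g ≠ g' → x (g,k) = 0 ∨ x' (g',k) = 0`) the path `nrm ((1-s) x + s x')`, `nrm w = w / max w`, stays in `EM`. (1) For every choice of legs
`γ : Fin M → ZMod N` in turn: on the points with `x (γ k, k) ≥ 1/8` for all `k` use the coordinates `d_k = h_k - h_0`, `1 ≤ k < M` (with `max h = 1`: `h_k = 1 - max_l d_l + d_k`, `d_0 = 0`), `miss0` (`i < M - 1`; change only for `osc d ≤ 1/2`,
`osc = max - min` over `0 ≤ k < M`), then `d ↦ d max(1, (7/8)/osc d)`: afterwards every point has a column of height `≤ 1/8`; the new map is compatible with the old one. (2) replace the heights `h` by `max 0 ((h - 1/4)/(3/4))`: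
compatible. (3) `ψ` = `nrm` of the heights `max 0 (1/4 - h_k)` in the legs `0`: compatible with (2) (disjoint columns). (4) all maps into the legs `0` are compatible with the constant map. Conclude with `AGE.hep` (FT1) four times.
-/

set_option autoImplicit false

noncomputable section

namespace AGM

open AGE Set Topology

theorem miss0 (i : ℕ) (ι : Type) [Fintype ι] (hi : i < Fintype.card ι) (Z : Set (Ei i))
    (hZ : IsCompact Z) (f : Ei i → (ι → ℝ)) (hf : ContinuousOn f Z) (ε : ℝ) (hε : 0 < ε) :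
    ∃ f₁ : Ei i → (ι → ℝ), ContinuousOn f₁ Z ∧ ∀ z ∈ Z, f₁ z ≠ 0 ∧ ‖f₁ z - f z‖ ≤ ε ∧
      (2 * ε ≤ ‖f z‖ → f₁ z = f z) := by
  exact miss0T i ι hi Z hZ f hf ε hε

theorem push {J : Type} [LinearOrder J] (i : ℕ) (Z : Set (Ei i)) (hZ : IsCompact Z)
    (P' P : Set (Cube J)) (hf : P'.Finite) (hc' : Closed P') (hc : Closed P) (hP : P ⊆ P')
    (hd : ∀ Q ∈ P', Q.dim ≤ i → Q ∈ P) (Φ : Ei i → J → ℝ) (hΦ : ContinuousOn Φ Z)
    (hΦm : MapsTo Φ Z (Body P')) :
    ∃ Φ' : Ei i → J → ℝ, ContinuousOn Φ' Z ∧ MapsTo Φ' Z (Body P) ∧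
      (∀ z ∈ Z, Φ z ∈ Body P → Φ' z = Φ z) ∧
      ∀ z ∈ Z, ∀ R ∈ P', Φ z ∈ R.body → Φ' z ∈ R.body := by
  exact pushT i Z hZ P' P hf hc' hc hP hd Φ hΦ hΦm

theorem em_ext (N : ℕ) [NeZero N] (i M : ℕ) (hM : i + 2 ≤ M) (φ : Ei i → (ZMod N × ℕ → ℝ))
    (hφ : ContinuousOn φ (Sp i)) (hφm : MapsTo φ (Sp i) (EM N M)) :
    ∃ Φ : Ei i → (ZMod N × ℕ → ℝ), ContinuousOn Φ (Bl i) ∧ MapsTo Φ (Bl i) (EM N M) ∧
      EqOn Φ φ (Sp i) := by
  exact em_extT N i M hM φ hφ hφm

end AGM
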