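import Pool.Agent.AGM.LB
import Pool.Agent.AGM.TOP

/-!
# AGM-LD: lifting in the target tower
-/

set_option autoImplicit false

noncomputable section

namespace AGM

open AGE Set Topology

/-- the radial retraction onto the ball, which maps the collar `1 - δ ≤ ‖x‖` to the sphere -/
def ldR {i : ℕ} (δ : ℝ) (x : Ei i) : Ei i := (max ‖x‖ (1 - δ))⁻¹ • x

/-- the collar coordinate -/
def ldS {i : ℕ} (δ : ℝ) (x : Ei i) : ℝ := min 1 ((1 - ‖x‖) / δ)

variable {i : ℕ} {δ : ℝ}

private theorem ld_pos (h1 : δ < 1) (x : Ei i) : 0 < max ‖x‖ (1 - δ) :=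
  lt_max_of_lt_right (by linarith)

theorem ldR_cont (h1 : δ < 1) : Continuous (ldR (i := i) δ) := by
  have h : Continuous fun x : Ei i => (max ‖x‖ (1 - δ))⁻¹ :=
    (continuous_norm.max continuous_const).inv₀ (fun x => (ld_pos h1 x).ne')
  exact h.smul continuous_id

theorem ldS_cont : Continuous (ldS (i := i) δ) :=
  continuous_const.min ((continuous_const.sub continuous_norm).div_const δ)

private theorem ld_norm (h1 : δ < 1) (x : Ei i) :
    ‖ldR δ x‖ = ‖x‖ / max ‖x‖ (1 - δ) := by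
  unfold ldR
  rw [norm_smul, norm_inv, Real.norm_of_nonneg (ld_pos h1 x).le, inv_mul_eq_div]

theorem ldR_ball (h1 : δ < 1) (x : Ei i) : ldR δ x ∈ Bl i := by
  rw [Bl, mem_closedBall_zero_iff, ld_norm h1, div_le_one (ld_pos h1 x)]
  exact le_max_left _ _

theorem ldR_sph (h1 : δ < 1) {x : Ei i} (hx : 1 - δ ≤ ‖x‖) : ldR δ x ∈ Sp i := by
  rw [Sp, mem_sphere_zero_iff_norm, ld_norm h1, max_eq_left hx, div_self]
  have := ld_pos h1 x
  rw [max_eq_left hx] at this
  exact this.ne'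

theorem ldR_of_sph (h0 : 0 < δ) {x : Ei i} (hx : x ∈ Sp i) : ldR δ x = x := by
  rw [Sp, mem_sphere_zero_iff_norm] at hx
  unfold ldR
  rw [hx, max_eq_left (by linarith), inv_one, one_smul]

theorem ldS_of_sph {x : Ei i} (hx : x ∈ Sp i) : ldS δ x = 0 := by
  rw [Sp, mem_sphere_zero_iff_norm] at hx
  unfold ldS
  rw [hx, sub_self, zero_div]
  exact min_eq_right zero_le_one

theorem ldS_one (h0 : 0 < δ) {x : Ei i} (hx : ‖x‖ ≤ 1 - δ) : ldS δ x = 1 := by
  unfold ldS
  refine min_eq_left ?_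
  rw [le_div_iff₀ h0]
  linarith

theorem ldS_mem (h0 : 0 < δ) {x : Ei i} (hx : x ∈ Bl i) : 0 ≤ ldS δ x ∧ ldS δ x ≤ 1 := by
  rw [Bl, mem_closedBall_zero_iff] at hx
  exact ⟨le_min zero_le_one (div_nonneg (by linarith) h0.le), min_le_left _ _⟩

theorem ldR_dist (h0 : 0 < δ) (h1 : δ < 1) {x : Ei i} (hx : x ∈ Bl i) : dist (ldR δ x) x ≤ δ := by
  rw [Bl, mem_closedBall_zero_iff] at hx
  have hp := ld_pos h1 x
  set m := max ‖x‖ (1 - δ) with hm
  have hm1 : m ≤ 1 := max_le hx (by linarith)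
  have hm2 : 1 - δ ≤ m := le_max_right _ _
  have hm3 : ‖x‖ ≤ m := le_max_left _ _
  have h2 : ldR δ x - x = (m⁻¹ - 1) • x := by
    unfold ldR
    rw [sub_smul, one_smul]
  have h3 : 0 ≤ m⁻¹ - 1 := by
    have := (one_le_inv₀ hp).2 hm1
    linarith
  rw [dist_eq_norm, h2, norm_smul, Real.norm_of_nonneg h3]
  calc (m⁻¹ - 1) * ‖x‖ ≤ (m⁻¹ - 1) * m := mul_le_mul_of_nonneg_left hm3 h3
    _ = 1 - m := by rw [sub_mul, inv_mul_cancel₀ hp.ne', one_mul]
    _ ≤ δ := by linarith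

/-- the collar can be chosen so thin that `u` moves by at most `1` -/
theorem ld_delta {J : Type} [LinearOrder J] {T : Set (Cube J)} (hs : Spt T)
    (u : Ei i → J → ℝ) (hu : ContinuousOn u (Bl i)) (hm : MapsTo u (Bl i) (Body T)) :
    ∃ δ : ℝ, 0 < δ ∧ δ < 1 ∧ ∀ x ∈ Bl i, ∀ j, |u (ldR δ x) j - u x j| ≤ 1 := by
  obtain ⟨F, hF⟩ := body_spt hs
  have hc : IsCompact (Bl i) := isCompact_closedBall _ _
  have hw : ContinuousOn (fun x (j : {j // j ∈ F}) => u x j.1) (Bl i) :=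
    continuousOn_pi.2 fun j => continuousOn_pi.1 hu j.1
  have huc := hc.uniformContinuousOn_of_continuous hw
  rw [Metric.uniformContinuousOn_iff] at huc
  obtain ⟨d, hd, hd2⟩ := huc 1 one_pos
  refine ⟨min (d / 2) (1 / 2), lt_min (by linarith) (by norm_num),
    lt_of_le_of_lt (min_le_right _ _) (by norm_num), ?_⟩
  intro x hx j
  set δ := min (d / 2) (1 / 2) with hδ
  have h0 : 0 < δ := lt_min (by linarith) (by norm_num)
  have h1 : δ < 1 := lt_of_le_of_lt (min_le_right _ _) (by norm_num)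
  have h2 : dist (ldR δ x) x < d := by
    refine lt_of_le_of_lt (ldR_dist h0 h1 hx) ?_
    refine lt_of_le_of_lt (min_le_left _ _) ?_
    linarith
  have h3 := hd2 _ (ldR_ball h1 x) x hx h2
  by_cases hj : j ∈ F
  · have h4 := dist_le_pi_dist (fun (j : {j // j ∈ F}) => u (ldR δ x) j.1)
      (fun (j : {j // j ∈ F}) => u x j.1) ⟨j, hj⟩
    rw [Real.dist_eq] at h4
    exact h4.trans h3.le
  · rw [hF _ (hm (ldR_ball h1 x)) j hj, hF _ (hm hx) j hj, sub_self, abs_zero]
    exact zero_le_one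

/-- the extension before the push -/
private def ldW {J : Type} {N : ℕ} (δ : ℝ) (u : Ei i → J → ℝ) (v : Ei i → JJ N J → ℝ)
    (φ : Ei i → ZMod N × ℕ → ℝ) (x : Ei i) : JJ N J → ℝ
  | .a g j => (1 - ldS δ x) * v (ldR δ x) (.a g j) + ldS δ x * u (ldR δ x) j
  | .e g k => φ x (g, k)

private theorem ldW_cont {J : Type} {N : ℕ} (h0 : 0 < δ) (h1 : δ < 1) (u : Ei i → J → ℝ)
    (hu : ContinuousOn u (Bl i)) (v : Ei i → JJ N J → ℝ) (hv : ContinuousOn v (Sp i))
    (φ : Ei i → ZMod N × ℕ → ℝ) (hφ : ContinuousOn φ (Bl i)) :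
    ContinuousOn (ldW δ u v φ) (Bl i) := by
  have hur : ∀ j, ContinuousOn (fun x => u (ldR δ x) j) (Bl i) := fun j =>
    (continuousOn_pi.1 hu j).comp (ldR_cont h1).continuousOn (fun x _ => ldR_ball h1 x)
  refine continuousOn_pi.2 fun c => ?_
  cases c with
  | e g k => exact continuousOn_pi.1 hφ (g, k)
  | a g j =>
    have hA : ContinuousOn (fun x => ldW δ u v φ x (.a g j)) (Bl i ∩ {x | 1 - δ ≤ ‖x‖}) := by
      have h3 : ContinuousOn (fun x => v (ldR δ x) (.a g j)) (Bl i ∩ {x | 1 - δ ≤ ‖x‖}) :=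
        (continuousOn_pi.1 hv (.a g j)).comp (ldR_cont h1).continuousOn
          (fun x hx => ldR_sph h1 hx.2)
      exact ((continuousOn_const.sub ldS_cont.continuousOn).mul h3).add
        (ldS_cont.continuousOn.mul ((hur j).mono inter_subset_left))
    have hB : ContinuousOn (fun x => ldW δ u v φ x (.a g j)) (Bl i ∩ {x | ‖x‖ ≤ 1 - δ}) := by
      refine ((hur j).mono inter_subset_left).congr ?_
      intro x hx
      show (1 - ldS δ x) * v (ldR δ x) (.a g j) + ldS δ x * u (ldR δ x) j = _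
      rw [ldS_one h0 hx.2, sub_self, zero_mul, zero_add, one_mul]
    have hcl : IsClosed (Bl i) := Metric.isClosed_closedBall
    have hu2 := hA.union_of_isClosed hB
      (hcl.inter (isClosed_le continuous_const continuous_norm))
      (hcl.inter (isClosed_le continuous_norm continuous_const))
    refine hu2.mono ?_
    intro x hx
    rcases le_total (1 - δ) ‖x‖ with h | h
    · exact Or.inl ⟨hx, h⟩
    · exact Or.inr ⟨hx, h⟩

theorem tgt_lft {J : Type} [LinearOrder J] {N : ℕ} [NeZero N] (n M : ℕ) (hM : n + 3 ≤ M)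
    (T : Set (Cube J)) (hf : T.Finite) (hc : Closed T) (hs : Spt T) :
    Lft n T (Grd 8 (PPf (N := N) M n T)) (JJ.a 0) := by
  intro i hi u v hu hum hv hvm huv
  obtain ⟨δ, h0, h1, hδ⟩ := ld_delta hs u hu hum
  -- the rescaled boundary map
  have h8 : ((8 : ℕ) : ℝ) = 8 := by norm_num
  set v' : Ei i → JJ N J → ℝ := fun a c => v a c / 8 with hv'
  have hv'c : ContinuousOn v' (Sp i) :=
    continuousOn_pi.2 fun c => (continuousOn_pi.1 hv c).div_const 8
  have hv'm : MapsTo v' (Sp i) (Body (PPf (N := N) M n T)) := by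
    intro a ha
    have h2 := (body_grd 8 (by norm_num) _ _).1 (hvm ha)
    rw [h8] at h2
    exact h2
  have hsub : Body (PPf (N := N) M n T) ⊆ Body (PHt M T) := by
    rintro z ⟨Q, hQ, hz⟩
    exact ⟨Q, ppf_sub M n T hQ, hz⟩
  have hv'u : ∀ a ∈ Sp i, ∀ j, v' a (.a 0 j) = u a j := by
    intro a ha j
    show v a (.a 0 j) / 8 = u a j
    rw [huv a ha j, mul_div_cancel_left₀ _ (by norm_num : (8 : ℝ) ≠ 0)]
  -- the join part
  obtain ⟨φ, hφ, hφm, hφe⟩ := em_ext N i M (by omega)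
    (fun a c => v' a (.e c.1 c.2)) (continuousOn_pi.2 fun c => continuousOn_pi.1 hv'c (.e c.1 c.2))
    (fun a ha => ((mem_pht M T (v' a)).1 (hsub (hv'm ha))).2)
  set W := ldW δ u v' φ with hW
  have hWc : ContinuousOn W (Bl i) := ldW_cont h0 h1 u hu v' hv'c φ hφ
  have hW0 : ∀ x ∈ Bl i, ∀ j, W x (.a 0 j) = u (ldR δ x) j := by
    intro x hx j
    show (1 - ldS δ x) * v' (ldR δ x) (.a 0 j) + ldS δ x * u (ldR δ x) j = _
    rcases le_total (1 - δ) ‖x‖ with h | h
    · rw [hv'u _ (ldR_sph h1 h) j]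
      ring
    · rw [ldS_one h0 h]
      ring
  have hWm : MapsTo W (Bl i) (Body (PHt (N := N) M T)) := by
    intro x hx
    rw [mem_pht]
    refine ⟨?_, hφm hx⟩
    rcases le_total (1 - δ) ‖x‖ with h | h
    · obtain ⟨⟨t, ht, htb⟩, -⟩ := (mem_pht M T _).1 (hsub (hv'm (ldR_sph h1 h)))
      refine ⟨t, ht, fun g => ?_⟩
      have h2 : (fun j => u (ldR δ x) j) ∈ t.body := by
        have h3 := htb 0
        have h4 : (fun j => v' (ldR δ x) (.a (0 : ZMod N) j)) = fun j => u (ldR δ x) j := by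
          funext j
          exact hv'u _ (ldR_sph h1 h) j
        rw [h4] at h3
        exact h3
      exact body_convex t _ _ (htb g) h2 _ (ldS_mem h0 hx).1 (ldS_mem h0 hx).2
    · obtain ⟨t, ht, htb⟩ := hum (ldR_ball h1 x)
      refine ⟨t, ht, fun g => ?_⟩
      have h4 : (fun j => W x (.a g j)) = u (ldR δ x) := by
        funext j
        show (1 - ldS δ x) * v' (ldR δ x) (.a g j) + ldS δ x * u (ldR δ x) j = _
        rw [ldS_one h0 h]
        ring
      rw [h4]
      exact htb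
  have hWe : EqOn W v' (Sp i) := by
    intro x hx
    funext c
    cases c with
    | e g k => exact congrFun (hφe hx) (g, k)
    | a g j =>
      show (1 - ldS δ x) * v' (ldR δ x) (.a g j) + ldS δ x * u (ldR δ x) j = _
      rw [ldS_of_sph hx, ldR_of_sph h0 hx]
      ring
  -- the push
  obtain ⟨Φ, hΦc, hΦm, hΦe, hΦb⟩ := push i (Bl i) (isCompact_closedBall _ _)
    (PHt (N := N) M T) (PPf M n T) (pht_finite M T hf) (pht_closed M T) (ppf_closed M n T)
    (ppf_sub M n T) (fun Q hQ hd => ppf_of_dim M n T Q hQ (hd.trans hi)) W hWc hWm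
  refine ⟨fun x c => 8 * Φ x c, continuousOn_pi.2 fun c =>
    (continuousOn_const.mul (continuousOn_pi.1 hΦc c)), ?_, ?_, ?_⟩
  · intro x hx
    rw [body_grd 8 (by norm_num), h8]
    have h2 : (fun c => 8 * Φ x c / 8) = Φ x := by
      funext c
      exact mul_div_cancel_left₀ _ (by norm_num : (8 : ℝ) ≠ 0)
    rw [h2]
    exact hΦm hx
  · intro x hx
    funext c
    have hxb : x ∈ Bl i := Metric.sphere_subset_closedBall hx
    have h2 : W x = v' x := hWe hx
    show 8 * Φ x c = v x c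
    rw [hΦe x hxb (by rw [h2]; exact hv'm hx), h2]
    show 8 * (v x c / 8) = v x c
    exact mul_div_cancel₀ _ (by norm_num : (8 : ℝ) ≠ 0)
  · intro x hx j
    obtain ⟨R, hR, hRb⟩ := hWm hx
    have h2 := body_dist R _ _ (hΦb x hx R hR hRb) hRb (.a 0 j)
    have h3 := hδ x hx j
    rw [hW0 x hx j] at h2
    have h4 : 8 * Φ x (.a 0 j) / 8 = Φ x (.a 0 j) :=
      mul_div_cancel_left₀ _ (by norm_num : (8 : ℝ) ≠ 0)
    show |8 * Φ x (.a 0 j) / 8 - u x j| ≤ 2
    rw [h4]
    rw [abs_le] at h2 h3 ⊢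
    constructor <;> linarith [h2.1, h2.2, h3.1, h3.2]

end AGM
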