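import Pool.Agent.AGM.LB
import Pool.Agent.AGM.TOP

/-!
# AGM-LE: disjoint liftings in the target tower

`W_s x` (`s = 0, 1`): all blocks are `u_s x`, the join part is the vertex `(0, s)`; `push` (TOP) and the factor `8` give `V_s`.
-/

set_option autoImplicit false

noncomputable section

namespace AGM

open AGE Set Topology

/-- all blocks are `a`, the join part is the vertex `(0, s)` -/
private def LE_W {J : Type} {N : ℕ} (s : ℕ) (a : J → ℝ) : JJ N J → ℝ
  | .a _ j => a j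
  | .e g k => if g = 0 ∧ k = s then 1 else 0

private theorem LE_cont {J : Type} {N : ℕ} {i s : ℕ} {Z : Set (Ei i)} {a : Ei i → J → ℝ}
    (ha : ContinuousOn a Z) : ContinuousOn (fun x => LE_W (N := N) s (a x)) Z := by
  rw [continuousOn_pi]
  intro c
  cases c with
  | a g j => exact (continuousOn_pi.1 ha) j
  | e g k => exact continuousOn_const

private theorem LE_cube {J : Type} [LinearOrder J] {N : ℕ} [NeZero N] (M s : ℕ) (hs : s < M)
    {T : Set (Cube J)} {Q : Cube J} (hQ : Q ∈ T) {a : J → ℝ} (ha : a ∈ Q.body) :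
    ∃ R ∈ PHt (N := N) M T, LE_W (N := N) s a ∈ R.body ∧
      ∀ g k, R.lo (.e g k) = (if g = 0 ∧ k = s then 1 else 0) ∧ R.hi (.e g k) = R.lo (.e g k) := by
  classical
  let R : Cube (JJ N J) := mkC (fun _ => Q) (fun g k => if g = 0 ∧ k = s then 1 else 0) ∅
  have hb : ∀ g, blk g R = Q := fun g => blk_mkC _ _ _ g
  have hlo : ∀ g k, R.lo (.e g k) = if g = 0 ∧ k = s then 1 else 0 := fun g k => rfl
  have hfr : ∀ g k, JJ.e g k ∉ R.fr := by
    intro g k h
    have h1 := (mkC_mem_e _ _ _ g k).1 h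
    exact Finset.notMem_empty _ h1
  have hhi : ∀ g k, R.hi (.e g k) = R.lo (.e g k) := fun g k => if_neg (hfr g k)
  refine ⟨R, ⟨⟨Q, hQ, ?_⟩, ⟨?_, ?_, ?_, ?_⟩, ?_⟩, ?_, fun g k => ⟨hlo g k, hhi g k⟩⟩
  · intro g j
    rw [hb]
    exact ⟨le_rfl, le_rfl⟩
  · intro g k
    rw [hhi, hlo]
    split_ifs
    · norm_num
    · norm_num
  · refine (Set.finite_singleton ((0, s) : ZMod N × ℕ)).subset ?_
    intro c hc
    have h1 : R.lo (.e c.1 c.2) = 1 := hc
    rw [hlo] at h1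
    by_contra h2
    rw [if_neg] at h1
    · exact absurd h1 (by norm_num)
    · intro h3
      apply h2
      rw [Set.mem_singleton_iff]
      exact Prod.ext h3.1 h3.2
  · exact ⟨0, s, if_pos ⟨rfl, rfl⟩⟩
  · intro k g g' h1 h2
    rw [hhi, hlo] at h1 h2
    have h3 : g = 0 := by
      by_contra h4
      rw [if_neg fun h5 => h4 h5.1] at h1
      exact absurd h1 (by norm_num)
    have h3' : g' = 0 := by
      by_contra h4
      rw [if_neg fun h5 => h4 h5.1] at h2
      exact absurd h2 (by norm_num)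
    rw [h3, h3']
  · intro g k hk
    refine ⟨?_, hfr g k⟩
    rw [hlo]
    refine if_neg fun h => ?_
    have := h.2
    omega
  · intro c
    cases c with
    | a g j =>
      have h6 : LE_W (N := N) s a (.a g j) = a j := rfl
      rw [h6, ← blk_lo, ← blk_hi, hb]
      exact ha j
    | e g k =>
      have h6 : LE_W (N := N) s a (.e g k) = if g = 0 ∧ k = s then 1 else 0 := rfl
      rw [h6, hhi, hlo]
      split_ifs
      · norm_num
      · norm_num

private theorem LE_one {J : Type} [LinearOrder J] {N : ℕ} [NeZero N] (m M s : ℕ) (hs : s < M)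
    (T : Set (Cube J)) (hf : T.Finite) (u : Ei m → J → ℝ) (hu : ContinuousOn u (Bl m))
    (hum : MapsTo u (Bl m) (Body T)) :
    ∃ V : Ei m → JJ N J → ℝ, ContinuousOn V (Bl m) ∧
      MapsTo V (Bl m) (Body (Grd 8 (PPf (N := N) M m T))) ∧
      (∀ x ∈ Bl m, ∀ j, |V x (.a 0 j) / 8 - u x j| ≤ 2) ∧
      ∀ x ∈ Bl m, V x (.e 0 0) = if s = 0 then 8 else 0 := by
  have h8 : ∀ y : ℝ, 8 * y / 8 = y := fun y => by ring
  obtain ⟨W', h1, h2, _, h4⟩ := push m (Bl m) (isCompact_closedBall 0 1) (PHt (N := N) M T)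
    (PPf (N := N) M m T) (pht_finite M T hf) (pht_closed M T) (ppf_closed M m T) (ppf_sub M m T)
    (fun Q hQ hd => ppf_of_dim M m T Q hQ hd) (fun x => LE_W (N := N) s (u x)) (LE_cont hu) (by
      intro x hx
      obtain ⟨Q, hQ, hxQ⟩ := hum hx
      obtain ⟨R, hR, hxR, -⟩ := LE_cube (N := N) M s hs hQ hxQ
      exact ⟨R, hR, hxR⟩)
  refine ⟨fun x c => 8 * W' x c, ?_, ?_, ?_, ?_⟩
  · rw [continuousOn_pi]
    intro c
    exact continuousOn_const.mul ((continuousOn_pi.1 h1) c)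
  · intro x hx
    rw [body_grd 8 (by norm_num)]
    have h5 : (fun c => 8 * W' x c / ((8 : ℕ) : ℝ)) = W' x := by
      funext c
      push_cast
      exact h8 _
    rw [h5]
    exact h2 hx
  · intro x hx j
    obtain ⟨Q, hQ, hxQ⟩ := hum hx
    obtain ⟨R, hR, hxR, -⟩ := LE_cube (N := N) M s hs hQ hxQ
    have h5 := body_dist R _ _ (h4 x hx R hR hxR) hxR (.a 0 j)
    have h6 : LE_W (N := N) s (u x) (.a 0 j) = u x j := rfl
    rw [h6] at h5
    show |8 * W' x (.a 0 j) / 8 - u x j| ≤ 2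
    rw [h8]
    exact h5.trans (by norm_num)
  · intro x hx
    obtain ⟨Q, hQ, hxQ⟩ := hum hx
    obtain ⟨R, hR, hxR, hRe⟩ := LE_cube (N := N) M s hs hQ hxQ
    have h5 := h4 x hx R hR hxR (.e 0 0)
    obtain ⟨h6, h7⟩ := hRe 0 0
    rw [h7, h6] at h5
    have h9 : W' x (.e 0 0) = ((if (0 : ZMod N) = 0 ∧ 0 = s then 1 else 0 : ℤ) : ℝ) :=
      le_antisymm h5.2 h5.1
    show 8 * W' x (.e 0 0) = if s = 0 then 8 else 0
    by_cases h10 : s = 0
    · rw [if_pos ⟨rfl, h10.symm⟩] at h9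
      rw [if_pos h10, h9]
      norm_num
    · rw [if_neg fun h => h10 h.2.symm] at h9
      rw [if_neg h10, h9]
      norm_num

theorem tgt_dsj {J : Type} [LinearOrder J] {N : ℕ} [NeZero N] (n M : ℕ) (hM : n + 3 ≤ M)
    (T : Set (Cube J)) (hf : T.Finite) (hc : Closed T) (hs : Spt T) :
    Dsj n T (Grd 8 (PPf (N := N) M n T)) (JJ.a 0) := by
  intro u₁ u₂ h1 h1m h2 h2m
  obtain ⟨V₁, a1, a2, a3, a4⟩ := LE_one (N := N) n M 0 (by omega) T hf u₁ h1 h1m
  obtain ⟨V₂, b1, b2, b3, b4⟩ := LE_one (N := N) n M 1 (by omega) T hf u₂ h2 h2m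
  refine ⟨V₁, V₂, a1, a2, b1, b2, fun x hx j => ⟨a3 x hx j, b3 x hx j⟩, ?_⟩
  intro x hx x' hx'
  refine ⟨.e 0 0, ?_⟩
  rw [a4 x hx, b4 x' hx', if_pos rfl, if_neg one_ne_zero]
  norm_num

end AGM
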