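import Pool.Agent.AGM.LC
import Pool.Agent.AGM.TOP

/-!
# AGM-LF: lifting in the source tower

`src_lft`: `v' = v / 8` has values in `Body (SEc M m T) ⊆ Body (PHs M T)` (`body_grd`, `sec_sub`), so (`mem_phs`) its blocks `g ≠ 0` are zero and its join part is in `EM N M`; block `0` is `u` on the sphere. `em_ext` (TOP)
extends the join part to the ball: `φ`. `W x`: block `0` is `u x`, the other blocks are zero, join part `φ x`; `W` maps into `Body (PHs M T)` (`mem_phs`), `W = v'` on the sphere. `push` (TOP) with `Z = Bl i`, `P' = PHs M T`, `P = SEc M m T`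
(`phs_finite`, `phs_closed`, `sec_closed`, `sec_sub`, `sec_of_dim`, `i ≤ m`) gives `W'`: equal to `v'` on the sphere; block `0` moves inside a cube (`body_dist`). `V = 8 W'`.
`src_dsj`: `W_s x` (`s = 0, 1`): block `0` is `u_s x`, other blocks zero, join part the vertex `(0, s)` (value `1` at `.e 0 s`). If `u_s x ∈ Q.body`, `Q ∈ T`, then `W_s x` is in the body of
`R = mkC (fun g => if g = 0 then Q else pt 0) (fun g k => if g = 0 ∧ k = s then 1 else 0) ∅ ∈ PHs M T` (ASM0); after `push` the join part is unchanged; `V_s = 8 W'_s`; the coordinate `.e 0 0` separates: `8` and `0`.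
-/

set_option autoImplicit false

noncomputable section

namespace AGM

open AGE Set Topology

/-- block `0` is `a`, the other blocks are zero, the join part is `b` -/
private def LF_W {J : Type} {N : ℕ} (a : J → ℝ) (b : ZMod N × ℕ → ℝ) : JJ N J → ℝ
  | .a g j => if g = 0 then a j else 0
  | .e g k => b (g, k)

private theorem LF_cont {J : Type} {N : ℕ} {i : ℕ} {Z : Set (Ei i)} {a : Ei i → J → ℝ}
    {b : Ei i → ZMod N × ℕ → ℝ} (ha : ContinuousOn a Z) (hb : ContinuousOn b Z) :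
    ContinuousOn (fun x => LF_W (a x) (b x)) Z := by
  rw [continuousOn_pi]
  intro c
  cases c with
  | a g j =>
    show ContinuousOn (fun x => if g = 0 then a x j else 0) Z
    by_cases hg : g = 0
    · simp only [if_pos hg]
      exact (continuousOn_pi.1 ha) j
    · simp only [if_neg hg]
      exact continuousOn_const
  | e g k => exact (continuousOn_pi.1 hb) (g, k)

private theorem LF_mem {J : Type} [LinearOrder J] {N : ℕ} [NeZero N] (M : ℕ) (T : Set (Cube J)) (hc : Closed T)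
    {a : J → ℝ} {b : ZMod N × ℕ → ℝ} (ha : a ∈ Body T) (hb : b ∈ EM N M) :
    LF_W a b ∈ Body (PHs (N := N) M T) := by
  rw [mem_phs M T hc]
  refine ⟨?_, ?_, ?_⟩
  · have h1 : (fun j => LF_W a b (.a (0 : ZMod N) j)) = a := by
      funext j
      exact if_pos rfl
    rw [h1]
    exact ha
  · intro g hg j
    exact if_neg hg
  · exact hb

private theorem LF_push {J : Type} [LinearOrder J] {N : ℕ} [NeZero N] (m M i : ℕ) (hi : i ≤ m)
    (T : Set (Cube J)) (hf : T.Finite) (hc : Closed T) (W : Ei i → JJ N J → ℝ)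
    (hW : ContinuousOn W (Bl i)) (hWm : MapsTo W (Bl i) (Body (PHs (N := N) M T))) :
    ∃ V : Ei i → JJ N J → ℝ, ContinuousOn V (Bl i) ∧
      MapsTo V (Bl i) (Body (Grd 8 (SEc (N := N) M m T))) ∧
      (∀ z ∈ Bl i, W z ∈ Body (SEc (N := N) M m T) → ∀ c, V z c = 8 * W z c) ∧
      ∀ z ∈ Bl i, ∀ R ∈ PHs (N := N) M T, W z ∈ R.body → (fun c => V z c / 8) ∈ R.body := by
  obtain ⟨W', h1, h2, h3, h4⟩ := push i (Bl i) (isCompact_closedBall 0 1) (PHs (N := N) M T)
    (SEc (N := N) M m T) (phs_finite M T hf) (phs_closed M T hc) (sec_closed M m T hc) (sec_sub M m T)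
    (fun Q hQ hd => sec_of_dim M m T Q hQ (hd.trans hi)) W hW hWm
  have h8 : ∀ y : ℝ, 8 * y / 8 = y := fun y => by ring
  refine ⟨fun x c => 8 * W' x c, ?_, ?_, ?_, ?_⟩
  · rw [continuousOn_pi]
    intro c
    exact continuousOn_const.mul ((continuousOn_pi.1 h1) c)
  · intro x hx
    rw [body_grd 8 (by norm_num)]
    have h5 : (fun c => 8 * W' x c / ((8 : ℕ) : ℝ)) = W' x := by
      funext c
      push_cast
      exact h8 _
    rw [h5]
    exact h2 hx
  · intro z hz hz' c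
    show 8 * W' z c = 8 * W z c
    rw [h3 z hz hz']
  · intro z hz R hR hz'
    have h5 : (fun c => 8 * W' z c / 8) = W' z := by
      funext c
      exact h8 _
    show (fun c => 8 * W' z c / 8) ∈ R.body
    rw [h5]
    exact h4 z hz R hR hz'

private theorem LF_dist {J : Type} [LinearOrder J] {N : ℕ} [NeZero N] {M i : ℕ}
    {T : Set (Cube J)} {u : Ei i → J → ℝ} {b : Ei i → ZMod N × ℕ → ℝ} {V : Ei i → JJ N J → ℝ}
    (hm : ∀ z ∈ Bl i, LF_W (u z) (b z) ∈ Body (PHs (N := N) M T))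
    (h4 : ∀ z ∈ Bl i, ∀ R ∈ PHs (N := N) M T, LF_W (u z) (b z) ∈ R.body → (fun c => V z c / 8) ∈ R.body)
    {x : Ei i} (hx : x ∈ Bl i) (j : J) : |V x (.a 0 j) / 8 - u x j| ≤ 2 := by
  obtain ⟨R, hR, hxR⟩ := hm x hx
  have h5 := body_dist R _ _ (h4 x hx R hR hxR) hxR (.a 0 j)
  have h6 : LF_W (u x) (b x) (.a 0 j) = u x j := if_pos rfl
  rw [h6] at h5
  exact h5.trans (by norm_num)

theorem src_lft {J : Type} [LinearOrder J] {N : ℕ} [NeZero N] (m M : ℕ) (hM : m + 3 ≤ M)
    (T : Set (Cube J)) (hf : T.Finite) (hc : Closed T) (hs : Spt T) :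
    Lft m T (Grd 8 (SEc (N := N) M m T)) (JJ.a 0) := by
  intro i hi u v hu hum hv hvm huv
  have hsub : Sp i ⊆ Bl i := Metric.sphere_subset_closedBall
  have hv8 : ∀ a ∈ Sp i, (fun c => v a c / 8) ∈ Body (SEc (N := N) M m T) := by
    intro a ha
    have h1 := (body_grd 8 (by norm_num) _ _).1 (hvm ha)
    push_cast at h1
    exact h1
  have hvP : ∀ a ∈ Sp i, (fun c => v a c / 8) ∈ Body (PHs (N := N) M T) := by
    intro a ha
    obtain ⟨Q, hQ, h1⟩ := hv8 a ha
    exact ⟨Q, sec_sub M m T hQ, h1⟩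
  have hvc : ContinuousOn (fun a (c : ZMod N × ℕ) => v a (.e c.1 c.2) / 8) (Sp i) := by
    rw [continuousOn_pi]
    intro c
    exact ((continuousOn_pi.1 hv) _).div_const 8
  obtain ⟨Φ, hΦ, hΦm, hΦe⟩ := em_ext N i M (by omega) (fun a c => v a (.e c.1 c.2) / 8) hvc
    (fun a ha => ((mem_phs M T hc _).1 (hvP a ha)).2.2)
  have hWm : ∀ z ∈ Bl i, LF_W (u z) (Φ z) ∈ Body (PHs (N := N) M T) :=
    fun z hz => LF_mem M T hc (hum hz) (hΦm hz)
  obtain ⟨V, h1, h2, h3, h4⟩ := LF_push m M i hi T hf hc (fun x => LF_W (u x) (Φ x)) (LF_cont hu hΦ)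
    (fun z hz => hWm z hz)
  refine ⟨V, h1, h2, ?_, ?_⟩
  · intro a ha
    have h5 : LF_W (u a) (Φ a) = fun c => v a c / 8 := by
      funext c
      cases c with
      | a g j =>
        by_cases hg : g = 0
        · subst hg
          have h6 : LF_W (u a) (Φ a) (.a (0 : ZMod N) j) = u a j := if_pos rfl
          rw [h6, huv a ha j]
          ring
        · have h6 : LF_W (u a) (Φ a) (.a g j) = 0 := if_neg hg
          rw [h6]
          exact (((mem_phs M T hc _).1 (hvP a ha)).2.1 g hg j).symm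
      | e g k => exact congrFun (hΦe ha) (g, k)
    funext c
    have h6 := h3 a (hsub ha) (by
      show LF_W (u a) (Φ a) ∈ _
      rw [h5]
      exact hv8 a ha) c
    rw [h6]
    show 8 * LF_W (u a) (Φ a) c = v a c
    rw [h5]
    ring
  · intro x hx j
    exact LF_dist hWm h4 hx j

/-- the vertex `(0, s)` of the join -/
private def LF_v {N : ℕ} (s : ℕ) (c : ZMod N × ℕ) : ℝ := if c.1 = 0 ∧ c.2 = s then 1 else 0

private theorem LF_vmem {N : ℕ} (M s : ℕ) (hs : s < M) : LF_v (N := N) s ∈ EM N M := by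
  refine ⟨?_, ⟨(0, s), if_pos ⟨rfl, rfl⟩⟩, ?_, ?_⟩
  · intro c
    unfold LF_v
    split_ifs
    · norm_num
    · norm_num
  · intro k g g' hg
    by_cases h1 : g = 0
    · right
      exact if_neg fun h2 => hg (h1.trans h2.1.symm)
    · left
      exact if_neg fun h2 => h1 h2.1
  · intro c hc
    exact if_neg fun h2 => by
      have := h2.2
      omega

private theorem LF_cube {J : Type} [LinearOrder J] {N : ℕ} [NeZero N] (M s : ℕ) (hs : s < M)
    {T : Set (Cube J)} {Q : Cube J} (hQ : Q ∈ T) {a : J → ℝ} (ha : a ∈ Q.body) :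
    ∃ R ∈ PHs (N := N) M T, LF_W a (LF_v (N := N) s) ∈ R.body ∧
      ∀ g k, R.lo (.e g k) = (if g = 0 ∧ k = s then 1 else 0) ∧ R.hi (.e g k) = R.lo (.e g k) := by
  classical
  let R : Cube (JJ N J) := mkC (fun g => if g = 0 then Q else pt 0)
    (fun g k => if g = 0 ∧ k = s then 1 else 0) ∅
  have hb : ∀ g, blk g R = if g = 0 then Q else pt 0 := fun g => blk_mkC _ _ _ g
  have hlo : ∀ g k, R.lo (.e g k) = if g = 0 ∧ k = s then 1 else 0 := fun g k => rfl
  have hfr : ∀ g k, JJ.e g k ∉ R.fr := by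
    intro g k h
    have h1 := (mkC_mem_e _ _ _ g k).1 h
    exact Finset.notMem_empty _ h1
  have hhi : ∀ g k, R.hi (.e g k) = R.lo (.e g k) := fun g k => if_neg (hfr g k)
  have hpt : ∀ g : ZMod N, g ≠ 0 → ∀ j, R.lo (.a g j) = 0 ∧ JJ.a g j ∉ R.fr := by
    intro g hg j
    have h1 := hb g
    rw [if_neg hg] at h1
    constructor
    · rw [← blk_lo, h1]
      rfl
    · rw [← mem_blk, h1]
      exact Finset.notMem_empty j
  refine ⟨R, ⟨?_, hpt, ⟨?_, ?_, ?_, ?_⟩, ?_⟩, ?_, fun g k => ⟨hlo g k, hhi g k⟩⟩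
  · rw [hb, if_pos rfl]
    exact hQ
  · intro g k
    rw [hhi, hlo]
    split_ifs
    · norm_num
    · norm_num
  · refine (Set.finite_singleton ((0, s) : ZMod N × ℕ)).subset ?_
    intro c hc
    have h1 : R.lo (.e c.1 c.2) = 1 := hc
    rw [hlo] at h1
    by_contra h2
    rw [if_neg] at h1
    · exact absurd h1 (by norm_num)
    · intro h3
      apply h2
      rw [Set.mem_singleton_iff]
      exact Prod.ext h3.1 h3.2
  · exact ⟨0, s, if_pos ⟨rfl, rfl⟩⟩
  · intro k g g' h1 h2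
    rw [hhi, hlo] at h1 h2
    have h3 : g = 0 := by
      by_contra h4
      rw [if_neg fun h5 => h4 h5.1] at h1
      exact absurd h1 (by norm_num)
    have h3' : g' = 0 := by
      by_contra h4
      rw [if_neg fun h5 => h4 h5.1] at h2
      exact absurd h2 (by norm_num)
    rw [h3, h3']
  · intro g k hk
    refine ⟨?_, hfr g k⟩
    rw [hlo]
    refine if_neg fun h => ?_
    have := h.2
    omega
  · intro c
    cases c with
    | a g j =>
      by_cases hg : g = 0
      · subst hg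
        have h6 : LF_W a (LF_v (N := N) s) (.a (0 : ZMod N) j) = a j := if_pos rfl
        rw [h6, ← blk_lo, ← blk_hi, hb, if_pos rfl]
        exact ha j
      · have h6 : LF_W a (LF_v (N := N) s) (.a g j) = 0 := if_neg hg
        have h7 : R.hi (.a g j) = R.lo (.a g j) := if_neg (hpt g hg j).2
        rw [h6, h7, (hpt g hg j).1]
        norm_num
    | e g k =>
      have h6 : LF_W a (LF_v (N := N) s) (.e g k) = if g = 0 ∧ k = s then 1 else 0 := rfl
      rw [h6, hhi, hlo]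
      split_ifs
      · norm_num
      · norm_num

private theorem LF_one {J : Type} [LinearOrder J] {N : ℕ} [NeZero N] (m M s : ℕ) (hs : s < M)
    (T : Set (Cube J)) (hf : T.Finite) (hc : Closed T) (u : Ei m → J → ℝ) (hu : ContinuousOn u (Bl m))
    (hum : MapsTo u (Bl m) (Body T)) :
    ∃ V : Ei m → JJ N J → ℝ, ContinuousOn V (Bl m) ∧
      MapsTo V (Bl m) (Body (Grd 8 (SEc (N := N) M m T))) ∧
      (∀ x ∈ Bl m, ∀ j, |V x (.a 0 j) / 8 - u x j| ≤ 2) ∧
      ∀ x ∈ Bl m, V x (.e 0 0) = if s = 0 then 8 else 0 := by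
  have hWm : ∀ z ∈ Bl m, LF_W (u z) (LF_v (N := N) s) ∈ Body (PHs (N := N) M T) :=
    fun z hz => LF_mem M T hc (hum hz) (LF_vmem M s hs)
  obtain ⟨V, h1, h2, _, h4⟩ := LF_push m M m le_rfl T hf hc (fun x => LF_W (u x) (LF_v (N := N) s))
    (LF_cont hu continuousOn_const) (fun z hz => hWm z hz)
  refine ⟨V, h1, h2, fun x hx j => LF_dist (b := fun _ => LF_v (N := N) s) hWm h4 hx j, ?_⟩
  intro x hx
  obtain ⟨Q, hQ, hxQ⟩ := hum hx
  obtain ⟨R, hR, hxR, hRe⟩ := LF_cube (N := N) M s hs hQ hxQ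
  have h5 := h4 x hx R hR hxR (.e 0 0)
  obtain ⟨h6, h7⟩ := hRe 0 0
  rw [h7, h6] at h5
  have h8 : V x (.e 0 0) / 8 = ((if (0 : ZMod N) = 0 ∧ 0 = s then 1 else 0 : ℤ) : ℝ) := le_antisymm h5.2 h5.1
  by_cases h9 : s = 0
  · rw [if_pos ⟨rfl, h9.symm⟩] at h8
    rw [if_pos h9]
    push_cast at h8
    linarith
  · rw [if_neg fun h => h9 h.2.symm] at h8
    rw [if_neg h9]
    push_cast at h8
    linarith

theorem src_dsj {J : Type} [LinearOrder J] {N : ℕ} [NeZero N] (m M : ℕ) (hM : m + 3 ≤ M)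
    (T : Set (Cube J)) (hf : T.Finite) (hc : Closed T) (hs : Spt T) :
    Dsj m T (Grd 8 (SEc (N := N) M m T)) (JJ.a 0) := by
  intro u₁ u₂ h1 h1m h2 h2m
  obtain ⟨V₁, a1, a2, a3, a4⟩ := LF_one (N := N) m M 0 (by omega) T hf hc u₁ h1 h1m
  obtain ⟨V₂, b1, b2, b3, b4⟩ := LF_one (N := N) m M 1 (by omega) T hf hc u₂ h2 h2m
  refine ⟨V₁, V₂, a1, a2, b1, b2, fun x hx j => ⟨a3 x hx j, b3 x hx j⟩, ?_⟩
  intro x hx x' hx'
  refine ⟨.e 0 0, ?_⟩
  rw [a4 x hx, b4 x' hx', if_pos rfl, if_neg one_ne_zero]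
  norm_num

end AGM
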