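import Pool.Agent.AGM.LB
import Pool.Agent.AGM.LC
import Pool.Agent.AGM.LD
import Pool.Agent.AGM.LE
import Pool.Agent.AGM.LF

/-!
# AGM-LFT: lifting properties of the two towers (owner helper36)

The statements are in the imported modules: `ppf_basic` (LB), `sec_basic` (LC), `tgt_lft` (LD), `tgt_dsj` (LE), `src_lft`, `src_dsj` (LF).
-/
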