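import Pool.Agent.AGM.Defs
import Pool.Agent.AGE.LIM6

/-!
# AGM-QD1: covering dimension of the quotient

`X` is compact with maps `Z k` as in `AGE.lim6` (LIM6), the group `G` acts by homeomorphisms through permutations of the
coordinates at each level (`hact`). Then `X / G` has covering dimension at most `m`: at a suitable level `X` is covered
by the open sets of the points in the open unit cubes shifted by `c r`, `r ≤ m`, and the images in `X / G` of the cubes
with the same shift are equal or disjoint.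
-/

set_option autoImplicit false

noncomputable section

namespace AGM

open AGE Set Topology

private theorem QD1_min {α : Type} (D : Finset α) (f : α → ℝ) (hf : ∀ d, 0 < f d) :
    ∃ ε : ℝ, 0 < ε ∧ ∀ d ∈ D, ε ≤ f d := by
  classical
  induction D using Finset.induction_on with
  | empty => exact ⟨1, one_pos, fun d hd => absurd hd (Finset.notMem_empty d)⟩
  | insert a D ha ih =>
    obtain ⟨ε, h0, h1⟩ := ih
    refine ⟨min ε (f a), lt_min h0 (hf a), fun d hd => ?_⟩
    rcases Finset.mem_insert.1 hd with rfl | hd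
    · exact min_le_right _ _
    · exact (min_le_left _ _).trans (h1 d hd)

/-- compactness -/
private theorem QD1_cpt {Y : Type} [TopologicalSpace Y] [CompactSpace Y] {K : Type}
    (ζ : Y → K → ℝ) (hc : Continuous ζ) (hi : Function.Injective ζ) {I : Type} (U : I → Set Y)
    (hU : ∀ i, IsOpen (U i)) (hc' : (⋃ i, U i) = Set.univ) :
    ∃ (D : Finset K) (ε : ℝ), 0 < ε ∧
      ∀ y, ∃ i, ∀ y', (∀ d ∈ D, |ζ y' d - ζ y d| < ε) → y' ∈ U i := by
  classical
  have hemb := hc.isClosedEmbedding hi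
  have h1 : ∀ i, ∃ O : Set (K → ℝ), IsOpen O ∧ ζ ⁻¹' O = U i := fun i =>
    hemb.isInducing.isOpen_iff.1 (hU i)
  choose O hO hOU using h1
  have h2 : Set.range ζ ⊆ ⋃ i, O i := by
    rintro _ ⟨y, rfl⟩
    have h3 : y ∈ ⋃ i, U i := by
      rw [hc']
      trivial
    obtain ⟨i, hi'⟩ := Set.mem_iUnion.1 h3
    rw [← hOU i] at hi'
    exact Set.mem_iUnion.2 ⟨i, hi'⟩
  obtain ⟨V, hV, h4⟩ := lebesgue_number_lemma (isCompact_range hc) hO h2
  rw [Pi.uniformity, Filter.mem_iInf'] at hV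
  obtain ⟨T, hT, V', hV', _, hVV, _⟩ := hV
  have h5 : ∀ d, ∃ ε : ℝ, 0 < ε ∧ ∀ a b : K → ℝ, |b d - a d| < ε → (a, b) ∈ V' d := by
    intro d
    obtain ⟨W, hW, hWV⟩ := Filter.mem_comap.1 (hV' d)
    obtain ⟨ε, hε, h6⟩ := Metric.mem_uniformity_dist.1 hW
    refine ⟨ε, hε, fun a b hab => hWV ?_⟩
    show (a d, b d) ∈ W
    apply h6
    rw [dist_comm, Real.dist_eq]
    exact hab
  choose ε hε h7 using h5
  obtain ⟨ε0, h8, h9⟩ := QD1_min hT.toFinset ε hε
  refine ⟨hT.toFinset, ε0, h8, fun y => ?_⟩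
  obtain ⟨i, hi'⟩ := h4 (ζ y) ⟨y, rfl⟩
  refine ⟨i, fun y' hy' => ?_⟩
  rw [← hOU i]
  apply hi'
  show (ζ y, ζ y') ∈ V
  rw [hVV]
  refine Set.mem_iInter₂.2 fun d hd => h7 d _ _ ?_
  have hd' : d ∈ hT.toFinset := hT.mem_toFinset.2 hd
  exact (hy' d hd').trans_le (h9 d hd')

/-- one level up the differences are at least `8` times as large -/
private theorem QD1_up {Y : Type} (J : ℕ → Type) (e : ∀ k, J k → J (k + 1)) (M : ℕ → ℕ)
    (hM : ∀ k, 8 ≤ M k) (Z : ∀ k, Y → J k → ℝ)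
    (hZe : ∀ k y j, Z k y j = Z (k + 1) y (e k j) / (M k : ℝ)) (k : ℕ) (j : J k) (m : ℕ)
    (hm : k ≤ m) :
    ∃ j' : J m, ∀ y y', |Z k y j - Z k y' j| * 8 ^ (m - k) ≤ |Z m y j' - Z m y' j'| := by
  induction m, hm using Nat.le_induction with
  | base =>
    refine ⟨j, fun y y' => ?_⟩
    rw [Nat.sub_self, pow_zero, mul_one]
  | succ m hm ih =>
    obtain ⟨j', h⟩ := ih
    refine ⟨e m j', fun y y' => ?_⟩
    have h1 := h y y'
    have hM' : (8 : ℝ) ≤ (M m : ℝ) := by exact_mod_cast hM m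
    have h2 : Z (m + 1) y (e m j') - Z (m + 1) y' (e m j') =
        (M m : ℝ) * (Z m y j' - Z m y' j') := by
      rw [hZe m y j', hZe m y' j']
      have h3 : (M m : ℝ) ≠ 0 := by positivity
      field_simp
    rw [h2, abs_mul, abs_of_pos (by linarith : (0 : ℝ) < M m), Nat.succ_sub hm, pow_succ]
    calc |Z k y j - Z k y' j| * (8 ^ (m - k) * 8) = 8 * (|Z k y j - Z k y' j| * 8 ^ (m - k)) := by
          ring
      _ ≤ 8 * |Z m y j' - Z m y' j'| := by
          exact mul_le_mul_of_nonneg_left h1 (by norm_num)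
      _ ≤ (M m : ℝ) * |Z m y j' - Z m y' j'| :=
          mul_le_mul_of_nonneg_right hM' (abs_nonneg _)

/-- a level `m` and finitely many coordinates -/
private theorem QD1_lev {Y : Type} [TopologicalSpace Y] [CompactSpace Y] (J : ℕ → Type)
    (e : ∀ k, J k → J (k + 1)) (M : ℕ → ℕ) (hM : ∀ k, 8 ≤ M k) (Z : ∀ k, Y → J k → ℝ)
    (hZc : ∀ k, Continuous (Z k)) (hZi : ∀ y y', (∀ k, Z k y = Z k y') → y = y')
    (hZe : ∀ k y j, Z k y j = Z (k + 1) y (e k j) / (M k : ℝ)) {I : Type} (U : I → Set Y)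
    (hU : ∀ i, IsOpen (U i)) (hc' : (⋃ i, U i) = Set.univ) :
    ∃ (m : ℕ) (D : Finset (J m)), ∀ y, ∃ i, ∀ y', (∀ j ∈ D, |Z m y' j - Z m y j| < 1) →
      y' ∈ U i := by
  classical
  have h1 : Continuous (fun (y : Y) (d : Σ k, J k) => Z d.1 y d.2) :=
    continuous_pi fun d => (continuous_apply d.2).comp (hZc d.1)
  have h2 : Function.Injective (fun (y : Y) (d : Σ k, J k) => Z d.1 y d.2) := by
    intro y y' h
    refine hZi y y' fun k => ?_
    funext j
    exact congrFun h ⟨k, j⟩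
  obtain ⟨D, ε, hε, h3⟩ := QD1_cpt _ h1 h2 U hU hc'
  obtain ⟨t, ht⟩ := exists_pow_lt_of_lt_one hε (by norm_num : (1 / 8 : ℝ) < 1)
  have h4 : ∀ d : {d // d ∈ D}, ∃ j' : J (D.sup Sigma.fst + t), ∀ y y',
      |Z d.1.1 y d.1.2 - Z d.1.1 y' d.1.2| * 8 ^ (D.sup Sigma.fst + t - d.1.1) ≤
        |Z (D.sup Sigma.fst + t) y j' - Z (D.sup Sigma.fst + t) y' j'| := by
    intro d
    have h5 : d.1.1 ≤ D.sup Sigma.fst := Finset.le_sup (f := Sigma.fst) d.2
    exact QD1_up J e M hM Z hZe d.1.1 d.1.2 (D.sup Sigma.fst + t) (by omega)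
  choose j' hj' using h4
  refine ⟨D.sup Sigma.fst + t, Finset.univ.image j', fun y => ?_⟩
  obtain ⟨i, hi⟩ := h3 y
  refine ⟨i, fun y' hy' => hi y' fun d hd => ?_⟩
  have h6 := hj' ⟨d, hd⟩ y' y
  have h7 := hy' (j' ⟨d, hd⟩) (Finset.mem_image_of_mem _ (Finset.mem_univ _))
  have h5 : d.1 ≤ D.sup Sigma.fst := Finset.le_sup (f := Sigma.fst) hd
  have h8 : (8 : ℝ) ^ t ≤ 8 ^ (D.sup Sigma.fst + t - d.1) :=
    pow_le_pow_right₀ (by norm_num) (by omega)
  have h9 : |Z d.1 y' d.2 - Z d.1 y d.2| * 8 ^ t < 1 := by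
    refine lt_of_le_of_lt ?_ h7
    exact (mul_le_mul_of_nonneg_left h8 (abs_nonneg _)).trans h6
  have h10 : (1 : ℝ) < ε * 8 ^ t := by
    have h11 : (1 / 8 : ℝ) ^ t * 8 ^ t = 1 := by
      rw [← mul_pow]
      norm_num
    have h12 : (0 : ℝ) < 8 ^ t := by positivity
    calc (1 : ℝ) = (1 / 8 : ℝ) ^ t * 8 ^ t := h11.symm
      _ < ε * 8 ^ t := mul_lt_mul_of_pos_right ht h12
  have h13 : |Z d.1 y' d.2 - Z d.1 y d.2| * 8 ^ t < ε * 8 ^ t := h9.trans h10
  exact lt_of_mul_lt_mul_right h13 (by positivity)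

private def QD1_c (n : ℕ) (r : Fin (n + 1)) : ℝ := ((r : ℕ) + 1) / ((n : ℝ) + 2)

private theorem QD1_c_pos (n : ℕ) (r : Fin (n + 1)) : 0 < QD1_c n r := by
  unfold QD1_c
  positivity

private theorem QD1_c_lt (n : ℕ) (r : Fin (n + 1)) : QD1_c n r < 1 := by
  unfold QD1_c
  rw [div_lt_one (by positivity)]
  have h1 : ((r : ℕ) : ℝ) ≤ n := by exact_mod_cast Nat.lt_succ_iff.1 r.2
  linarith

private theorem QD1_c_inj (n : ℕ) (r r' : Fin (n + 1)) (w : ℤ)
    (h : QD1_c n r - QD1_c n r' = w) : r = r' := by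
  have h1 := QD1_c_pos n r
  have h2 := QD1_c_lt n r
  have h3 := QD1_c_pos n r'
  have h4 := QD1_c_lt n r'
  have h5 : (w : ℝ) < 1 := by linarith
  have h6 : (-1 : ℝ) < w := by linarith
  have h7 : w < 1 := by exact_mod_cast h5
  have h8 : -1 < w := by exact_mod_cast h6
  have h9 : w = 0 := by omega
  rw [h9, Int.cast_zero, sub_eq_zero] at h
  unfold QD1_c at h
  have h10 : ((n : ℝ) + 2) ≠ 0 := by positivity
  rw [div_left_inj' h10] at h
  have h11 : ((r : ℕ) : ℝ) = ((r' : ℕ) : ℝ) := by linarith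
  exact Fin.ext (by exact_mod_cast h11)

/-- for some shift no coordinate is integral -/
private theorem QD1_shift {K : Type} (n : ℕ) (x : K → ℝ) (s : Finset K) (hs : s.card ≤ n)
    (h : ∀ j, j ∉ s → ∃ w : ℤ, x j = w) :
    ∃ r : Fin (n + 1), ∀ j, ∀ w : ℤ, x j - QD1_c n r ≠ w := by
  classical
  by_contra hcon
  push Not at hcon
  choose j w hw using hcon
  have h1 : ∀ r, j r ∈ s := by
    intro r
    by_contra hr
    obtain ⟨v, hv⟩ := h (j r) hr
    have h2 := hw r
    rw [hv] at h2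
    have h3 : QD1_c n r = ((v - w r : ℤ) : ℝ) := by
      push_cast
      linarith
    have h4 := QD1_c_pos n r
    have h5 := QD1_c_lt n r
    rw [h3] at h4 h5
    have h6 : 0 < v - w r := by exact_mod_cast h4
    have h7 : v - w r < 1 := by exact_mod_cast h5
    omega
  have h2 : Function.Injective j := by
    intro r r' hrr
    have h3 := hw r
    have h4 := hw r'
    rw [← hrr] at h4
    refine QD1_c_inj n r r' (w r' - w r) ?_
    push_cast
    linarith
  have h3 := Finset.card_le_card_of_injOn (s := (Finset.univ : Finset (Fin (n + 1)))) (t := s) j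
    (fun r _ => h1 r) (fun _ _ _ _ hrr => h2 hrr)
  rw [Finset.card_univ, Fintype.card_fin] at h3
  omega

theorem covdim_quot (m : ℕ) {G X : Type} [Group G] [TopologicalSpace X] [CompactSpace X]
    [MulAction G X] (hG : ∀ g : G, Continuous fun x : X => g • x) (J : ℕ → Type)
    (e : ∀ k, J k → J (k + 1)) (Z : ∀ k, X → J k → ℝ) (hZc : ∀ k, Continuous (Z k))
    (hZi : ∀ y y', (∀ k, Z k y = Z k y') → y = y')
    (hZe : ∀ k y j, Z k y j = Z (k + 1) y (e k j) / 8)
    (hF : ∀ k, ∃ F : Finset (J k), ∀ y, ∀ j, j ∉ F → Z k y j = 0)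
    (hn : ∀ k y, ∃ s : Finset (J k), s.card ≤ m ∧ ∀ j, j ∉ s → ∃ w : ℤ, Z k y j = w)
    (hact : ∀ k (g : G), ∃ σ : Equiv.Perm (J k), ∀ y, Z k (g • y) = actP σ (Z k y)) :
    CovDimLE (Quotient (MulAction.orbitRel G X)) m := by
  classical
  intro I _ U hU hcov
  have hcs : ContinuousConstSMul G X := ⟨hG⟩
  let π : X → Quotient (MulAction.orbitRel G X) := Quotient.mk _
  have hπc : Continuous π := continuous_quot_mk
  have hπo : IsOpenMap π := isOpenMap_quotient_mk'_mul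
  have hπs : ∀ b, ∃ x, π x = b := fun b => Quotient.exists_rep b
  have hπg : ∀ (g : G) (x : X), π (g • x) = π x := fun g x => Quotient.sound ⟨g, rfl⟩
  have hπe : ∀ x x' : X, π x' = π x → ∃ g : G, g • x = x' := by
    intro x x' h
    exact Quotient.exact h
  obtain ⟨m₀, D, hD⟩ := QD1_lev J e (fun _ => 8) (fun _ => le_refl 8) Z hZc hZi
    (by
      intro k y j
      rw [hZe]
      norm_num) (fun i => π ⁻¹' U i) (fun i => (hU i).preimage hπc) (by
      rw [← Set.preimage_iUnion, hcov, Set.preimage_univ])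
  obtain ⟨F, hF0⟩ := hF m₀
  have hcj : ∀ j, Continuous fun y => Z m₀ y j := fun j => (continuous_apply j).comp (hZc m₀)
  obtain ⟨C, hC⟩ := isCompact_univ.exists_bound_of_continuousOn
    (f := fun (y : X) (j : {j // j ∈ F}) => Z m₀ y j.1)
    (continuous_pi fun j : {j // j ∈ F} => hcj j.1).continuousOn
  obtain ⟨b, hb⟩ := exists_nat_ge C
  have hb' : ∀ y, ∀ j : {j // j ∈ F}, |Z m₀ y j.1| ≤ b := by
    intro y j
    have h1 := hC y (Set.mem_univ y)
    have h2 := norm_le_pi_norm (fun j : {j // j ∈ F} => Z m₀ y j.1) j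
    rw [Real.norm_eq_abs] at h2
    exact h2.trans (h1.trans hb)
  let W : Fin (m + 1) → (J m₀ → ℤ) → Set X := fun r l =>
    {x | ∀ j, ((l j : ℤ) : ℝ) < Z m₀ x j - QD1_c m r ∧ Z m₀ x j - QD1_c m r < ((l j : ℤ) : ℝ) + 1}
  let lab : Fin (m + 1) → X → J m₀ → ℤ := fun r x j => ⌊Z m₀ x j - QD1_c m r⌋
  have hlab : ∀ r l x, x ∈ W r l → l = lab r x := by
    intro r l x hx
    funext j
    exact (Int.floor_eq_iff.2 ⟨(hx j).1.le, (hx j).2⟩).symm
  have hoff : ∀ r l x, x ∈ W r l → ∀ j, j ∉ F → l j = -1 := by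
    intro r l x hx j hj
    have h1 := hx j
    rw [hF0 x j hj] at h1
    have h2 := QD1_c_pos m r
    have h3 := QD1_c_lt m r
    have h4 : ((l j : ℤ) : ℝ) < 0 := by linarith [h1.1]
    have h5 : (-1 : ℝ) < ((l j : ℤ) : ℝ) + 1 := by linarith [h1.2]
    have h6 : l j < 0 := by exact_mod_cast h4
    have h7 : -1 < l j + 1 := by exact_mod_cast h5
    omega
  have hWo : ∀ r l, IsOpen (W r l) := by
    intro r l
    by_cases hl : ∀ j, j ∉ F → l j = -1
    · have h1 : W r l = ⋂ j : {j // j ∈ F}, {x | ((l j.1 : ℤ) : ℝ) < Z m₀ x j.1 - QD1_c m r ∧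
          Z m₀ x j.1 - QD1_c m r < ((l j.1 : ℤ) : ℝ) + 1} := by
        ext x
        rw [Set.mem_iInter]
        constructor
        · exact fun hx j => hx j.1
        · intro hx j
          by_cases hj : j ∈ F
          · exact hx ⟨j, hj⟩
          · rw [hF0 x j hj, hl j hj]
            have h2 := QD1_c_pos m r
            have h3 := QD1_c_lt m r
            push_cast
            constructor <;> linarith
      rw [h1]
      refine isOpen_iInter_of_finite fun j => ?_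
      exact (isOpen_lt continuous_const ((hcj j.1).sub continuous_const)).inter
        (isOpen_lt ((hcj j.1).sub continuous_const) continuous_const)
    · have h1 : W r l = ∅ := by
        rw [Set.eq_empty_iff_forall_notMem]
        exact fun x hx => hl (hoff r l x hx)
      rw [h1]
      exact isOpen_empty
  have hWact : ∀ (r : Fin (m + 1)) (g : G) (x : X), π '' W r (lab r x) = π '' W r (lab r (g • x)) := by
    intro r g x
    obtain ⟨σ, hσ⟩ := hact m₀ g
    have h1 : ∀ z j, Z m₀ (g • z) j = Z m₀ z (σ.symm j) := fun z j => congrFun (hσ z) j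
    have h2 : ∀ j, lab r (g • x) j = lab r x (σ.symm j) := by
      intro j
      show ⌊Z m₀ (g • x) j - QD1_c m r⌋ = ⌊Z m₀ x (σ.symm j) - QD1_c m r⌋
      rw [h1]
    have h3 : ∀ z, z ∈ W r (lab r x) ↔ g • z ∈ W r (lab r (g • x)) := by
      intro z
      constructor
      · intro hz j
        rw [h1, h2]
        exact hz (σ.symm j)
      · intro hz j
        have h4 := hz (σ j)
        rw [h1, h2, Equiv.symm_apply_apply] at h4
        exact h4
    ext q
    constructor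
    · rintro ⟨z, hz, rfl⟩
      exact ⟨g • z, (h3 z).1 hz, hπg g z⟩
    · rintro ⟨z, hz, rfl⟩
      refine ⟨g⁻¹ • z, (h3 _).2 ?_, hπg g⁻¹ z⟩
      rw [smul_inv_smul]
      exact hz
  let 𝒲 : Set (Set (Quotient (MulAction.orbitRel G X))) :=
    {S | ∃ r l, (W r l).Nonempty ∧ S = π '' W r l}
  have hfin : 𝒲.Finite := by
    have h1 : Finite ({j // j ∈ F} → {z : ℤ // z ∈ Finset.Icc (-(b : ℤ) - 2) (b + 2)}) :=
      Pi.finite
    have h2 : Finite (Fin (m + 1) × ({j // j ∈ F} → {z : ℤ // z ∈ Finset.Icc (-(b : ℤ) - 2) (b + 2)})) :=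
      Finite.instProd
    refine (Set.finite_range fun q : Fin (m + 1) × ({j // j ∈ F} →
      {z : ℤ // z ∈ Finset.Icc (-(b : ℤ) - 2) (b + 2)}) =>
      π '' W q.1 (fun j => if h : j ∈ F then (q.2 ⟨j, h⟩).1 else -1)).subset ?_
    rintro S ⟨r, l, ⟨x, hx⟩, rfl⟩
    have h3 : ∀ j : {j // j ∈ F}, l j.1 ∈ Finset.Icc (-(b : ℤ) - 2) (b + 2) := by
      intro j
      have h4 := abs_le.1 (hb' x j)
      have h5 := hx j.1
      have h6 := QD1_c_pos m r
      have h7 := QD1_c_lt m r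
      have h8 : ((l j.1 : ℤ) : ℝ) < ((b : ℤ) : ℝ) := by
        push_cast
        linarith [h4.2, h5.1]
      have h9 : (-((b : ℤ) : ℝ)) - 1 < ((l j.1 : ℤ) : ℝ) + 1 := by
        push_cast
        linarith [h4.1, h5.2]
      have h10 : l j.1 < (b : ℤ) := by exact_mod_cast h8
      have h11 : -(b : ℤ) - 1 < l j.1 + 1 := by exact_mod_cast h9
      rw [Finset.mem_Icc]
      constructor <;> omega
    refine ⟨(r, fun j => ⟨l j.1, h3 j⟩), ?_⟩
    show π '' W r (fun j => if h : j ∈ F then l j else -1) = π '' W r l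
    refine congrArg (fun l' => π '' W r l') (funext fun j => ?_)
    by_cases hj : j ∈ F
    · exact if_pos hj
    · rw [hoff r l x hx j hj]
      exact if_neg hj
  have hfin' : Finite {S // S ∈ 𝒲} := hfin.to_subtype
  refine ⟨{S // S ∈ 𝒲}, hfin', fun S => S.1, ?_, ?_, ?_, ?_⟩
  · rintro ⟨S, r, l, -, rfl⟩
    exact hπo _ (hWo r l)
  · rw [Set.eq_univ_iff_forall]
    intro q
    obtain ⟨x, rfl⟩ := hπs q
    obtain ⟨s, hs, hs'⟩ := hn m₀ x
    obtain ⟨r, hr⟩ := QD1_shift m (Z m₀ x) s hs hs'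
    have h1 : x ∈ W r (lab r x) := by
      intro j
      exact ⟨lt_of_le_of_ne (Int.floor_le _) (fun h => hr j _ h.symm), Int.lt_floor_add_one _⟩
    exact Set.mem_iUnion.2 ⟨⟨π '' W r (lab r x), r, lab r x, ⟨x, h1⟩, rfl⟩, ⟨x, h1, rfl⟩⟩
  · rintro ⟨S, r, l, ⟨x₀, hx₀⟩, rfl⟩
    obtain ⟨i, hi⟩ := hD x₀
    refine ⟨i, ?_⟩
    rintro _ ⟨x, hx, rfl⟩
    refine hi x fun j _ => ?_
    have h1 := hx₀ j
    have h2 := hx j
    rw [abs_lt]
    constructor <;> linarith [h1.1, h1.2, h2.1, h2.2]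
  · intro q
    obtain ⟨x, rfl⟩ := hπs q
    have h1 : {S : {S // S ∈ 𝒲} | π x ∈ S.1}.ncard ≤
        ((fun r => π '' W r (lab r x)) '' (Set.univ : Set (Fin (m + 1)))).ncard := by
      refine Set.ncard_le_ncard_of_injOn (fun S => S.1) ?_ ?_ (Set.toFinite _)
      · rintro ⟨S, r, l, -, rfl⟩ ⟨x', hx', hxx⟩
        obtain ⟨g, rfl⟩ := hπe x x' hxx
        refine ⟨r, Set.mem_univ r, ?_⟩
        show π '' W r (lab r x) = π '' W r l
        rw [hlab r l _ hx']
        exact hWact r g x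
      · exact fun S _ S' _ h => Subtype.ext h
    refine h1.trans ((Set.ncard_image_le Set.finite_univ).trans ?_)
    rw [Set.ncard_univ, Nat.card_fin]

end AGM
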