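import Pool.Agent.AGM.SR1
import Pool.Agent.AGM.BIG
import Pool.Agent.AGM.LFT

/-!
# AGM-SR2: the source tower
-/

set_option autoImplicit false

noncomputable section

namespace AGM

open AGE Set Topology

private structure Stg where
  J : Type
  o : LinearOrder J
  T : Set (Cube J)
  τ : Equiv.Perm J

attribute [local instance] Stg.o

private theorem sr2_ne (p : ℕ) [Fact p.Prime] (k : ℕ) : NeZero (p ^ (k + 1)) :=
  ⟨pow_ne_zero _ (Fact.out : p.Prime).ne_zero⟩

attribute [local instance] sr2_ne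

private def nxt (p : ℕ) [Fact p.Prime] (m k : ℕ) (s : Stg) : Stg :=
  ⟨JJ (p ^ (k + 1)) s.J, inferInstance, Grd 8 (SEc (N := p ^ (k + 1)) (m + 3) m s.T),
    sjp (p ^ (k + 1)) s.τ⟩

private def stg (p : ℕ) [Fact p.Prime] (m : ℕ) : ℕ → Stg
  | 0 => ⟨Fin 0, inferInstance, {pt 0}, 1⟩
  | k + 1 => nxt p m k (stg p m k)

private structure Good (p m k : ℕ) (s : Stg) : Prop where
  cnt : Countable s.J
  fin : s.T.Finite
  clo : Closed s.T
  spt : Spt s.T
  ord : s.τ ^ (p ^ k) = 1
  inv : Inv s.τ s.T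
  dim : ∀ Q ∈ s.T, Q.dim ≤ m

private theorem jj_countable (N : ℕ) [NeZero N] (J : Type) [Countable J] :
    Countable (JJ N J) := by
  have h : Function.Injective (fun x : JJ N J => (match x with
      | .a g j => Sum.inl (g, j)
      | .e g k => Sum.inr (g, k) : (ZMod N × J) ⊕ (ZMod N × ℕ))) := by
    intro x y hxy
    cases x <;> cases y <;> simp_all
  exact h.countable

private theorem good_zero (p m : ℕ) [Fact p.Prime] : Good p m 0 (stg p m 0) where
  cnt := by
    show Countable (Fin 0)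
    infer_instance
  fin := Set.finite_singleton _
  clo := by
    intro P hP Q hQ
    have hP' : P = pt (0 : Fin 0 → ℤ) := hP
    show Q = pt (0 : Fin 0 → ℤ)
    refine Cube.ext ?_ ?_
    · funext j
      exact j.elim0
    · ext j
      exact j.elim0
  spt := ⟨∅, fun Q _ j _ => Fin.elim0 j⟩
  ord := by
    show (1 : Equiv.Perm (Fin 0)) ^ (p ^ 0) = 1
    rw [one_pow]
  inv := by
    intro Q
    have h : Q.act (1 : Equiv.Perm (Fin 0)) = Q := by
      refine Cube.ext ?_ ?_
      · funext j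
        exact j.elim0
      · ext j
        exact j.elim0
    show Q ∈ ({pt 0} : Set (Cube (Fin 0))) ↔ Q.act (1 : Equiv.Perm (Fin 0)) ∈ _
    rw [h]
    exact Iff.rfl
  dim := by
    intro Q hQ
    have hQ' : Q = pt (0 : Fin 0 → ℤ) := hQ
    rw [hQ']
    show (∅ : Finset (Fin 0)).card ≤ m
    rw [Finset.card_empty]
    exact Nat.zero_le _

private theorem good_succ (p m k : ℕ) [Fact p.Prime] (s : Stg) (h : Good p m k s) :
    Good p m (k + 1) (nxt p m k s) := by
  obtain ⟨b1, b2, b3, b4, b5⟩ :=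
    sec_basic (N := p ^ (k + 1)) m (m + 3) s.T h.fin h.clo h.spt
  have hc := h.cnt
  refine ⟨jj_countable _ _, b4, closed_grd 8 _, b5, ?_, ?_, ?_⟩
  · refine sjp_pow (N := p ^ (k + 1)) s.τ ?_
    rw [pow_succ, pow_mul, h.ord, one_pow]
  · exact inv_grd _ 8 _ (sec_inv (N := p ^ (k + 1)) s.τ (m + 3) m s.T h.inv)
  · exact fun Q hQ => sec_dim (m + 3) m s.T Q hQ

private theorem good_all (p m : ℕ) [Fact p.Prime] (k : ℕ) : Good p m k (stg p m k) := by
  induction k with
  | zero => exact good_zero p m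
  | succ k ih => exact good_succ p m k _ ih

theorem src_tower (p : ℕ) [Fact p.Prime] (m : ℕ) :
    ∃ (J : ℕ → Type) (_ : ∀ k, LinearOrder (J k)) (T : ∀ k, Set (Cube (J k)))
      (e : ∀ k, J k → J (k + 1)) (τ : ∀ k, Equiv.Perm (J k)),
      Tow m J T e ∧ Big m J T ∧ (∀ k, τ k ^ (p ^ k) = 1) ∧ (∀ k, Inv (τ k) (T k)) ∧
      (∀ k j, τ (k + 1) (e k j) = e k (τ k j)) ∧ (∀ k, ∀ Q ∈ T k, Q.dim ≤ m) ∧
      ∀ k, ∀ a : ℕ, ¬ p ^ (k + 1) ∣ a → ∀ z ∈ Body (T (k + 1)), actP (τ (k + 1) ^ a) z ≠ z := by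
  have G := good_all p m
  refine ⟨fun k => (stg p m k).J, fun k => (stg p m k).o, fun k => (stg p m k).T,
    fun k => (JJ.a (0 : ZMod (p ^ (k + 1))) : (stg p m k).J → JJ (p ^ (k + 1)) (stg p m k).J),
    fun k => (stg p m k).τ, ?_, ?_, fun k => (G k).ord, fun k => (G k).inv, fun k j => rfl,
    fun k => (G k).dim, fun k a ha z hz => sec_sep (N := p ^ (k + 1)) _ _ _ _ z hz a ha⟩
  · exact
      { cnt := fun k => (G k).cnt
        fin := fun k => (G k).fin
        clo := fun k => (G k).clo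
        spt := fun k => (G k).spt
        inj := fun k x y hxy => by
          injection hxy
        prj := fun k Q' hQ' => sec_prj (N := p ^ (k + 1)) _ _ _ Q' hQ'
        pt0 := by
          refine ⟨fun _ => 0, ?_⟩
          ext y
          have hy : y = fun _ => 0 := by
            funext j
            exact Fin.elim0 j
          constructor
          · intro _
            exact hy
          · intro _
            exact ⟨pt 0, rfl, fun j => Fin.elim0 j⟩
        lft := fun k => src_lft (N := p ^ (k + 1)) m (m + 3) le_rfl _ (G k).fin (G k).clo (G k).spt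
        dsj := fun k => src_dsj (N := p ^ (k + 1)) m (m + 3) le_rfl _ (G k).fin (G k).clo
          (G k).spt }
  · obtain ⟨P, hd, hP⟩ := sec_big (N := p ^ (0 + 1)) m ({pt 0} : Set (Cube (Fin 0))) 0 rfl
    exact ⟨0, P, hd, fun Q hQ => ⟨P, hP, hQ⟩⟩

end AGM
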