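import Pool.Agent.AGM.TW2

/-!
# AGM-TOW: topology of the limit of a tower

`Yx` is closed in the product of the compact sets `Body (T k)` (finite unions of boxes), metrizable (countably many coordinates).
apr (approximations). If `G m : E → J m → ℝ`, `m ≥ k₀`, are continuous on `S` with values in `Body (T m)` and `|G (m+1) x (e j) / 8 - G m x j| ≤ c` then there is `H : E → ∀ k, J k → ℝ`, continuous on `S`, with values in `Yx`, `|H x m j - G m x j| ≤ 8 c / 7` for
`m ≥ k₀`, and `H x m = G m x` for all `m ≥ k₀` if `G (m+1) x (e j) = 8 G m x j` for all `m ≥ k₀` (limit of the iterated projections, uniform).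
ext. `i ≤ m`, `φ : Sp i → Yx` continuous, `u : Bl i → Body (T k)` continuous with `u = φ_k` on the sphere: there is `Φ : Bl i → Yx` extending `φ` with `|Φ_k - u| ≤ 16/7`: iterate `Lft` (`G k = u`, `G (m+1)` extends `φ_(m+1)`), `apr` (exact on the sphere). The same without a condition
on the sphere (`Dsj` with `u₁ = u₂ = u` instead of `Lft`).
Cn: `k = 0`, `Body (T 0)` is a point (nonempty: `i = 0`). DDP: `k` so large that `|y_k - y'_k| ≤ 3` implies `(y, y') ∈ W` (compactness); `Dsj` gives `V₁, V₂` at level `k + 1`, extend to the limit: `|Φ_(k+1) - V| ≤ 16/7`, `8 - 32/7 > 0`, and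
`|Φ_k - α_k| ≤ 2 + 2/7`. LCn: `U ∋ y` contains `{y' : |y'_k - y_k| ≤ 3}` for large `k`; `V = {y' : |y'_k - y_k| < 1/4}` (open because of `Spt`). For `a` in the sphere let `y*` be `y_k` with all coordinates at distance `< 1/4` of an integer rounded to it:
every cube of `T k` containing a point at distance `< 1/4` of `y_k` contains `y*`; `u x = (1 - ‖x‖) y* + ‖x‖ φ_k (x / ‖x‖)` is in `Body (T k)`, at distance `≤ 1/2` of `y_k`; ext.
-/

set_option autoImplicit false

noncomputable section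

namespace AGM

open AGE Set Topology Filter

private theorem TOW_zero (i : ℕ) : (Bl i).Nonempty := ⟨0, Metric.mem_closedBall_self (by norm_num)⟩

private theorem TOW_sub (i : ℕ) : Sp i ⊆ Bl i := Metric.sphere_subset_closedBall

theorem tow_cn {m : ℕ} {J : ℕ → Type} [∀ k, LinearOrder (J k)] {T : ∀ k, Set (Cube (J k))}
    {e : ∀ k, J k → J (k + 1)} (h : Tow m J T e) : Cn m (Yx J T e) := by
  obtain ⟨y₀, hy₀⟩ := yx_nonempty h
  refine ⟨⟨⟨y₀, hy₀⟩⟩, fun i _ hi φ hφ => ?_⟩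
  obtain ⟨x₀, hx₀⟩ := h.pt0
  have hval : ∀ y ∈ Yx J T e, y 0 = x₀ := by
    intro y hy
    have h1 := (hy 0).1
    rw [hx₀] at h1
    exact h1
  obtain ⟨Φ, h1, h2, h3, -⟩ := ext_lft h hi 0 (fun a => (φ a).1)
    (continuous_subtype_val.comp_continuousOn hφ) (fun a _ => (φ a).2) (fun _ => x₀)
    continuousOn_const (fun _ _ => by
      rw [hx₀]
      exact rfl) (fun a _ => (hval _ (φ a).2).symm)
  obtain ⟨Ψ, h4, h5⟩ := to_Yx (TOW_zero i) h1 h2
  exact ⟨Ψ, h4, fun a ha => Subtype.ext ((h5 a (TOW_sub i ha)).trans (h3 ha))⟩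

private theorem TOW_lvl {J : ℕ → Type} [∀ k, LinearOrder (J k)] {T : ∀ k, Set (Cube (J k))}
    {e : ∀ k, J k → J (k + 1)} {E : Type} [TopologicalSpace E] {S : Set E} {α : E → Yx J T e}
    (hα : ContinuousOn α S) (k : ℕ) : ContinuousOn (fun x => (α x).1 k) S :=
  ((continuous_apply k).comp continuous_subtype_val).comp_continuousOn hα

theorem tow_ddp {m : ℕ} {J : ℕ → Type} [∀ k, LinearOrder (J k)] {T : ∀ k, Set (Cube (J k))}
    {e : ∀ k, J k → J (k + 1)} (h : Tow m J T e) : DDP m (Yx J T e) := by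
  intro W hW hd α β hα hβ
  obtain ⟨k, hk⟩ := yx_ent h W hW hd
  obtain ⟨V₁, V₂, c1, m1, c2, m2, hb, hs⟩ := h.dsj k (fun x => (α x).1 k) (fun x => (β x).1 k)
    (TOW_lvl hα k) (fun x _ => ((α x).2 k).1) (TOW_lvl hβ k) (fun x _ => ((β x).2 k).1)
  obtain ⟨Φ₁, a1, a2, a3⟩ := ext_dsj h (k + 1) V₁ c1 m1
  obtain ⟨Φ₂, b1, b2, b3⟩ := ext_dsj h (k + 1) V₂ c2 m2
  obtain ⟨Ψ₁, p1, p2⟩ := to_Yx (TOW_zero m) a1 a2
  obtain ⟨Ψ₂, q1, q2⟩ := to_Yx (TOW_zero m) b1 b2
  have key : ∀ (a b c d : ℝ), |a / 8 - b| ≤ 2 → |8 * c - a| ≤ 16 / 7 → |b - c| ≤ 3 := by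
    intro a b c d h1 h2
    rw [abs_le] at *
    constructor <;> linarith [h1.1, h1.2, h2.1, h2.2]
  refine ⟨Ψ₁, Ψ₂, p1, q1, fun x hx => ⟨hk _ _ fun j => ?_, hk _ _ fun j => ?_⟩,
    fun x hx x' hx' heq => ?_⟩
  · rw [p2 x hx]
    have e2 := a3 x hx (e k j)
    rw [((a2 hx) k).2 j] at e2
    exact key _ _ _ 0 (hb x hx j).1 e2
  · rw [q2 x hx]
    have e2 := b3 x hx (e k j)
    rw [((b2 hx) k).2 j] at e2
    exact key _ _ _ 0 (hb x hx j).2 e2
  · obtain ⟨j, hj⟩ := hs x hx x' hx'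
    have e1 := a3 x hx j
    have e2 := b3 x' hx' j
    rw [← p2 x hx] at e1
    rw [← q2 x' hx', ← heq] at e2
    have e3 : |V₁ x j - V₂ x' j| ≤ 32 / 7 := by
      rw [abs_le] at *
      constructor <;> linarith [e1.1, e1.2, e2.1, e2.2]
    linarith

/-- the cone over a map of the sphere -/
private theorem TOW_cone {i : ℕ} {J : Type} (φ : Ei i → J → ℝ) (hφ : ContinuousOn φ (Sp i))
    (b C : J → ℝ) (hb : ∀ a ∈ Sp i, ∀ j, |φ a j - b j| ≤ C j) :
    Continuous fun (x : Ei i) (j : J) => b j + ‖x‖ * (φ (‖x‖⁻¹ • x) j - b j) := by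
  have hsp : ∀ x : Ei i, x ≠ 0 → ‖x‖⁻¹ • x ∈ Sp i := by
    intro x hx
    rw [Sp, mem_sphere_zero_iff_norm, norm_smul, norm_inv, norm_norm,
      inv_mul_cancel₀ (norm_ne_zero_iff.2 hx)]
  refine continuous_pi fun j => continuous_iff_continuousAt.2 fun x => ?_
  refine continuousAt_const.add ?_
  by_cases hx : x = 0
  · subst hx
    have h1 : Tendsto (fun x : Ei i => ‖x‖ * C j) (𝓝 0) (𝓝 0) := by
      have h2 : Continuous fun x : Ei i => ‖x‖ * C j := continuous_norm.mul continuous_const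
      have h3 := h2.tendsto 0
      rw [norm_zero, zero_mul] at h3
      exact h3
    have h4 : Tendsto (fun x : Ei i => ‖x‖ * (φ (‖x‖⁻¹ • x) j - b j)) (𝓝 0) (𝓝 0) := by
      refine squeeze_zero_norm (fun x => ?_) h1
      by_cases hx : x = 0
      · subst hx
        simp
      · rw [norm_mul, norm_norm, Real.norm_eq_abs]
        exact mul_le_mul_of_nonneg_left (hb _ (hsp x hx) j) (norm_nonneg x)
    show Tendsto _ (𝓝 0) (𝓝 (‖(0 : Ei i)‖ * _))
    rw [norm_zero, zero_mul]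
    exact h4
  · have h1 : ContinuousOn (fun x : Ei i => ‖x‖⁻¹ • x) {0}ᶜ := by
      have h0 : ContinuousOn (fun x : Ei i => ‖x‖⁻¹) {0}ᶜ :=
        continuous_norm.continuousOn.inv₀ fun x hx => norm_ne_zero_iff.2 hx
      have h0' : ContinuousOn (fun x : Ei i => x) {0}ᶜ := continuous_id.continuousOn
      exact h0.smul h0'
    have h2 : ContinuousOn (fun x : Ei i => φ (‖x‖⁻¹ • x) j) {0}ᶜ :=
      ((continuousOn_pi.1 hφ) j).comp h1 fun x hx => hsp x hx
    have h3 : ContinuousAt (fun x : Ei i => φ (‖x‖⁻¹ • x) j) x :=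
      h2.continuousAt (isOpen_compl_singleton.mem_nhds hx)
    exact continuous_norm.continuousAt.mul (h3.sub continuousAt_const)

/-- rounding of the coordinates near the integers -/
private theorem TOW_round {J : Type} [LinearOrder J] (y : J → ℝ) : ∃ b : J → ℝ,
    (∀ j, |b j - y j| ≤ 1 / 4) ∧
      ∀ (Q : Cube J) (z : J → ℝ), z ∈ Q.body → (∀ j, |z j - y j| < 1 / 4) → b ∈ Q.body := by
  classical
  refine ⟨fun j => if |y j - round (y j)| < 1 / 4 then (round (y j) : ℝ) else y j,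
    fun j => ?_, fun Q z hz hzy j => ?_⟩
  · show |(if |y j - round (y j)| < 1 / 4 then (round (y j) : ℝ) else y j) - y j| ≤ 1 / 4
    split_ifs with h
    · rw [abs_sub_comm]
      exact h.le
    · rw [sub_self, abs_zero]
      norm_num
  · show (Q.lo j : ℝ) ≤ (if |y j - round (y j)| < 1 / 4 then (round (y j) : ℝ) else y j) ∧
      (if |y j - round (y j)| < 1 / 4 then (round (y j) : ℝ) else y j) ≤ (Q.hi j : ℝ)
    obtain ⟨h1, h2⟩ := hz j
    have h3 := abs_lt.1 (hzy j)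
    split_ifs with h
    · have h4 := abs_lt.1 h
      constructor
      · have h5 : (Q.lo j : ℝ) < (round (y j) : ℝ) + 1 := by linarith [h3.1, h3.2, h4.1, h4.2]
        have h6 : Q.lo j < round (y j) + 1 := by exact_mod_cast h5
        exact_mod_cast Int.lt_add_one_iff.1 h6
      · have h5 : (round (y j) : ℝ) < (Q.hi j : ℝ) + 1 := by linarith [h3.1, h3.2, h4.1, h4.2]
        have h6 : round (y j) < Q.hi j + 1 := by exact_mod_cast h5
        exact_mod_cast Int.lt_add_one_iff.1 h6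
    · constructor
      · by_contra hlt
        push Not at hlt
        have h4 := round_le (y j) (Q.lo j)
        rw [abs_sub_comm (y j) (Q.lo j : ℝ), abs_of_pos (sub_pos.2 hlt)] at h4
        exact h (by linarith [h3.1, h3.2])
      · by_contra hlt
        push Not at hlt
        have h4 := round_le (y j) (Q.hi j)
        rw [abs_of_pos (sub_pos.2 hlt)] at h4
        exact h (by linarith [h3.1, h3.2])

theorem tow_lcn {m : ℕ} {J : ℕ → Type} [∀ k, LinearOrder (J k)] {T : ∀ k, Set (Cube (J k))}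
    {e : ∀ k, J k → J (k + 1)} (h : Tow m J T e) : LCn m (Yx J T e) := by
  classical
  intro y U hU
  obtain ⟨U', hU'U, hU'o, hyU'⟩ := mem_nhds_iff.1 hU
  obtain ⟨k, hk⟩ := yx_ent h ({z | z.1 ≠ y} ∪ {z | z.2 ∈ U'})
    ((isOpen_compl_singleton.preimage continuous_fst).union (hU'o.preimage continuous_snd))
    (fun z => by
      by_cases hz : z = y
      · right
        subst hz
        exact hyU'
      · left
        exact hz)
  have hk' : ∀ y' : Yx J T e, (∀ j, |y.1 k j - y'.1 k j| ≤ 3) → y' ∈ U := by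
    intro y' hy'
    rcases hk y y' hy' with h1 | h1
    · exact absurd rfl h1
    · exact hU'U h1
  refine ⟨{y' | ∀ j, |y'.1 k j - y.1 k j| < 1 / 4}, ?_, fun i _ hi φ hφ hφV => ?_⟩
  · -- a neighbourhood
    obtain ⟨F, hF⟩ := h.spt k
    have hz : ∀ z ∈ Body (T k), ∀ j, j ∉ F → z j = 0 := by
      rintro z ⟨Q, hQ, hz⟩ j hj
      obtain ⟨h1, h2⟩ := hF Q hQ j hj
      obtain ⟨h3, h4⟩ := hz j
      rw [h1] at h3
      rw [Cube.hi, if_neg h2, h1] at h4
      push_cast at h3 h4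
      linarith
    have hcont : ∀ j : J k, Continuous fun y' : Yx J T e => y'.1 k j := fun j =>
      (continuous_apply j).comp ((continuous_apply k).comp continuous_subtype_val)
    have h1 : (⋂ j ∈ F, {y' : Yx J T e | |y'.1 k j - y.1 k j| < 1 / 4}) ∈ 𝓝 y := by
      refine (F.finite_toSet.isOpen_biInter fun j _ => ?_).mem_nhds ?_
      · exact isOpen_lt ((hcont j).sub continuous_const).abs continuous_const
      · refine mem_iInter₂.2 fun j _ => ?_
        show |y.1 k j - y.1 k j| < 1 / 4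
        rw [sub_self, abs_zero]
        norm_num
    refine mem_of_superset h1 fun y' hy' j => ?_
    by_cases hj : j ∈ F
    · exact (mem_iInter₂.1 hy') j hj
    · rw [hz _ (y'.2 k).1 j hj, hz _ (y.2 k).1 j hj, sub_self, abs_zero]
      norm_num
  · obtain ⟨b, hb1, hb2⟩ := TOW_round (y.1 k)
    have hφk : ContinuousOn (fun a => (φ a).1 k) (Sp i) := TOW_lvl hφ k
    have hcone := TOW_cone (fun a => (φ a).1 k) hφk b (fun _ => 1 / 2) (fun a ha j => by
      have h1 := abs_le.1 (hb1 j)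
      have h2 := abs_lt.1 (hφV ha j)
      rw [abs_le]
      constructor <;> linarith [h1.1, h1.2, h2.1, h2.2])
    have hsp : ∀ x : Ei i, x ≠ 0 → ‖x‖⁻¹ • x ∈ Sp i := by
      intro x hx
      rw [Sp, mem_sphere_zero_iff_norm, norm_smul, norm_inv, norm_norm,
        inv_mul_cancel₀ (norm_ne_zero_iff.2 hx)]
    have hub : MapsTo (fun (x : Ei i) (j : J k) =>
        b j + ‖x‖ * ((φ (‖x‖⁻¹ • x)).1 k j - b j)) (Bl i) (Body (T k)) := by
      intro x hx
      have hx1 : ‖x‖ ≤ 1 := by rwa [Bl, mem_closedBall_zero_iff] at hx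
      by_cases hx0 : x = 0
      · subst hx0
        obtain ⟨Q, hQ, hQy⟩ := (y.2 k).1
        refine ⟨Q, hQ, ?_⟩
        have h1 := hb2 Q (y.1 k) hQy (fun j => by
          rw [sub_self, abs_zero]
          norm_num)
        intro j
        show (Q.lo j : ℝ) ≤ b j + ‖(0 : Ei i)‖ * _ ∧ b j + ‖(0 : Ei i)‖ * _ ≤ (Q.hi j : ℝ)
        rw [norm_zero, zero_mul, add_zero]
        exact h1 j
      · obtain ⟨Q, hQ, hQy⟩ := ((φ (‖x‖⁻¹ • x)).2 k).1
        refine ⟨Q, hQ, ?_⟩
        have h1 := hb2 Q _ hQy (fun j => hφV (hsp x hx0) j)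
        intro j
        obtain ⟨h2, h3⟩ := h1 j
        obtain ⟨h4, h5⟩ := hQy j
        show (Q.lo j : ℝ) ≤ b j + ‖x‖ * ((φ (‖x‖⁻¹ • x)).1 k j - b j) ∧
          b j + ‖x‖ * ((φ (‖x‖⁻¹ • x)).1 k j - b j) ≤ (Q.hi j : ℝ)
        have h6 := norm_nonneg x
        constructor <;> nlinarith
    obtain ⟨Φ, p1, p2, p3, p4⟩ := ext_lft h hi k (fun a => (φ a).1)
      (continuous_subtype_val.comp_continuousOn hφ) (fun a _ => (φ a).2) _ hcone.continuousOn hub
      (fun a ha => by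
        have ha1 : ‖a‖ = 1 := by rwa [Sp, mem_sphere_zero_iff_norm] at ha
        funext j
        show b j + ‖a‖ * ((φ (‖a‖⁻¹ • a)).1 k j - b j) = (φ a).1 k j
        rw [ha1, inv_one, one_smul, one_mul, add_sub_cancel])
    obtain ⟨Ψ, q1, q2⟩ := to_Yx (TOW_zero i) p1 p2
    refine ⟨Ψ, q1, fun a ha => Subtype.ext ((q2 a (TOW_sub i ha)).trans (p3 ha)),
      fun x hx => hk' _ fun j => ?_⟩
    rw [q2 x hx]
    have hx1 : ‖x‖ ≤ 1 := by rwa [Bl, mem_closedBall_zero_iff] at hx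
    have h1 : |Φ x k j - (b j + ‖x‖ * ((φ (‖x‖⁻¹ • x)).1 k j - b j))| ≤ 16 / 7 := p4 x hx j
    have h2 : |b j + ‖x‖ * ((φ (‖x‖⁻¹ • x)).1 k j - b j) - y.1 k j| ≤ 1 / 4 := by
      by_cases hx0 : x = 0
      · subst hx0
        rw [norm_zero, zero_mul, add_zero]
        exact hb1 j
      · have h3 : |(φ (‖x‖⁻¹ • x)).1 k j - y.1 k j| < 1 / 4 := hφV (hsp x hx0) j
        have h4 := hb1 j
        have h5 := norm_nonneg x
        rw [abs_lt] at h3
        rw [abs_le] at h4 ⊢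
        constructor <;> nlinarith [h3.1, h3.2, h4.1, h4.2]
    rw [abs_le] at *
    constructor <;> linarith [h1.1, h1.2, h2.1, h2.2]

theorem tow_top {m : ℕ} {J : ℕ → Type} [∀ k, LinearOrder (J k)] {T : ∀ k, Set (Cube (J k))}
    {e : ∀ k, J k → J (k + 1)} (h : Tow m J T e) :
    CompactSpace (Yx J T e) ∧ TopologicalSpace.MetrizableSpace (Yx J T e) ∧
      Cn m (Yx J T e) ∧ LCn m (Yx J T e) ∧ DDP m (Yx J T e) :=
  ⟨isCompact_iff_compactSpace.1 (isCompact_Yx h), metrizable_Yx h, tow_cn h, tow_lcn h, tow_ddp h⟩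

end AGM
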