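import Pool.Agent.AGM.Defs
import Pool.Agent.AGM.LFT
import Pool.Agent.AGM.TOW
import Pool.Agent.AGM.DIM
import Pool.Agent.AGM.SR2
import Pool.Agent.AGM.PAC
import Pool.Agent.AGM.QD1
import Pool.Agent.AGE.LIM3
import Pool.Agent.AGE.LIM6
import Pool.Agent.AGE.C2a

/-!
# AGM-SRC: the source (main statement; owner helper36)

Recursion: `J 0 = Fin 0`, `T 0 = {pt 0}`, `τ 0 = 1`; `N_k = p ^ (k + 1)`, `J (k+1) = JJ N_k (J k)`, `T (k+1) = Grd 8 (SEc (m + 3) m (T k))`, `τ (k+1) = sjp N_k (τ k)` (order divides `p ^ (k+1)`), `e k = JJ.a 0`. `Tow m J T e` (`src_lft`, `src_dsj`, `sec_basic`). `X = Yx J T e`;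
`(a • x) k = actP (τ k ^ a_k) (x k)`, `a_k` natural, `a_k ≡ a` modulo `p ^ k`: exact, because `(τ (k+1)).symm (e j) = e (τ k).symm j`; continuous. Free: if `a ≠ 0` then `p ^ (k+1) ∤ a_(k+1)` for some `k`; the point `x (k+1)` has a join coordinate `(g, c)` equal to `8` and the coordinate
`(g', c)` is `0` for `g' ≠ g`. Dimension of `X / Z_p` (and of `X`): points of `Body (T k)` have at most `m` non-integral coordinates; `lim6`, `covdim_quot`.
-/

set_option autoImplicit false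

noncomputable section

namespace AGM

open AGE Set Topology

private theorem src_integral {K : Type} [LinearOrder K] {T : Set (Cube K)} (m : ℕ)
    (hd : ∀ Q ∈ T, Q.dim ≤ m) (y : K → ℝ) (hy : y ∈ Body T) :
    ∃ s : Finset K, s.card ≤ m ∧ ∀ j, j ∉ s → ∃ w : ℤ, y j = w := by
  obtain ⟨Q, hQ, hb⟩ := hy
  refine ⟨Q.fr, hd Q hQ, fun j hj => ⟨Q.lo j, ?_⟩⟩
  obtain ⟨h1, h2⟩ := hb j
  rw [Cube.hi, if_neg hj] at h2
  exact le_antisymm h2 h1

theorem src_exists (p : ℕ) [Fact p.Prime] (m : ℕ) (hm : 1 ≤ m) :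
    ∃ (X : Type) (_ : TopologicalSpace X) (_ : CompactSpace X)
      (_ : TopologicalSpace.MetrizableSpace X) (_ : MulAction (Multiplicative ℤ_[p]) X)
      (_ : ContinuousSMul (Multiplicative ℤ_[p]) X),
      (∀ (g : Multiplicative ℤ_[p]) (x : X), g • x = x → g = 1) ∧ CovDimLE X m ∧
      ¬ CovDimLE X (m - 1) ∧
      CovDimLE (Quotient (MulAction.orbitRel (Multiplicative ℤ_[p]) X)) m ∧
      Cn m X ∧ LCn m X ∧ DDP m X := by
  obtain ⟨J, iJ, T, e, τ, hT, hB, hord, hinv, hcom, hdim, hsep⟩ := src_tower p m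
  obtain ⟨hC, hM, h1, h2, h3⟩ := tow_top hT
  have hcl : IsClosed (Yx J T e) := (isCompact_iff_compactSpace.2 hC).isClosed
  have hsy : ∀ k j, (τ (k + 1)).symm (e k j) = e k ((τ k).symm j) := by
    intro k j
    rw [Equiv.symm_apply_eq, hcom, Equiv.apply_symm_apply]
  have hin : ∀ z ∈ Yx J T e, (fun k => actP (τ k) (z k)) ∈ Yx J T e := by
    intro z hz k
    refine ⟨?_, fun j => ?_⟩
    · obtain ⟨Q, hQ, hb⟩ := (hz k).1
      exact ⟨Q.act (τ k), (hinv k Q).1 hQ, (Cube.act_body (τ k) Q (z k)).2 hb⟩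
    · show z (k + 1) ((τ (k + 1)).symm (e k j)) = 8 * z k ((τ k).symm j)
      rw [hsy]
      exact (hz k).2 _
  obtain ⟨A, hA, hsp⟩ := pac p J τ (fun k => k) hord (Yx J T e) hcl hin
  have hact : ∀ k (g : Multiplicative ℤ_[p]), ∃ σ : Equiv.Perm (J k),
      ∀ y : Yx J T e, (g • y).1 k = actP σ (y.1 k) := by
    intro k g
    obtain ⟨a, w, haw⟩ := lim3a p k (Multiplicative.toAdd g)
    refine ⟨τ k ^ a, fun y => ?_⟩
    have h4 := hsp k a w y
    rw [← haw] at h4
    exact h4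
  have hzc : ∀ k, Continuous (fun y : Yx J T e => y.1 k) := fun k =>
    (continuous_apply k).comp continuous_subtype_val
  have hzi : ∀ y y' : Yx J T e, (∀ k, y.1 k = y'.1 k) → y = y' := fun y y' h =>
    Subtype.ext (funext h)
  have hze : ∀ k (y : Yx J T e) j, y.1 k j = y.1 (k + 1) (e k j) / 8 := by
    intro k y j
    rw [(y.2 k).2 j, mul_div_cancel_left₀ _ (by norm_num : (8 : ℝ) ≠ 0)]
  have hzn : ∀ k (y : Yx J T e), ∃ s : Finset (J k), s.card ≤ m ∧
      ∀ j, j ∉ s → ∃ w : ℤ, y.1 k j = w := fun k y =>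
    src_integral m (hdim k) _ (y.2 k).1
  refine ⟨Yx J T e, inferInstance, hC, hM, A, hA, ?_, ?_, tow_big hm hT hB, ?_, h1, h2, h3⟩
  · intro g x hgx
    by_contra hne
    have hz0 : Multiplicative.toAdd g ≠ 0 := fun h => hne (by
      rw [← ofAdd_toAdd g, h, ofAdd_zero])
    obtain ⟨k, hk⟩ : ∃ k : ℕ, PadicInt.toZModPow k (Multiplicative.toAdd g) ≠ 0 := by
      by_contra hcon
      push Not at hcon
      apply hz0
      rw [← PadicInt.ext_of_toZModPow]
      intro n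
      rw [hcon n, map_zero]
    obtain ⟨a, w, haw⟩ := lim3a p (k + 1) (Multiplicative.toAdd g)
    have hna : ¬ p ^ (k + 1) ∣ a := by
      rintro ⟨b, hb⟩
      apply hk
      rw [← RingHom.mem_ker, PadicInt.ker_toZModPow, Ideal.mem_span_singleton, haw, hb]
      push_cast
      rw [← mul_add, pow_succ, mul_assoc]
      exact dvd_mul_right _ _
    have h4 := hsp (k + 1) a w x
    rw [← haw, ofAdd_toAdd, hgx] at h4
    exact hsep k a hna _ (x.2 (k + 1)).1 h4.symm
  · refine lim6 m J e (fun _ => 8) (fun _ => le_rfl) (fun k y => y.1 k) hzc hzi ?_ hzn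
    intro k y j
    have h8 : ((8 : ℕ) : ℝ) = 8 := by norm_num
    rw [h8]
    exact hze k y j
  · refine covdim_quot m (fun g => continuous_const_smul g) J e (fun k y => y.1 k) hzc hzi hze
      ?_ hzn hact
    intro k
    obtain ⟨F, hF⟩ := body_spt (hT.spt k)
    exact ⟨F, fun y j hj => hF _ (y.2 k).1 j hj⟩

end AGM
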