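import Pool.Agent.AGM.Defs
import Pool.Agent.AGM.TOW
import Pool.Agent.AGM.LIM2
import Pool.Agent.AGM.SEQ
import Pool.Agent.AGM.SRC
import Pool.Agent.AGM.DIM

/-!
# AGM-FIN: the main theorem (assembly)

`cn_homeo` etc.: the three properties are invariant under homeomorphisms. `main2`: `seq_exists`, `lim2`, `tow_top`, `tow_big`. `main3`: `src_exists` for `m = n + 1`, then `main2`.
-/

set_option autoImplicit false

noncomputable section

namespace AGM

open AGE Set Topology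

theorem cn_homeo {X Y : Type} [TopologicalSpace X] [TopologicalSpace Y] (h : X ≃ₜ Y) (m : ℕ)
    (hX : Cn m X) : Cn m Y := by
  obtain ⟨⟨x⟩, h1⟩ := hX
  refine ⟨⟨h x⟩, fun i hi1 hi φ hφ => ?_⟩
  obtain ⟨Φ, h2, h3⟩ := h1 i hi1 hi (fun a => h.symm (φ a)) (h.symm.continuous.comp_continuousOn hφ)
  refine ⟨fun a => h (Φ a), h.continuous.comp_continuousOn h2, fun a ha => ?_⟩
  show h (Φ a) = φ a
  rw [h3 ha, h.apply_symm_apply]

theorem lcn_homeo {X Y : Type} [TopologicalSpace X] [TopologicalSpace Y] (h : X ≃ₜ Y) (m : ℕ)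
    (hX : LCn m X) : LCn m Y := by
  intro y U hU
  have hU' : h ⁻¹' U ∈ 𝓝 (h.symm y) := by
    refine h.continuous.continuousAt.preimage_mem_nhds ?_
    rw [h.apply_symm_apply]
    exact hU
  obtain ⟨V, hV, h1⟩ := hX (h.symm y) (h ⁻¹' U) hU'
  refine ⟨h.symm ⁻¹' V, h.symm.continuous.continuousAt.preimage_mem_nhds hV,
    fun i hi1 hi φ hφ hφV => ?_⟩
  obtain ⟨Φ, h2, h3, h4⟩ := h1 i hi1 hi (fun a => h.symm (φ a))
    (h.symm.continuous.comp_continuousOn hφ) (fun a ha => hφV ha)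
  refine ⟨fun a => h (Φ a), h.continuous.comp_continuousOn h2, fun a ha => ?_,
    fun a ha => h4 ha⟩
  show h (Φ a) = φ a
  rw [h3 ha, h.apply_symm_apply]

theorem ddp_homeo {X Y : Type} [TopologicalSpace X] [TopologicalSpace Y] (h : X ≃ₜ Y) (m : ℕ)
    (hX : DDP m X) : DDP m Y := by
  intro W hW hd α β hα hβ
  obtain ⟨α', β', h1, h2, h3, h4⟩ := hX {z | (h z.1, h z.2) ∈ W}
    (hW.preimage ((h.continuous.comp continuous_fst).prodMk (h.continuous.comp continuous_snd)))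
    (fun x => hd (h x)) (fun x => h.symm (α x)) (fun x => h.symm (β x))
    (h.symm.continuous.comp_continuousOn hα) (h.symm.continuous.comp_continuousOn hβ)
  refine ⟨fun x => h (α' x), fun x => h (β' x), h.continuous.comp_continuousOn h1,
    h.continuous.comp_continuousOn h2, fun x hx => ?_, fun x hx x' hx' heq => ?_⟩
  · obtain ⟨h5, h6⟩ := h3 x hx
    have h5' : (h (h.symm (α x)), h (α' x)) ∈ W := h5
    have h6' : (h (h.symm (β x)), h (β' x)) ∈ W := h6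
    rw [h.apply_symm_apply] at h5' h6'
    exact ⟨h5', h6'⟩
  · exact h4 x hx x' hx' (h.injective heq)

theorem main2 (p : ℕ) [Fact p.Prime] (n : ℕ) (hn : 2 ≤ n) {X : Type} [TopologicalSpace X]
    [CompactSpace X] [TopologicalSpace.MetrizableSpace X] [MulAction (Multiplicative ℤ_[p]) X]
    [ContinuousSMul (Multiplicative ℤ_[p]) X]
    (hfree : ∀ (g : Multiplicative ℤ_[p]) (x : X), g • x = x → g = 1)
    (hdim : CovDimLE (Quotient (MulAction.orbitRel (Multiplicative ℤ_[p]) X)) (n + 1)) :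
    ∃ (Y : Type) (_ : TopologicalSpace Y) (_ : CompactSpace Y)
      (_ : TopologicalSpace.MetrizableSpace Y) (_ : MulAction (Multiplicative ℤ_[p]) Y)
      (_ : ContinuousSMul (Multiplicative ℤ_[p]) Y),
      (∀ (g : Multiplicative ℤ_[p]) (y : Y), g • y = y → g = 1) ∧ CovDimLE Y n ∧
      ¬ CovDimLE Y (n - 1) ∧ Cn n Y ∧ LCn n Y ∧ DDP n Y ∧
      ∃ f : X → Y, Continuous f ∧
        ∀ (g : Multiplicative ℤ_[p]) (x : X), f (g • x) = g • f x := by
  obtain ⟨J, iJ, T, e, τ, q, F, hT, hB, hq, hτ, hinv, hd, hblk, hsep, hF1, hF2, hF3, hF4⟩ :=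
    seq_exists p n hn hfree hdim
  obtain ⟨Y, i1, i2, i3, i4, i5, hfreeY, hdimY, ⟨h⟩, hmap⟩ :=
    lim2 p n J T e hT τ q hq hτ hinv hd hblk hsep
  obtain ⟨-, -, t1, t2, t3⟩ := tow_top hT
  refine ⟨Y, i1, i2, i3, i4, i5, hfreeY, hdimY,
    fun hY => tow_big (by omega) hT hB (covdim_homeo h (n - 1) hY), cn_homeo h.symm n t1,
    lcn_homeo h.symm n t2, ddp_homeo h.symm n t3, hmap X F hF1 hF2 hF3 hF4⟩

theorem main3 (p : ℕ) [Fact p.Prime] (n : ℕ) (hn : 2 ≤ n) :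
    ∃ (X : Type) (_ : TopologicalSpace X) (_ : CompactSpace X)
      (_ : TopologicalSpace.MetrizableSpace X) (_ : MulAction (Multiplicative ℤ_[p]) X)
      (_ : ContinuousSMul (Multiplicative ℤ_[p]) X)
      (Y : Type) (_ : TopologicalSpace Y) (_ : CompactSpace Y)
      (_ : TopologicalSpace.MetrizableSpace Y) (_ : MulAction (Multiplicative ℤ_[p]) Y)
      (_ : ContinuousSMul (Multiplicative ℤ_[p]) Y),
      (∀ (g : Multiplicative ℤ_[p]) (x : X), g • x = x → g = 1) ∧ CovDimLE X (n + 1) ∧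
      ¬ CovDimLE X n ∧
      CovDimLE (Quotient (MulAction.orbitRel (Multiplicative ℤ_[p]) X)) (n + 1) ∧
      Cn (n + 1) X ∧ LCn (n + 1) X ∧ DDP (n + 1) X ∧
      (∀ (g : Multiplicative ℤ_[p]) (y : Y), g • y = y → g = 1) ∧ CovDimLE Y n ∧
      ¬ CovDimLE Y (n - 1) ∧ Cn n Y ∧ LCn n Y ∧ DDP n Y ∧
      ∃ f : X → Y, Continuous f ∧
        ∀ (g : Multiplicative ℤ_[p]) (x : X), f (g • x) = g • f x := by
  obtain ⟨X, a1, a2, a3, a4, a5, hfX, hdX, hdX', hqX, c1, c2, c3⟩ :=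
    src_exists p (n + 1) (by omega)
  obtain ⟨Y, i1, i2, i3, i4, i5, h⟩ := main2 p n hn hfX hqX
  exact ⟨X, a1, a2, a3, a4, a5, Y, i1, i2, i3, i4, i5, hfX, hdX, hdX', hqX, c1, c2, c3, h⟩

end AGM
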