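import Pool.Agent.AGM.Defs
import Pool.Agent.AGE.ASM0
import Pool.Agent.AGE.ASM1
import Pool.Agent.AGE.ASM12
import Pool.Agent.AGE.C1b

/-!
# AGM-LA: carriers, bodies of subdivisions, finiteness

`box_fin`: cubes between `a` and `b`, `a = b` outside the finite set `F`: given by `fr ⊆ F` and the values of `lo` on `F`.
`car_exists`: `C.lo = floor`, `C.fr = Q.fr.filter (x j not integral)`.
-/

set_option autoImplicit false

noncomputable section

namespace AGM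

open AGE Set Topology

variable {J : Type} [LinearOrder J] {N : ℕ} [NeZero N]

/-- the complex containing the target complex: all blocks are faces of one cube of `T` -/
def PHt (M : ℕ) (T : Set (Cube J)) : Set (Cube (JJ N J)) :=
  {Q | (∃ t ∈ T, ∀ g, (blk g Q).Le t) ∧ EE Q ∧ Clm M Q}

/-- the complex containing the source complex: block `0` is in `T`, the other blocks are zero -/
def PHs (M : ℕ) (T : Set (Cube J)) : Set (Cube (JJ N J)) :=
  {Q | blk 0 Q ∈ T ∧ (∀ g : ZMod N, g ≠ 0 → ∀ j, Q.lo (.a g j) = 0 ∧ JJ.a g j ∉ Q.fr) ∧ EE Q ∧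
    Clm M Q}

theorem hi_cases (Q : Cube J) (j : J) :
    (j ∈ Q.fr ∧ Q.hi j = Q.lo j + 1) ∨ (j ∉ Q.fr ∧ Q.hi j = Q.lo j) := by
  by_cases h : j ∈ Q.fr
  · exact Or.inl ⟨h, if_pos h⟩
  · exact Or.inr ⟨h, if_neg h⟩

theorem box_fin (F : Finset J) (a b : J → ℤ) (h : ∀ j, j ∉ F → a j = b j) :
    {Q : Cube J | ∀ j, a j ≤ Q.lo j ∧ Q.hi j ≤ b j}.Finite := by
  classical
  have hfun : (Set.univ.pi (fun j : {j // j ∈ F} => Set.Icc (a j.1) (b j.1))).Finite :=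
    Set.Finite.pi' (fun j => Set.finite_Icc _ _) |>.subset (fun f hf j => hf j (Set.mem_univ j))
  refine Set.Finite.subset ((hfun.prod (F.powerset).finite_toSet).image
    (fun z : ({j // j ∈ F} → ℤ) × Finset J =>
      (⟨fun j => if hj : j ∈ F then z.1 ⟨j, hj⟩ else a j, z.2⟩ : Cube J))) ?_
  intro Q hQ
  have hQ' : ∀ j, a j ≤ Q.lo j ∧ Q.hi j ≤ b j := hQ
  have hlh : ∀ j, Q.lo j ≤ Q.hi j := by
    intro j
    rcases hi_cases Q j with h1 | h1 <;> omega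
  refine ⟨(fun j => Q.lo j.1, Q.fr), ⟨?_, ?_⟩, ?_⟩
  · intro j _
    have h1 := hQ' j.1
    have h2 := hlh j.1
    exact ⟨h1.1, h2.trans h1.2⟩
  · rw [Finset.mem_coe, Finset.mem_powerset]
    intro j hj
    by_contra hF
    have h1 := hQ' j
    have h2 := h j hF
    rcases hi_cases Q j with h3 | h3
    · omega
    · exact h3.1 hj
  · refine Cube.ext ?_ rfl
    funext j
    show (if hj : j ∈ F then Q.lo j else a j) = Q.lo j
    by_cases hj : j ∈ F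
    · rw [dif_pos hj]
    · rw [dif_neg hj]
      have h1 := hQ' j
      have h2 := h j hj
      have h3 := hlh j
      omega

theorem grd_fin (M : ℕ) (P : Set (Cube J)) (hP : P.Finite) : (Grd M P).Finite := by
  have h1 : Grd M P = ⋃ R ∈ P, {Q : Cube J | ∀ j, (M : ℤ) * R.lo j ≤ Q.lo j ∧
      Q.hi j ≤ (M : ℤ) * R.hi j} := by
    ext Q
    simp only [Grd, Cube.InM, Set.mem_iUnion, Set.mem_ofPred_eq, exists_prop]
  rw [h1]
  refine hP.biUnion (fun R _ => box_fin R.fr _ _ ?_)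
  intro j hj
  show (M : ℤ) * R.lo j = (M : ℤ) * R.hi j
  rw [Cube.hi, if_neg hj]

theorem grd_spt (M : ℕ) (P : Set (Cube J)) (hP : Spt P) : Spt (Grd M P) := by
  obtain ⟨F, hF⟩ := hP
  refine ⟨F, ?_⟩
  rintro Q ⟨R, hR, hQ⟩ j hj
  obtain ⟨h1, h2⟩ := hF R hR j hj
  have h3 : R.hi j = 0 := by rw [Cube.hi, if_neg h2, h1]
  have h4 := hQ j
  rw [h1, h3, mul_zero] at h4
  rcases hi_cases Q j with h5 | h5
  · omega
  · exact ⟨by omega, h5.1⟩

theorem car_exists (Q : Cube J) (x : J → ℝ) (hx : x ∈ Q.body) :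
    ∃ C : Cube J, (∀ j, C.lo j = ⌊x j⌋ ∧ C.hi j = ⌈x j⌉) ∧ (∀ j, j ∈ C.fr → (⌊x j⌋ : ℝ) ≠ x j) ∧
      x ∈ C.body ∧ ∀ R : Cube J, x ∈ R.body → C.Le R := by
  classical
  let C : Cube J := ⟨fun j => ⌊x j⌋, Q.fr.filter (fun j => (⌊x j⌋ : ℝ) ≠ x j)⟩
  have hlo : ∀ j, C.lo j = ⌊x j⌋ := fun j => rfl
  have hint : ∀ j, j ∉ C.fr → (⌊x j⌋ : ℝ) = x j := by
    intro j hj
    by_contra hne
    apply hj
    refine Finset.mem_filter.2 ⟨?_, hne⟩
    by_contra hQ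
    apply hne
    obtain ⟨h1, h2⟩ := hx j
    rw [Cube.hi, if_neg hQ] at h2
    have h3 : x j = (Q.lo j : ℝ) := le_antisymm h2 h1
    rw [h3, Int.floor_intCast]
  have hfr : ∀ j, j ∈ C.fr → (⌊x j⌋ : ℝ) ≠ x j := fun j hj => (Finset.mem_filter.1 hj).2
  have hhi : ∀ j, C.hi j = ⌈x j⌉ := by
    intro j
    rcases hi_cases C j with ⟨h1, h2⟩ | ⟨h1, h2⟩
    · rw [h2, hlo]
      have h3 := hfr j h1
      have h4 : (⌊x j⌋ : ℝ) < x j := lt_of_le_of_ne (Int.floor_le _) h3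
      refine le_antisymm ?_ ?_
      · have : ⌊x j⌋ < ⌈x j⌉ := by
          rw [Int.lt_ceil]
          exact h4
        omega
      · exact Int.ceil_le_floor_add_one _
    · rw [h2, hlo]
      have h3 := hint j h1
      conv_rhs => rw [← h3]
      rw [Int.ceil_intCast]
  refine ⟨C, fun j => ⟨hlo j, hhi j⟩, hfr, ?_, ?_⟩
  · intro j
    rw [hlo, hhi]
    exact ⟨Int.floor_le _, Int.le_ceil _⟩
  · intro R hR j
    rw [hlo, hhi]
    exact ⟨Int.le_floor.2 (hR j).1, Int.ceil_le.2 (hR j).2⟩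

theorem body_grd (M : ℕ) (hM : 0 < M) (P : Set (Cube J)) (z : J → ℝ) :
    z ∈ Body (Grd M P) ↔ (fun j => z j / (M : ℝ)) ∈ Body P := by
  have hM' : (0 : ℝ) < M := by exact_mod_cast hM
  constructor
  · rintro ⟨Q, ⟨R, hR, hQ⟩, hz⟩
    refine ⟨R, hR, fun j => ?_⟩
    obtain ⟨h1, h2⟩ := hz j
    obtain ⟨h3, h4⟩ := hQ j
    have h3' : (M : ℝ) * (R.lo j : ℝ) ≤ (Q.lo j : ℝ) := by exact_mod_cast h3
    have h4' : (Q.hi j : ℝ) ≤ (M : ℝ) * (R.hi j : ℝ) := by exact_mod_cast h4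
    refine ⟨?_, ?_⟩
    · rw [le_div_iff₀ hM']
      linarith
    · rw [div_le_iff₀ hM']
      linarith
  · rintro ⟨R, hR, hz⟩
    obtain ⟨Q, hQ, hb⟩ := body_inM M hM R _ hz
    refine ⟨Q, ⟨R, hR, hQ⟩, ?_⟩
    have h1 : (fun j => (M : ℝ) * (z j / (M : ℝ))) = z := by
      funext j
      exact mul_div_cancel₀ _ hM'.ne'
    have h2 : (fun j => (M : ℝ) * (fun j => z j / (M : ℝ)) j) ∈ Q.body := hb
    rw [← h1]
    exact h2

theorem body_dist (Q : Cube J) (x y : J → ℝ) (hx : x ∈ Q.body) (hy : y ∈ Q.body) (j : J) :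
    |x j - y j| ≤ 1 := by
  obtain ⟨h1, h2⟩ := hx j
  obtain ⟨h3, h4⟩ := hy j
  have h5 : (Q.hi j : ℝ) ≤ (Q.lo j : ℝ) + 1 := by
    rcases hi_cases Q j with h | h
    · rw [h.2]
      push_cast
      exact le_rfl
    · rw [h.2]
      linarith
  rw [abs_le]
  constructor <;> linarith

theorem body_convex (Q : Cube J) (x y : J → ℝ) (hx : x ∈ Q.body) (hy : y ∈ Q.body) (s : ℝ)
    (h0 : 0 ≤ s) (h1 : s ≤ 1) : (fun j => (1 - s) * x j + s * y j) ∈ Q.body := by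
  intro j
  obtain ⟨a1, a2⟩ := hx j
  obtain ⟨b1, b2⟩ := hy j
  have h2 : 0 ≤ 1 - s := by linarith
  have c1 := mul_le_mul_of_nonneg_left a1 h2
  have c2 := mul_le_mul_of_nonneg_left b1 h0
  have c3 := mul_le_mul_of_nonneg_left a2 h2
  have c4 := mul_le_mul_of_nonneg_left b2 h0
  refine ⟨?_, ?_⟩
  · show (Q.lo j : ℝ) ≤ (1 - s) * x j + s * y j
    linarith
  · show (1 - s) * x j + s * y j ≤ (Q.hi j : ℝ)
    linarith

/-- the points of `Body T` vanish outside a fixed finite set -/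
theorem body_spt {T : Set (Cube J)} (hs : Spt T) :
    ∃ F : Finset J, ∀ x ∈ Body T, ∀ j, j ∉ F → x j = 0 := by
  obtain ⟨F, hF⟩ := hs
  refine ⟨F, ?_⟩
  rintro x ⟨Q, hQ, hx⟩ j hj
  obtain ⟨h1, h2⟩ := hF Q hQ j hj
  have h3 : Q.hi j = 0 := by rw [Cube.hi, if_neg h2, h1]
  obtain ⟨h4, h5⟩ := hx j
  rw [h1] at h4
  rw [h3] at h5
  push_cast at h4 h5
  exact le_antisymm h5 h4

end AGM
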