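import Pool.Agent.AGM.LA

/-!
# AGM-LB: the target complex `PPf` and its container `PHt`

`mem_pht`: from left to right read off from a cube `Q` with `z ∈ Q.body` (`Q.lo ≤ z ≤ Q.hi`, integers in `[0,1]`). From right to left: `z` lies in the body of
`mkC (fun _ => t) (fun _ _ => 0) (Finset.univ ×ˢ Finset.range M)` (ASM0); take the carrier `C` (`car_exists`: `lo = floor`, `hi = ceil`); `C ∈ PHt`.
Finiteness: `box_fin` for every `t ∈ T`. Closedness: `ee_face`, `blk_mono` (ASM1).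
-/

set_option autoImplicit false

noncomputable section

namespace AGM

open AGE Set Topology

variable {J : Type} [LinearOrder J] {N : ℕ} [NeZero N]

/-- the big cube over `t` -/
private def lbC (N : ℕ) [NeZero N] (M : ℕ) (t : Cube J) : Cube (JJ N J) :=
  mkC (fun _ => t) (fun _ _ => 0) (Finset.univ ×ˢ Finset.range M)

private theorem lbC_hi_e (M : ℕ) (t : Cube J) (g : ZMod N) (k : ℕ) :
    (k < M ∧ (lbC N M t).hi (.e g k) = 1) ∨ (M ≤ k ∧ (lbC N M t).hi (.e g k) = 0) := by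
  classical
  unfold lbC
  rw [mkC_hi_e]
  by_cases h : k < M
  · refine Or.inl ⟨h, ?_⟩
    rw [if_pos (by simp [h]), zero_add]
  · refine Or.inr ⟨not_lt.1 h, ?_⟩
    rw [if_neg (by simp [h])]

private theorem lb_le {M : ℕ} {t : Cube J} {Q : Cube (JJ N J)} (hb : ∀ g, (blk g Q).Le t)
    (hE : EE Q) (hC : Clm M Q) : Q.Le (lbC N M t) := by
  rintro (⟨g, j⟩ | ⟨g, k⟩)
  · have h1 := hb g j
    rw [blk_hi] at h1
    unfold lbC
    rw [mkC_hi_a]
    exact h1
  · have h1 := hE.rng g k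
    have h2 : (lbC N M t).lo (.e g k) = 0 := rfl
    rw [h2]
    refine ⟨h1.1, ?_⟩
    rcases lbC_hi_e (N := N) M t g k with ⟨h3, h4⟩ | ⟨h3, h4⟩
    · rw [h4]
      exact h1.2
    · obtain ⟨h5, h6⟩ := hC g k h3
      rw [h4, Cube.hi, if_neg h6, h5]

private theorem lb_lh {I : Type} [LinearOrder I] (Q : Cube I) (j : I) : Q.lo j ≤ Q.hi j := by
  rcases hi_cases Q j with h | h <;> omega

private theorem clm_face {M : ℕ} {P Q : Cube (JJ N J)} (h : P.Le Q) (hQ : Clm M Q) :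
    Clm M P := by
  intro g k hk
  obtain ⟨h1, h2⟩ := hQ g k hk
  have h3 := h (.e g k)
  have h4 : Q.hi (.e g k) = 0 := by rw [Cube.hi, if_neg h2, h1]
  rcases hi_cases P (.e g k) with h5 | h5
  · omega
  · exact ⟨by omega, h5.1⟩

theorem mem_pht (M : ℕ) (T : Set (Cube J)) (z : JJ N J → ℝ) :
    z ∈ Body (PHt (N := N) M T) ↔ (∃ t ∈ T, ∀ g : ZMod N, (fun j => z (.a g j)) ∈ t.body) ∧
      (fun c : ZMod N × ℕ => z (.e c.1 c.2)) ∈ EM N M := by
  constructor
  · rintro ⟨Q, ⟨⟨t, ht, hb⟩, hE, hC⟩, hz⟩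
    have hz0 : ∀ g k, Q.hi (.e g k) ≠ 1 → z (.e g k) = 0 := by
      intro g k h
      have h1 := hE.rng g k
      have h2 := lb_lh Q (.e g k)
      have h3 : Q.hi (.e g k) = 0 := by omega
      have h4 : Q.lo (.e g k) = 0 := by omega
      obtain ⟨h5, h6⟩ := hz (.e g k)
      rw [h4] at h5
      rw [h3] at h6
      push_cast at h5 h6
      exact le_antisymm h6 h5
    refine ⟨⟨t, ht, fun g j => ?_⟩, ?_, ?_, ?_, ?_⟩
    · have h1 := hb g j
      rw [blk_hi, blk_lo] at h1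
      obtain ⟨h2, h3⟩ := hz (.a g j)
      have h4 : (t.lo j : ℝ) ≤ (Q.lo (.a g j) : ℝ) := by exact_mod_cast h1.1
      have h5 : (Q.hi (.a g j) : ℝ) ≤ (t.hi j : ℝ) := by exact_mod_cast h1.2
      exact ⟨h4.trans h2, h3.trans h5⟩
    · rintro ⟨g, k⟩
      have h1 := hE.rng g k
      obtain ⟨h2, h3⟩ := hz (.e g k)
      have h4 : (0 : ℝ) ≤ (Q.lo (.e g k) : ℝ) := by exact_mod_cast h1.1
      have h5 : (Q.hi (.e g k) : ℝ) ≤ 1 := by exact_mod_cast h1.2
      exact ⟨h4.trans h2, h3.trans h5⟩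
    · obtain ⟨g, k, h⟩ := hE.one
      have h1 := hE.rng g k
      obtain ⟨h2, h3⟩ := hz (.e g k)
      have h5 : (Q.hi (.e g k) : ℝ) ≤ 1 := by exact_mod_cast h1.2
      rw [h] at h2
      push_cast at h2
      exact ⟨(g, k), le_antisymm (h3.trans h5) h2⟩
    · intro k g g' hg
      by_cases h1 : Q.hi (.e g k) = 1
      · by_cases h2 : Q.hi (.e g' k) = 1
        · exact absurd (hE.col k g g' h1 h2) hg
        · exact Or.inr (hz0 g' k h2)
      · exact Or.inl (hz0 g k h1)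
    · rintro ⟨g, k⟩ hk
      have h1 := hC g k hk
      refine hz0 g k ?_
      rw [Cube.hi, if_neg h1.2, h1.1]
      norm_num
  · rintro ⟨⟨t, ht, hb⟩, h1, h2, h3, h4⟩
    have hz : z ∈ (lbC N M t).body := by
      rintro (⟨g, j⟩ | ⟨g, k⟩)
      · unfold lbC
        rw [mkC_hi_a, mkC_lo_a]
        exact hb g j
      · have h5 : (lbC N M t).lo (.e g k) = 0 := rfl
        rw [h5]
        push_cast
        refine ⟨(h1 (g, k)).1, ?_⟩
        rcases lbC_hi_e (N := N) M t g k with ⟨h6, h7⟩ | ⟨h6, h7⟩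
        · rw [h7]
          push_cast
          exact (h1 (g, k)).2
        · rw [h7]
          push_cast
          exact (h4 (g, k) h6).le
    obtain ⟨C, hC, hCf, hCb, -⟩ := car_exists (lbC N M t) z hz
    refine ⟨C, ⟨⟨t, ht, fun g j => ?_⟩, ⟨?_, ?_, ?_, ?_⟩, ?_⟩, hCb⟩
    · rw [blk_hi, blk_lo, (hC _).1, (hC _).2]
      obtain ⟨h5, h6⟩ := hb g j
      exact ⟨Int.le_floor.2 h5, Int.ceil_le.2 h6⟩
    · intro g k
      rw [(hC _).1, (hC _).2]
      obtain ⟨h5, h6⟩ := h1 (g, k)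
      exact ⟨Int.floor_nonneg.2 h5, Int.ceil_le.2 (by push_cast; exact h6)⟩
    · refine ((Finset.univ ×ˢ Finset.range M : Finset (ZMod N × ℕ)).finite_toSet).subset ?_
      rintro ⟨g, k⟩ hx
      have hx' : C.lo (.e g k) = 1 := hx
      rw [(hC _).1] at hx'
      rw [Finset.mem_coe, Finset.mem_product, Finset.mem_range]
      refine ⟨Finset.mem_univ _, ?_⟩
      by_contra h5
      have h6 : z (.e g k) = 0 := h4 (g, k) (not_lt.1 h5)
      rw [h6, Int.floor_zero] at hx'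
      exact absurd hx' (by norm_num)
    · obtain ⟨⟨g, k⟩, h5⟩ := h2
      have h6 : z (.e g k) = 1 := h5
      exact ⟨g, k, by rw [(hC _).1, h6, Int.floor_one]⟩
    · intro k g g' h5 h6
      rw [(hC _).2] at h5 h6
      by_contra hg
      rcases h3 k g g' hg with h7 | h7
      · have h8 : z (.e g k) = 0 := h7
        rw [h8, Int.ceil_zero] at h5
        exact absurd h5 (by norm_num)
      · have h8 : z (.e g' k) = 0 := h7
        rw [h8, Int.ceil_zero] at h6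
        exact absurd h6 (by norm_num)
    · intro g k hk
      have h5 : z (.e g k) = 0 := h4 (g, k) hk
      have h6 := hC (.e g k)
      rw [h5, Int.floor_zero, Int.ceil_zero] at h6
      refine ⟨h6.1, fun h7 => ?_⟩
      rcases hi_cases C (.e g k) with h8 | h8
      · omega
      · exact h8.1 h7

theorem pht_closed (M : ℕ) (T : Set (Cube J)) : Closed (PHt (N := N) M T) := by
  rintro Q ⟨⟨t, ht, hb⟩, hE, hC⟩ P hP
  exact ⟨⟨t, ht, fun g => Cube.le_trans' (blk_mono g hP) (hb g)⟩, ee_face hP hE, clm_face hP hC⟩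

theorem pht_finite (M : ℕ) (T : Set (Cube J)) (hf : T.Finite) : (PHt (N := N) M T).Finite := by
  refine (hf.biUnion fun t _ => faces_finite (lbC N M t)).subset ?_
  rintro Q ⟨⟨t, ht, hb⟩, hE, hC⟩
  exact mem_iUnion₂.2 ⟨t, ht, lb_le hb hE hC⟩

theorem pht_spt (M : ℕ) (T : Set (Cube J)) (hs : Spt T) : Spt (PHt (N := N) M T) := by
  obtain ⟨F, hF⟩ := hs
  refine ⟨(lbC N M (⟨fun _ => 0, F⟩ : Cube J)).fr, ?_⟩
  rintro Q ⟨⟨t, ht, hb⟩, hE, hC⟩ (⟨g, j⟩ | ⟨g, k⟩) hx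
  · unfold lbC at hx
    rw [mkC_mem_a] at hx
    obtain ⟨h1, h2⟩ := hF t ht j hx
    have h3 : t.hi j = 0 := by rw [Cube.hi, if_neg h2, h1]
    have h4 := hb g j
    rw [blk_hi, blk_lo, h1, h3] at h4
    rcases hi_cases Q (.a g j) with h5 | h5
    · omega
    · exact ⟨by omega, h5.1⟩
  · unfold lbC at hx
    rw [mkC_mem_e, Finset.mem_product, Finset.mem_range] at hx
    refine hC g k ?_
    by_contra h
    exact hx ⟨Finset.mem_univ _, not_le.1 h⟩

theorem ppf_sub (M n : ℕ) (T : Set (Cube J)) : PPf (N := N) M n T ⊆ PHt M T := by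
  rintro Q ⟨⟨t, ht, h⟩, hC⟩
  exact ⟨⟨t, ht, fun g => (h.1 g).1⟩, h.2.1, hC⟩

theorem ppf_closed (M n : ℕ) (T : Set (Cube J)) : Closed (PPf (N := N) M n T) := by
  rintro Q ⟨⟨t, ht, h⟩, hC⟩ P hP
  exact ⟨⟨t, ht, closed_pp n t Q h P hP⟩, clm_face hP hC⟩

theorem ppf_of_dim (M n : ℕ) (T : Set (Cube J)) (Q : Cube (JJ N J)) (hQ : Q ∈ PHt (N := N) M T)
    (hd : Q.dim ≤ n) : Q ∈ PPf (N := N) M n T := by
  obtain ⟨⟨t, ht, hb⟩, hE, hC⟩ := hQ
  refine ⟨⟨t, ht, fun g => ⟨hb g, ?_⟩, hE, by omega⟩, hC⟩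
  refine le_trans ?_ hd
  show (blk g Q).fr.card ≤ Q.fr.card
  refine Finset.card_le_card_of_injOn (JJ.a g) (fun j hj => ?_) (fun a _ b _ h => by
    simpa using h)
  exact (mem_blk g Q j).1 hj

theorem ppf_basic {J : Type} [LinearOrder J] {N : ℕ} [NeZero N] (n M : ℕ) (T : Set (Cube J))
    (hf : T.Finite) (hc : Closed T) (hs : Spt T) :
    (PPf (N := N) M n T).Finite ∧ Closed (PPf (N := N) M n T) ∧ Spt (PPf (N := N) M n T) ∧
      (Grd 8 (PPf (N := N) M n T)).Finite ∧ Spt (Grd 8 (PPf (N := N) M n T)) := by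
  have h1 : (PPf (N := N) M n T).Finite := (pht_finite M T hf).subset (ppf_sub M n T)
  have h2 : Spt (PPf (N := N) M n T) := by
    obtain ⟨F, hF⟩ := pht_spt (N := N) M T hs
    exact ⟨F, fun Q hQ => hF Q (ppf_sub M n T hQ)⟩
  exact ⟨h1, ppf_closed M n T, h2, grd_fin 8 _ h1, grd_spt 8 _ h2⟩

end AGM
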