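import Pool.Agent.AGM.Defs
import Pool.Agent.AGE.LIM2

/-!
# AGM-LM2: the compact space of approximate threads
-/

set_option autoImplicit false

noncomputable section

namespace AGM

open AGE Set Topology

/-- the approximate threads of a tower with permutations `τ` -/
def Ap (J : ℕ → Type) [∀ k, LinearOrder (J k)] (T : ∀ k, Set (Cube (J k)))
    (e : ∀ k, J k → J (k + 1)) (τ : ∀ k, Equiv.Perm (J k)) : Set (∀ k, J k → ℝ) :=
  {z | ∀ k, z k ∈ Body (T k) ∧ ∀ g : ℕ, ∀ j,
    |z (k + 1) ((τ (k + 1) ^ g) (e k ((τ k ^ g).symm j))) / 8 - z k j| ≤ 3}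

private theorem body_cpt {J : Type} [LinearOrder J] (T : Set (Cube J)) (hT : T.Finite) :
    IsCompact (Body T) := by
  have h1 : Body T = ⋃ Q ∈ T, Q.body := by
    ext x
    simp only [Body, Set.mem_ofPred_eq, Set.mem_iUnion, exists_prop]
  rw [h1]
  refine hT.isCompact_biUnion fun Q _ => ?_
  have h2 : Q.body = Set.pi Set.univ fun j => Set.Icc (Q.lo j : ℝ) (Q.hi j : ℝ) := by
    ext x
    simp only [Cube.body, Set.mem_ofPred_eq, Set.mem_pi, Set.mem_univ, true_imp_iff, Set.mem_Icc]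
  rw [h2]
  exact isCompact_univ_pi fun _ => isCompact_Icc

theorem body_inv {J : Type} [LinearOrder J] (τ : Equiv.Perm J) (T : Set (Cube J))
    (h : Inv τ T) (x : J → ℝ) (hx : x ∈ Body T) : actP τ x ∈ Body T := by
  obtain ⟨Q, hQ, hx⟩ := hx
  refine ⟨Q.act τ, (h Q).1 hQ, fun j => ?_⟩
  have h1 := hx (τ.symm j)
  have h2 : (Q.act τ).hi j = Q.hi (τ.symm j) := by
    have h3 : j ∈ (Q.act τ).fr ↔ τ.symm j ∈ Q.fr := by
      simp only [Cube.act, Finset.mem_map, Equiv.coe_toEmbedding]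
      constructor
      · rintro ⟨a, ha, rfl⟩
        rwa [Equiv.symm_apply_apply]
      · intro ha
        exact ⟨_, ha, Equiv.apply_symm_apply τ j⟩
    unfold Cube.hi
    by_cases h4 : τ.symm j ∈ Q.fr
    · rw [if_pos h4, if_pos (h3.2 h4)]
      rfl
    · rw [if_neg h4, if_neg (fun h5 => h4 (h3.1 h5))]
      rfl
  rw [h2]
  exact h1

variable {J : ℕ → Type} [∀ k, LinearOrder (J k)] {T : ∀ k, Set (Cube (J k))}
  {e : ∀ k, J k → J (k + 1)} {τ : ∀ k, Equiv.Perm (J k)}

theorem ap_closed (hT : ∀ k, (T k).Finite) : IsClosed (Ap J T e τ) := by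
  have h1 : Ap J T e τ = ⋂ k, ({z : ∀ k, J k → ℝ | z k ∈ Body (T k)} ∩ ⋂ g : ℕ, ⋂ j : J k,
      {z : ∀ k, J k → ℝ |
        |z (k + 1) ((τ (k + 1) ^ g) (e k ((τ k ^ g).symm j))) / 8 - z k j| ≤ 3}) := by
    ext z
    simp only [Ap, Set.mem_ofPred_eq, Set.mem_iInter, Set.mem_inter_iff]
  rw [h1]
  refine isClosed_iInter fun k => IsClosed.inter ?_ ?_
  · exact (body_cpt (T k) (hT k)).isClosed.preimage (continuous_apply k)
  · refine isClosed_iInter fun g => isClosed_iInter fun j => ?_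
    refine isClosed_le ?_ continuous_const
    refine continuous_abs.comp (Continuous.sub (Continuous.div_const ?_ 8) ?_)
    · exact (continuous_apply _).comp (continuous_apply (k + 1))
    · exact (continuous_apply _).comp (continuous_apply k)

theorem ap_compact (hT : ∀ k, (T k).Finite) : IsCompact (Ap J T e τ) := by
  have h1 : IsCompact (Set.pi Set.univ fun k => Body (T k)) :=
    isCompact_univ_pi fun k => body_cpt (T k) (hT k)
  refine h1.of_isClosed_subset (ap_closed hT) fun z hz k _ => (hz k).1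

theorem threads_metrizable (J : ℕ → Type) (hJ : ∀ k, Countable (J k)) (S : Set (∀ k, J k → ℝ)) :
    TopologicalSpace.MetrizableSpace S := by
  have h1 : ∀ k, Filter.IsCountablyGenerated (uniformity (J k → ℝ)) := fun k => by
    have := hJ k
    infer_instance
  have h2 : Filter.IsCountablyGenerated (uniformity (∀ k, J k → ℝ)) := inferInstance
  have h3 : TopologicalSpace.MetrizableSpace (∀ k, J k → ℝ) := UniformSpace.metrizableSpace
  infer_instance

theorem ap_inv (p : ℕ) (hp : 0 < p) (q : ℕ → ℕ) (hq : Monotone q)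
    (hτ : ∀ k, τ k ^ (p ^ q k) = 1) (hinv : ∀ k, Inv (τ k) (T k)) (z : ∀ k, J k → ℝ)
    (hz : z ∈ Ap J T e τ) : (fun k => actP (τ k) (z k)) ∈ Ap J T e τ := by
  intro k
  refine ⟨body_inv (τ k) (T k) (hinv k) _ (hz k).1, fun g j => ?_⟩
  -- the inverse as a positive power
  set N : ℕ := p ^ q (k + 1) with hN
  have hN0 : 0 < N := Nat.pow_pos hp
  have h1 : τ (k + 1) ^ N = 1 := hτ (k + 1)
  have h2 : τ k ^ N = 1 := by
    obtain ⟨d, hd⟩ := pow_dvd_pow p (hq (Nat.le_succ k))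
    have : N = p ^ q k * d := hd
    rw [this, pow_mul, hτ k, one_pow]
  have h3 := (hz k).2 (g + N - 1) ((τ k).symm j)
  have h4 : (τ (k + 1) ^ (g + N - 1)) (e k ((τ k ^ (g + N - 1)).symm ((τ k).symm j))) =
      (τ (k + 1)).symm ((τ (k + 1) ^ g) (e k ((τ k ^ g).symm j))) := by
    have h5 : τ (k + 1) * τ (k + 1) ^ (g + N - 1) = τ (k + 1) ^ g := by
      rw [← pow_succ', show g + N - 1 + 1 = g + N by omega, pow_add, h1, mul_one]
    have h6 : τ k * τ k ^ (g + N - 1) = τ k ^ g := by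
      rw [← pow_succ', show g + N - 1 + 1 = g + N by omega, pow_add, h2, mul_one]
    rw [Equiv.eq_symm_apply]
    rw [← h5]
    show τ (k + 1) ((τ (k + 1) ^ (g + N - 1)) _) = τ (k + 1) ((τ (k + 1) ^ (g + N - 1)) _)
    congr 3
    rw [Equiv.symm_apply_eq, Equiv.symm_apply_eq, ← Equiv.Perm.mul_apply, h6,
      Equiv.apply_symm_apply]
  rw [h4] at h3
  exact h3

theorem yx_sub_ap
    (hblk : ∀ k, ∀ z ∈ Body (T (k + 1)), ∃ t ∈ T k, ∀ g : ℕ,
      (fun j => z ((τ (k + 1) ^ g) (e k ((τ k ^ g).symm j))) / 8) ∈ t.body) :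
    Yx J T e ⊆ Ap J T e τ := by
  intro y hy k
  refine ⟨(hy k).1, fun g j => ?_⟩
  obtain ⟨t, ht, hb⟩ := hblk k (y (k + 1)) (hy (k + 1)).1
  have h0 := hb 0 j
  have hg := hb g j
  have h1 : (τ (k + 1) ^ 0) (e k ((τ k ^ 0).symm j)) = e k j := by
    rw [pow_zero, pow_zero]
    rfl
  simp only at h0 hg
  rw [h1, (hy k).2 j, mul_div_cancel_left₀ _ (by norm_num : (8 : ℝ) ≠ 0)] at h0
  have h2 : (t.hi j : ℝ) ≤ t.lo j + 1 := by
    have : t.hi j ≤ t.lo j + 1 := by
      unfold Cube.hi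
      split_ifs <;> omega
    exact_mod_cast this
  rw [abs_le]
  constructor <;> linarith [h0.1, h0.2, hg.1, hg.2]

end AGM
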