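import Pool.Agent.AGM.Defs
import Pool.Agent.AGM.LA
import Pool.Agent.AGM.LC
import Pool.Agent.AGE.ASM0
import Pool.Agent.AGE.ASM1
import Pool.Agent.AGE.C2a

/-!
# AGM-SR1: one step of the source tower

The powers of `sjp`, invariance of the source complex, separation of the translates of a point of its subdivision by the join part,
projection to block `0`, dimension, and a cube of greatest dimension.
-/

set_option autoImplicit false

noncomputable section

namespace AGM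

open AGE Set Topology

variable {J : Type} [LinearOrder J] {N : ℕ} [NeZero N]

theorem sjp_pow_a (τ : Equiv.Perm J) (a : ℕ) (g : ZMod N) (j : J) :
    (sjp N τ ^ a) (.a g j) = .a g ((τ ^ a) j) := by
  induction a with
  | zero => rfl
  | succ a ih =>
    rw [pow_succ', pow_succ', Equiv.Perm.mul_apply, Equiv.Perm.mul_apply, ih]
    rfl

theorem sjp_pow_e (τ : Equiv.Perm J) (a : ℕ) (g : ZMod N) (k : ℕ) :
    (sjp N τ ^ a) (.e g k) = .e (g + a) k := by
  induction a with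
  | zero => simp
  | succ a ih =>
    rw [pow_succ', Equiv.Perm.mul_apply, ih]
    show JJ.e (g + (a : ZMod N) + 1) k = JJ.e (g + ((a + 1 : ℕ) : ZMod N)) k
    rw [Nat.cast_add, Nat.cast_one, add_assoc]

theorem sjp_pow (τ : Equiv.Perm J) (h : τ ^ N = 1) : sjp N τ ^ N = 1 := by
  ext x
  cases x with
  | a g j => rw [sjp_pow_a, h]; rfl
  | e g k => rw [sjp_pow_e, ZMod.natCast_self, add_zero]; rfl

omit [LinearOrder J] [NeZero N] in
private theorem SR1_lo_a (τ : Equiv.Perm J) (Q : Cube (JJ N J)) (g : ZMod N) (j : J) :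
    (Q.act (sjp N τ)).lo (.a g j) = Q.lo (.a g (τ.symm j)) := rfl

omit [LinearOrder J] [NeZero N] in
private theorem SR1_lo_e (τ : Equiv.Perm J) (Q : Cube (JJ N J)) (g : ZMod N) (k : ℕ) :
    (Q.act (sjp N τ)).lo (.e g k) = Q.lo (.e (g - 1) k) := rfl

omit [LinearOrder J] [NeZero N] in
private theorem SR1_fr_a (τ : Equiv.Perm J) (Q : Cube (JJ N J)) (g : ZMod N) (j : J) :
    JJ.a g j ∈ (Q.act (sjp N τ)).fr ↔ JJ.a g (τ.symm j) ∈ Q.fr := by
  show JJ.a g j ∈ Q.fr.map (sjp N τ).toEmbedding ↔ _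
  rw [Finset.mem_map_equiv]
  rfl

omit [LinearOrder J] [NeZero N] in
private theorem SR1_fr_e (τ : Equiv.Perm J) (Q : Cube (JJ N J)) (g : ZMod N) (k : ℕ) :
    JJ.e g k ∈ (Q.act (sjp N τ)).fr ↔ JJ.e (g - 1) k ∈ Q.fr := by
  show JJ.e g k ∈ Q.fr.map (sjp N τ).toEmbedding ↔ _
  rw [Finset.mem_map_equiv]
  rfl

private theorem SR1_blk (τ : Equiv.Perm J) (Q : Cube (JJ N J)) (g : ZMod N) :
    blk g (Q.act (sjp N τ)) = (blk g Q).act τ := by
  refine Cube.ext rfl ?_
  ext j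
  rw [mem_blk, SR1_fr_a]
  show _ ↔ j ∈ (blk g Q).fr.map τ.toEmbedding
  rw [Finset.mem_map_equiv, mem_blk]

private theorem SR1_ee {Q Q' : Cube (JJ N J)} (hl : ∀ g k, Q'.lo (.e g k) = Q.lo (.e g k))
    (hh : ∀ g k, Q'.hi (.e g k) = Q.hi (.e g k)) (h : EE Q) : EE Q' := by
  refine ⟨fun g k => ?_, ?_, ?_, fun k g g' h1 h2 => ?_⟩
  · rw [hl, hh]
    exact h.rng g k
  · have h1 : {x : ZMod N × ℕ | Q'.lo (.e x.1 x.2) = 1} = {x | Q.lo (.e x.1 x.2) = 1} := by
      ext x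
      simp only [Set.mem_ofPred_eq, hl]
    rw [h1]
    exact h.fin
  · obtain ⟨g, k, hg⟩ := h.one
    exact ⟨g, k, by rw [hl]; exact hg⟩
  · rw [hh] at h1 h2
    exact h.col k g g' h1 h2

private theorem SR1_ee_act (τ : Equiv.Perm J) (Q : Cube (JJ N J)) : EE Q ↔ EE (Q.act (sjp N τ)) := by
  have h1 : ∀ g k, (Q.act (sjp N τ)).lo (.e g k) = (Q.act (jjp N τ)).lo (.e g k) := fun _ _ => rfl
  have h2 : ∀ g k, (Q.act (sjp N τ)).hi (.e g k) = (Q.act (jjp N τ)).hi (.e g k) := by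
    intro g k
    rw [Cube.act_hi, Cube.act_hi]
    rfl
  rw [ee_act τ Q]
  exact ⟨SR1_ee h1 h2, SR1_ee (fun g k => (h1 g k).symm) fun g k => (h2 g k).symm⟩

theorem sec_inv (τ : Equiv.Perm J) (M m : ℕ) (T : Set (Cube J)) (h : Inv τ T) :
    Inv (sjp N τ) (SEc (N := N) M m T) := by
  intro Q
  constructor
  · rintro ⟨h1, h2, h3, h4, h5⟩
    refine ⟨?_, fun g hg j => ?_, (SR1_ee_act τ Q).1 h3, fun g k hk => ?_, ?_⟩
    · rw [SR1_blk]
      exact (h _).1 h1
    · rw [SR1_lo_a, SR1_fr_a]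
      exact h2 g hg _
    · rw [SR1_lo_e, SR1_fr_e]
      exact h4 _ k hk
    · rw [Cube.act_dim]
      exact h5
  · rintro ⟨h1, h2, h3, h4, h5⟩
    refine ⟨?_, fun g hg j => ?_, (SR1_ee_act τ Q).2 h3, fun g k hk => ?_, ?_⟩
    · rw [SR1_blk] at h1
      exact (h _).2 h1
    · have h6 := h2 g hg (τ j)
      rw [SR1_lo_a, SR1_fr_a, Equiv.symm_apply_apply] at h6
      exact h6
    · have h6 := h4 (g + 1) k hk
      rw [SR1_lo_e, SR1_fr_e, add_sub_cancel_right] at h6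
      exact h6
    · rw [Cube.act_dim] at h5
      exact h5

theorem sec_sep (τ : Equiv.Perm J) (M m : ℕ) (T : Set (Cube J)) (z : JJ N J → ℝ)
    (hz : z ∈ Body (Grd 8 (SEc (N := N) M m T))) (a : ℕ) (ha : ¬ N ∣ a) :
    actP (sjp N τ ^ a) z ≠ z := by
  intro heq
  obtain ⟨Q', ⟨Q, hQ, hQQ⟩, hz'⟩ := hz
  obtain ⟨_, _, hE, _, _⟩ := hQ
  obtain ⟨g, k, h0⟩ := hE.one
  have h1 : z (.e (g + a) k) = z (.e g k) := by
    have h2 := congrFun heq (.e (g + a) k)
    have h3 : (sjp N τ ^ a).symm (.e (g + a) k) = .e g k := by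
      rw [Equiv.symm_apply_eq, sjp_pow_e]
    have h4 : actP (sjp N τ ^ a) z (.e (g + a) k) = z ((sjp N τ ^ a).symm (.e (g + a) k)) := rfl
    rw [h4, h3] at h2
    exact h2.symm
  have h5 : (8 : ℝ) ≤ z (.e g k) := by
    have h6 := (hQQ (.e g k)).1
    rw [h0] at h6
    have h7 : (8 : ℝ) ≤ (Q'.lo (.e g k) : ℝ) := by
      have : (8 : ℤ) ≤ Q'.lo (.e g k) := by omega
      exact_mod_cast this
    exact h7.trans (hz' _).1
  have h8 : Q.hi (.e g k) = 1 := by
    have h9 := (hE.rng g k).2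
    rcases hi_cases Q (.e g k) with h10 | h10 <;> omega
  have h11 : Q.hi (.e (g + a) k) ≤ 0 := by
    by_contra hcon
    have h12 := (hE.rng (g + a) k).2
    have h13 : Q.hi (.e (g + a) k) = 1 := by omega
    have h14 := hE.col k _ _ h13 h8
    have h15 : (a : ZMod N) = 0 := by
      have h16 : g + (a : ZMod N) = g + 0 := by rw [h14, add_zero]
      exact add_left_cancel h16
    exact ha ((ZMod.natCast_eq_zero_iff a N).1 h15)
  have h17 : z (.e (g + a) k) ≤ 0 := by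
    have h18 := (hQQ (.e (g + a) k)).2
    have h19 : Q'.hi (.e (g + a) k) ≤ 0 := by omega
    have h20 : (Q'.hi (.e (g + a) k) : ℝ) ≤ 0 := by exact_mod_cast h19
    exact (hz' _).2.trans h20
  linarith

theorem sec_prj (M m : ℕ) (T : Set (Cube J)) (Q' : Cube (JJ N J))
    (hQ : Q' ∈ Grd 8 (SEc (N := N) M m T)) :
    ∃ Q ∈ T, ∀ j, 8 * Q.lo j ≤ Q'.lo (.a 0 j) ∧ Q'.hi (.a 0 j) ≤ 8 * Q.hi j := by
  obtain ⟨Q, ⟨h1, _⟩, hQQ⟩ := hQ
  refine ⟨blk 0 Q, h1, fun j => ?_⟩
  rw [blk_lo, blk_hi]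
  exact_mod_cast hQQ (.a 0 j)

theorem sec_dim (M m : ℕ) (T : Set (Cube J)) (Q' : Cube (JJ N J))
    (hQ : Q' ∈ Grd 8 (SEc (N := N) M m T)) : Q'.dim ≤ m := by
  obtain ⟨P, hP, _, h⟩ := grd_dim (by norm_num) hQ
  exact h.trans hP.2.2.2.2

theorem sec_big (m : ℕ) (T : Set (Cube J)) (v : J → ℤ) (hv : pt v ∈ T) :
    ∃ P : Cube (JJ N J), P.dim = m ∧ P ∈ SEc (N := N) (m + 3) m T := by
  classical
  let F : Finset (ZMod N × ℕ) := (Finset.range m).image fun i => ((0 : ZMod N), i + 1)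
  have hF : ∀ (g : ZMod N) (k : ℕ), (g, k) ∈ F ↔ g = 0 ∧ 1 ≤ k ∧ k ≤ m := by
    intro g k
    simp only [F, Finset.mem_image, Finset.mem_range, Prod.mk.injEq]
    constructor
    · rintro ⟨i, hi, h1, h2⟩
      exact ⟨h1.symm, by omega, by omega⟩
    · rintro ⟨h1, h2, h3⟩
      exact ⟨k - 1, by omega, h1.symm, by omega⟩
  let B : ZMod N → Cube J := fun g => if g = 0 then pt v else pt 0
  let l : ZMod N → ℕ → ℤ := fun g k => if g = 0 ∧ k = 0 then 1 else 0
  have hlo : ∀ g k, (mkC B l F).lo (.e g k) = if g = 0 ∧ k = 0 then 1 else 0 := fun _ _ => rfl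
  have hhi : ∀ g k, (mkC B l F).hi (.e g k) = if (g, k) ∈ F then l g k + 1 else l g k :=
    fun g k => mkC_hi_e B l F g k
  have hBfr : ∀ g, (B g).fr = ∅ := by
    intro g
    show (if g = 0 then pt v else pt 0 : Cube J).fr = ∅
    split_ifs <;> rfl
  have hdim : (mkC B l F).dim = m := by
    have h1 : (mkC B l F).fr = (Finset.range m).image fun i => (JJ.e (0 : ZMod N) (i + 1) : JJ N J) := by
      ext x
      cases x with
      | a g j =>
        rw [mkC_mem_a, hBfr]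
        simp
      | e g k =>
        rw [mkC_mem_e, hF]
        simp only [Finset.mem_image, Finset.mem_range, JJ.e.injEq]
        constructor
        · rintro ⟨h2, h3, h4⟩
          exact ⟨k - 1, by omega, h2.symm, by omega⟩
        · rintro ⟨i, hi, h2, h3⟩
          exact ⟨h2.symm, by omega, by omega⟩
    unfold Cube.dim
    rw [h1, Finset.card_image_of_injective _ fun i i' h2 => by
      simp only [JJ.e.injEq] at h2
      omega, Finset.card_range]
  refine ⟨mkC B l F, hdim, ?_, fun g hg j => ⟨?_, ?_⟩, ⟨fun g k => ?_, ?_, ⟨0, 0, ?_⟩, fun k g g' h1 h2 => ?_⟩,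
    fun g k hk => ⟨?_, ?_⟩, hdim.le⟩
  · rw [blk_mkC]
    have h1 : B 0 = pt v := if_pos rfl
    rw [h1]
    exact hv
  · rw [mkC_lo_a]
    show (if g = 0 then pt v else pt 0 : Cube J).lo j = 0
    rw [if_neg hg]
    rfl
  · rw [mkC_mem_a, hBfr]
    exact Finset.notMem_empty j
  · rw [hlo, hhi]
    constructor
    · split_ifs <;> omega
    · by_cases h1 : (g, k) ∈ F
      · rw [if_pos h1]
        have h2 := (hF g k).1 h1
        have h3 : l g k = 0 := if_neg fun h4 => by omega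
        omega
      · rw [if_neg h1]
        show (if g = 0 ∧ k = 0 then (1 : ℤ) else 0) ≤ 1
        split_ifs <;> omega
  · refine (Set.finite_singleton ((0 : ZMod N), 0)).subset ?_
    rintro ⟨g, k⟩ h1
    have h2 : (mkC B l F).lo (.e g k) = 1 := h1
    rw [hlo] at h2
    by_cases h3 : g = 0 ∧ k = 0
    · rw [h3.1, h3.2]
      rfl
    · rw [if_neg h3] at h2
      exact absurd h2 (by norm_num)
  · rw [hlo]
    exact if_pos ⟨rfl, rfl⟩
  · have h3 : ∀ g, (mkC B l F).hi (.e g k) = 1 → g = 0 := by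
      intro g h4
      rw [hhi] at h4
      by_cases h5 : (g, k) ∈ F
      · exact ((hF g k).1 h5).1
      · rw [if_neg h5] at h4
        by_contra hg
        have h6 : l g k = 0 := if_neg fun h7 => hg h7.1
        omega
    rw [h3 g h1, h3 g' h2]
  · rw [hlo]
    exact if_neg fun h => by omega
  · rw [mkC_mem_e, hF]
    rintro ⟨_, _, h⟩
    omega

end AGM
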