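import Pool.Agent.AGM.Defs

/-!
# AGM-TPD: definitions for the layer TOP (helper18)
-/

set_option autoImplicit false

noncomputable section

namespace AGM

open AGE Set Topology

/-- the point `x` of the join uses only the legs `γ` in the columns below `M` -/
def Leg {N M : ℕ} (γ : Fin M → ZMod N) (x : ZMod N × ℕ → ℝ) : Prop :=
  ∀ (k : Fin M) (g : ZMod N), g ≠ γ k → x (g, (k : ℕ)) = 0

/-- the point `x` has an unused column below `M` -/
def Emp (M : ℕ) {N : ℕ} (x : ZMod N × ℕ → ℝ) : Prop := ∃ k < M, ∀ g : ZMod N, x (g, k) = 0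

/-- the points are compatible: their legs in every column are equal -/
def Cmp {N : ℕ} (x x' : ZMod N × ℕ → ℝ) : Prop :=
  ∀ (k : ℕ) (g g' : ZMod N), g ≠ g' → x (g, k) = 0 ∨ x' (g', k) = 0

/-- the path between two compatible points of the join -/
def epath {N : ℕ} (s : ℝ) (x x' : ZMod N × ℕ → ℝ) : ZMod N × ℕ → ℝ :=
  fun a => min 1 (((1 - s) * x a + s * x' a) / max s (1 - s))

end AGM
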