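import Pool.Agent.AGM.Defs

/-!
# AGM-TW1: limits of approximate threads
-/

set_option autoImplicit false

noncomputable section

namespace AGM

open AGE Set Topology Filter

/-- the composition of the maps `e` -/
def em {J : ℕ → Type} (e : ∀ k, J k → J (k + 1)) {l k : ℕ} (h : l ≤ k) : J l → J k :=
  Nat.leRecOn h (fun {n} => e n)

theorem em_self {J : ℕ → Type} (e : ∀ k, J k → J (k + 1)) {l : ℕ} (h : l ≤ l) (j : J l) :
    em e h j = j := Nat.leRecOn_self j

theorem em_succ {J : ℕ → Type} (e : ∀ k, J k → J (k + 1)) {l k : ℕ} (h : l ≤ k)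
    (h' : l ≤ k + 1) (j : J l) : em e h' j = e k (em e h j) := Nat.leRecOn_succ h j

theorem em_left {J : ℕ → Type} (e : ∀ k, J k → J (k + 1)) {l k : ℕ} (h : l + 1 ≤ k)
    (h' : l ≤ k) (j : J l) : em e h (e l j) = em e h' j := Nat.leRecOn_succ_left j h' h

theorem isClosed_body {J : Type} [LinearOrder J] (Q : Cube J) : IsClosed Q.body := by
  have h : Q.body = ⋂ j, {x : J → ℝ | (Q.lo j : ℝ) ≤ x j ∧ x j ≤ (Q.hi j : ℝ)} := by
    ext x
    simp [Cube.body]
  rw [h]
  exact isClosed_iInter fun j =>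
    (isClosed_le continuous_const (continuous_apply j)).inter
      (isClosed_le (continuous_apply j) continuous_const)

theorem isCompact_body {J : Type} [LinearOrder J] (Q : Cube J) : IsCompact Q.body := by
  have h : Q.body = Set.pi univ fun j => Set.Icc (Q.lo j : ℝ) (Q.hi j : ℝ) := by
    ext x
    simp only [Cube.body, Set.mem_pi, Set.mem_Icc, mem_setOf_eq, mem_univ, forall_true_left]
  rw [h]
  exact isCompact_univ_pi fun j => isCompact_Icc

theorem isCompact_Body {J : Type} [LinearOrder J] {T : Set (Cube J)} (hT : T.Finite) :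
    IsCompact (Body T) := by
  have h : Body T = ⋃ Q ∈ T, Q.body := by
    ext x
    simp [Body]
  rw [h]
  exact hT.isCompact_biUnion fun Q _ => isCompact_body Q

theorem isClosed_Body {J : Type} [LinearOrder J] {T : Set (Cube J)} (hT : T.Finite) :
    IsClosed (Body T) := (isCompact_Body hT).isClosed

/-- projection of bodies to the level below -/
theorem prj_body {J J' : Type} [LinearOrder J] [LinearOrder J'] {T : Set (Cube J)}
    {T' : Set (Cube J')} {e : J → J'}
    (hp : ∀ Q' ∈ T', ∃ Q ∈ T, ∀ j, 8 * Q.lo j ≤ Q'.lo (e j) ∧ Q'.hi (e j) ≤ 8 * Q.hi j)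
    {z : J' → ℝ} (hz : z ∈ Body T') : (fun j => z (e j) / 8) ∈ Body T := by
  obtain ⟨Q', hQ', hz⟩ := hz
  obtain ⟨Q, hQ, h⟩ := hp Q' hQ'
  refine ⟨Q, hQ, fun j => ?_⟩
  obtain ⟨h1, h2⟩ := h j
  obtain ⟨h3, h4⟩ := hz (e j)
  have h1' : (8 : ℝ) * (Q.lo j : ℝ) ≤ (Q'.lo (e j) : ℝ) := by exact_mod_cast h1
  have h2' : ((Q'.hi (e j) : ℤ) : ℝ) ≤ 8 * (Q.hi j : ℝ) := by exact_mod_cast h2
  constructor
  · show (Q.lo j : ℝ) ≤ z (e j) / 8
    linarith
  · show z (e j) / 8 ≤ (Q.hi j : ℝ)
    linarith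

/-- projection of bodies to all levels below -/
theorem prj_em {J : ℕ → Type} [∀ k, LinearOrder (J k)] {T : ∀ k, Set (Cube (J k))}
    {e : ∀ k, J k → J (k + 1)}
    (hp : ∀ k, ∀ Q' ∈ T (k + 1), ∃ Q ∈ T k, ∀ j,
      8 * Q.lo j ≤ Q'.lo (e k j) ∧ Q'.hi (e k j) ≤ 8 * Q.hi j) {l k : ℕ} (h : l ≤ k)
    {z : J k → ℝ} (hz : z ∈ Body (T k)) : (fun j => z (em e h j) / 8 ^ (k - l)) ∈ Body (T l) := by
  induction k with
  | zero =>
    obtain rfl : l = 0 := by omega
    have h1 : (fun j => z (em e h j) / 8 ^ (0 - 0)) = z := by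
      funext j
      rw [em_self, Nat.sub_self, pow_zero, div_one]
    rw [h1]
    exact hz
  | succ k ih =>
    by_cases hl : l = k + 1
    · subst hl
      have h1 : (fun j => z (em e h j) / 8 ^ (k + 1 - (k + 1))) = z := by
        funext j
        rw [em_self, Nat.sub_self, pow_zero, div_one]
      rw [h1]
      exact hz
    · have hlk : l ≤ k := by omega
      have h1 := ih hlk (prj_body (hp k) hz)
      have h2 : (fun j => z (em e h j) / 8 ^ (k + 1 - l)) =
          fun j => z (e k (em e hlk j)) / 8 / 8 ^ (k - l) := by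
        funext j
        rw [em_succ e hlk, div_div, ← pow_succ', Nat.sub_add_comm hlk]
      rw [h2]
      exact h1

theorem apr {J : ℕ → Type} [∀ k, LinearOrder (J k)] {T : ∀ k, Set (Cube (J k))}
    {e : ∀ k, J k → J (k + 1)} (hfin : ∀ k, (T k).Finite)
    (hp : ∀ k, ∀ Q' ∈ T (k + 1), ∃ Q ∈ T k, ∀ j,
      8 * Q.lo j ≤ Q'.lo (e k j) ∧ Q'.hi (e k j) ≤ 8 * Q.hi j) {E : Type} [TopologicalSpace E]
    (S : Set E) (G : ∀ l, E → J l → ℝ) (hGc : ∀ l, ContinuousOn (G l) S)
    (hGb : ∀ l, MapsTo (G l) S (Body (T l))) (c : ℝ)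
    (hG : ∀ l, ∀ x ∈ S, ∀ j, |G (l + 1) x (e l j) / 8 - G l x j| ≤ c) :
    ∃ H : E → ∀ l, J l → ℝ, ContinuousOn H S ∧ MapsTo H S (Yx J T e) ∧
      (∀ x ∈ S, ∀ l j, |H x l j - G l x j| ≤ 8 * c / 7) ∧
      ∀ x ∈ S, (∀ l j, G (l + 1) x (e l j) = 8 * G l x j) → ∀ l, H x l = G l x := by
  -- the sequence of approximations
  let A : ∀ l, J l → ℕ → E → ℝ := fun l j n x =>
    G (l + n) x (em e (Nat.le_add_right l n) j) / 8 ^ n
  have hA0 : ∀ l j x, A l j 0 x = G l x j := by
    intro l j x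
    show G (l + 0) x (em e (Nat.le_add_right l 0) j) / 8 ^ 0 = G l x j
    rw [pow_zero, div_one]
    congr 1
    exact em_self e _ j
  have hAs : ∀ l j n x, A l j (n + 1) x - A l j n x =
      (G (l + n + 1) x (e (l + n) (em e (Nat.le_add_right l n) j)) / 8 -
        G (l + n) x (em e (Nat.le_add_right l n) j)) / 8 ^ n := by
    intro l j n x
    show G (l + n + 1) x (em e _ j) / 8 ^ (n + 1) - G (l + n) x _ / 8 ^ n = _
    rw [em_succ e (Nat.le_add_right l n), sub_div, div_div, ← pow_succ']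
  have hAb : ∀ l j n, ∀ x ∈ S, |A l j (n + 1) x - A l j n x| ≤ c / 8 ^ n := by
    intro l j n x hx
    rw [hAs, abs_div, abs_of_pos (by positivity : (0 : ℝ) < 8 ^ n)]
    gcongr
    exact hG _ x hx _
  -- convergence
  have hgeo : ∀ l j, ∀ x ∈ S, ∀ n m, n ≤ m → |A l j m x - A l j n x| ≤ 8 * c / 7 / 8 ^ n := by
    intro l j x hx n m hnm
    have hc : 0 ≤ c := le_trans (abs_nonneg _) (hG l x hx j)
    have key : ∀ d, |A l j (n + d) x - A l j n x| ≤ 8 * c / 7 / 8 ^ n * (1 - 1 / 8 ^ d) := by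
      intro d
      induction d with
      | zero => simp
      | succ d ih =>
        have h1 := hAb l j (n + d) x hx
        have h2 : |A l j (n + d + 1) x - A l j n x| ≤
            |A l j (n + d + 1) x - A l j (n + d) x| + |A l j (n + d) x - A l j n x| :=
          abs_sub_le _ _ _
        have h3 : c / 8 ^ (n + d) + 8 * c / 7 / 8 ^ n * (1 - 1 / 8 ^ d) =
            8 * c / 7 / 8 ^ n * (1 - 1 / 8 ^ (d + 1)) := by
          rw [pow_add, pow_succ]
          field_simp
          ring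
        show |A l j (n + d + 1) x - A l j n x| ≤ _
        linarith
    obtain ⟨d, rfl⟩ := Nat.exists_eq_add_of_le hnm
    refine (key d).trans ?_
    have h1 : 0 ≤ 8 * c / 7 / 8 ^ n := by positivity
    have h2 : (0 : ℝ) ≤ 1 / 8 ^ d := by positivity
    nlinarith
  have htend : Tendsto (fun n : ℕ => 8 * c / 7 / 8 ^ n) atTop (𝓝 0) := by
    have h1 : Tendsto (fun n : ℕ => (1 / 8 : ℝ) ^ n) atTop (𝓝 0) :=
      tendsto_pow_atTop_nhds_zero_of_lt_one (by norm_num) (by norm_num)
    have h2 := h1.const_mul (8 * c / 7)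
    rw [mul_zero] at h2
    refine h2.congr fun n => ?_
    rw [one_div, inv_pow, div_eq_mul_inv (8 * c / 7)]
  have hcau : ∀ l j, ∀ x ∈ S, ∃ a, Tendsto (fun n => A l j n x) atTop (𝓝 a) := by
    intro l j x hx
    refine cauchySeq_tendsto_of_complete (Metric.cauchySeq_iff'.2 fun ε hε => ?_)
    obtain ⟨n, hn⟩ := (htend.eventually (gt_mem_nhds hε)).exists
    exact ⟨n, fun m hm => by
      rw [Real.dist_eq]
      exact lt_of_le_of_lt (hgeo l j x hx n m hm) hn⟩
  choose! L hL using hcau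
  have hLb : ∀ l j, ∀ x ∈ S, ∀ n, |L l j x - A l j n x| ≤ 8 * c / 7 / 8 ^ n := by
    intro l j x hx n
    have h1 : Tendsto (fun m => |A l j m x - A l j n x|) atTop (𝓝 |L l j x - A l j n x|) :=
      ((hL l j x hx).sub_const _).abs
    exact le_of_tendsto h1 (eventually_atTop.2 ⟨n, fun m hm => hgeo l j x hx n m hm⟩)
  refine ⟨fun x l j => L l j x, ?_, ?_, ?_, ?_⟩
  · -- continuity
    refine continuousOn_pi.2 fun l => continuousOn_pi.2 fun j => ?_
    have h1 : TendstoUniformlyOn (fun n x => A l j n x) (L l j) atTop S := by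
      refine Metric.tendstoUniformlyOn_iff.2 fun ε hε => ?_
      filter_upwards [htend.eventually (gt_mem_nhds hε)] with n hn x hx
      rw [Real.dist_eq]
      exact lt_of_le_of_lt (hLb l j x hx n) hn
    refine h1.continuousOn (Eventually.frequently (Eventually.of_forall fun n => ?_))
    exact ((continuousOn_pi.1 (hGc (l + n))) _).div_const _
  · -- values
    intro x hx l
    refine ⟨?_, fun j => ?_⟩
    · have h1 : Tendsto (fun n : ℕ => (fun j => A l j n x : J l → ℝ)) atTop
          (𝓝 (fun j => L l j x)) := tendsto_pi_nhds.2 fun j => hL l j x hx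
      refine (isClosed_Body (hfin l)).mem_of_tendsto h1 (Eventually.of_forall fun n => ?_)
      have h2 := prj_em hp (Nat.le_add_right l n) (hGb (l + n) hx)
      rw [Nat.add_sub_cancel_left] at h2
      exact h2
    · show L (l + 1) (e l j) x = 8 * L l j x
      have h1 := hL (l + 1) (e l j) x hx
      have h2 := ((hL l j x hx).comp (tendsto_add_atTop_nat 1)).const_mul 8
      refine tendsto_nhds_unique h1 (h2.congr fun n => ?_)
      show 8 * (G (l + (n + 1)) x (em e _ j) / 8 ^ (n + 1)) =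
        G (l + 1 + n) x (em e _ (e l j)) / 8 ^ n
      rw [em_left e _ (by omega)]
      have h3 : ∀ (a b : ℕ) (hab : a = b) (ha : l ≤ a) (hb : l ≤ b),
          G a x (em e ha j) = G b x (em e hb j) := by
        rintro a b rfl ha hb
        rfl
      rw [h3 (l + 1 + n) (l + (n + 1)) (by omega) (by omega) (by omega), pow_succ]
      field_simp
  · intro x hx l j
    have h1 := hLb l j x hx 0
    rw [hA0, pow_zero, div_one] at h1
    exact h1
  · intro x hx h l
    funext j
    have h1 : ∀ n, A l j n x = G l x j := by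
      intro n
      induction n with
      | zero => exact hA0 l j x
      | succ n ih =>
        have h2 := hAs l j n x
        rw [h, mul_div_cancel_left₀ _ (by norm_num : (8 : ℝ) ≠ 0), sub_self, zero_div] at h2
        linarith
    have h2 := hL l j x hx
    simp only [h1] at h2
    exact tendsto_nhds_unique h2 tendsto_const_nhds |>.symm ▸ rfl

end AGM
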